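import Pool.Agent.H60.CI.EqF

/-!
# Chains of 2-complexes, boundary operators, statements `T2`, `SS`, `H1z`, `H2z`
-/

noncomputable section

namespace Pool.Agent.H60.CI

open Finsupp

/-- sign of an orientation -/
def sgnb (b : Bool) : ℚ := if b then 1 else -1

/-- chain of a word of oriented edges -/
def wch {E : Type} (w : List (E × Bool)) : E →₀ ℚ := (w.map fun a => single a.1 (sgnb a.2)).sum

/-- sum of a function on the edges along a word -/
def wsum {E : Type} (b : E → ℚ) (w : List (E × Bool)) : ℚ := (w.map fun a => sgnb a.2 * b a.1).sum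

@[simp] theorem wch_nil {E : Type} : wch ([] : List (E × Bool)) = 0 := rfl
@[simp] theorem wch_cons {E : Type} (a : E × Bool) (w : List (E × Bool)) :
    wch (a :: w) = single a.1 (sgnb a.2) + wch w := by simp [wch]
@[simp] theorem wch_append {E : Type} (w w' : List (E × Bool)) :
    wch (w ++ w') = wch w + wch w' := by simp [wch]
@[simp] theorem wsum_nil {E : Type} (b : E → ℚ) : wsum b [] = 0 := rfl
@[simp] theorem wsum_cons {E : Type} (b : E → ℚ) (a : E × Bool) (w : List (E × Bool)) :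
    wsum b (a :: w) = sgnb a.2 * b a.1 + wsum b w := by simp [wsum]
@[simp] theorem wsum_append {E : Type} (b : E → ℚ) (w w' : List (E × Bool)) :
    wsum b (w ++ w') = wsum b w + wsum b w' := by simp [wsum]

theorem linearCombination_wch {E : Type} (b : E → ℚ) (w : List (E × Bool)) :
    Finsupp.linearCombination ℚ b (wch w) = wsum b w := by
  induction w with
  | nil => simp
  | cons a w ih => simp [ih]

theorem mapDomain_wch {E E' : Type} (f : E → E') (w : List (E × Bool)) :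
    (wch w).mapDomain f = wch (w.map (Prod.map f id)) := by
  induction w with
  | nil => simp
  | cons a w ih => simp [Finsupp.mapDomain_add, ih]

namespace Cpx

variable (Y : Cpx)

/-- boundary of an edge -/
def d1 (ε : Y.E) : Y.V →₀ ℚ := single (Y.tgt ε) 1 - single (Y.src ε) 1

/-- boundary of a 2-cell -/
def d2 (σ : Y.F) : Y.E →₀ ℚ := wch (Y.bd σ)

/-- `C_1 → C_0` -/
def L1 : (Y.E →₀ ℚ) →ₗ[ℚ] (Y.V →₀ ℚ) := Finsupp.linearCombination ℚ Y.d1

/-- `C_2 → C_1` -/
def L2 : (Y.F →₀ ℚ) →ₗ[ℚ] (Y.E →₀ ℚ) := Finsupp.linearCombination ℚ Y.d2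

/-- `H_1(Y; ℚ) = 0` -/
def H1z : Prop := ∀ z : Y.E →₀ ℚ, Y.L1 z = 0 → ∃ c, Y.L2 c = z

/-- `H_2(Y; ℚ) = 0` -/
def H2z : Prop := ∀ c : Y.F →₀ ℚ, Y.L2 c = 0 → c = 0

/-- the chain of an edge path from `x` to `y` has boundary `y - x` -/
theorem L1_wch {x y : Y.V} {w : List (Y.E × Bool)} (h : Y.Walk x w y) :
    Y.L1 (wch w) = single y 1 - single x 1 := by
  induction w generalizing x with
  | nil => cases h; simp
  | cons a w ih =>
    obtain ⟨h1, h2⟩ := h
    rw [wch_cons, map_add, ih h2, ← h1]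
    rcases a with ⟨e, b⟩
    cases b
    · simp [L1, d1, sgnb, oS, oT]
    · simp [L1, d1, sgnb, oS, oT]

theorem L1_d2 (σ : Y.F) : Y.L1 (Y.d2 σ) = 0 := by
  rw [d2, Y.L1_wch (Y.bd_walk σ), sub_self]

theorem L1_L2 (c : Y.F →₀ ℚ) : Y.L1 (Y.L2 c) = 0 := by
  induction c using Finsupp.induction_linear with
  | zero => simp
  | add f g hf hg => simp [hf, hg]
  | single σ r => simp [L2, L1_d2]

end Cpx

namespace HCpx

variable {H : Type} [Group H] (Y : HCpx H)

instance : FreeAct H Y.V := ⟨Y.free⟩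
instance : FreeAct H Y.E := ⟨fun h ε he => Y.free h (Y.src ε) (by rw [← Y.src_smul, he])⟩
instance : FreeAct H Y.F := ⟨fun h σ hσ => Y.free h (Y.base σ) (by rw [← Y.base_smul, hσ])⟩

theorem d1_smul (h : H) (ε : Y.E) : Y.d1 (h • ε) = (Y.d1 ε).mapDomain (h • ·) := by
  simp [Cpx.d1, Y.src_smul, Y.tgt_smul, sub_eq_add_neg, Finsupp.mapDomain_add,
    ← Finsupp.single_neg]

theorem d2_smul (h : H) (σ : Y.F) : Y.d2 (h • σ) = (Y.d2 σ).mapDomain (h • ·) := by
  rw [Cpx.d2, Cpx.d2, Y.bd_smul, mapDomain_wch]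

variable {N : Type} [AddCommGroup N] [Module ℚ N] (ρ : Representation ℚ H N)

/-- boundary operator on equivariant 1-chains -/
def B1 : EqF ρ Y.E →ₗ[ℚ] EqF ρ Y.V := EqF.mat ρ Y.d1 Y.d1_smul

/-- boundary operator on equivariant 2-chains -/
def B2 : EqF ρ Y.F →ₗ[ℚ] EqF ρ Y.E := EqF.mat ρ Y.d2 Y.d2_smul

/-- sum over a word of signed `sg` -/
theorem sum_wch (w : List (Y.E × Bool)) (n : N) :
    ((wch w).sum fun e r => r • EqF.sg ρ e n)
      = (w.map fun a => sgnb a.2 • EqF.sg ρ a.1 n).sum := by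
  induction w with
  | nil => simp
  | cons a w ih =>
    rw [wch_cons, Finsupp.sum_add_index' (by simp) (by intros; rw [add_smul]), ih]
    simp

theorem B2_sg (σ : Y.F) (n : N) :
    Y.B2 ρ (EqF.sg ρ σ n) = ((Y.bd σ).map fun a => sgnb a.2 • EqF.sg ρ a.1 n).sum := by
  rw [B2, EqF.mat_sg, Cpx.d2, sum_wch]

theorem B1_sg (ε : Y.E) (n : N) :
    Y.B1 ρ (EqF.sg ρ ε n) = EqF.sg ρ (Y.tgt ε) n - EqF.sg ρ (Y.src ε) n := by
  rw [B1, EqF.mat_sg, Cpx.d1, Finsupp.sum_sub_index (by intros; rw [sub_smul])]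
  simp

end HCpx

section

variable {H : Type} [Group H]

/-- every equivariant 2-cycle of `B` with values in `ρ` vanishes -/
def T2 (B : HCpx H) {N : Type} [AddCommGroup N] [Module ℚ N] (ρ : Representation ℚ H N) : Prop :=
  ∀ a : EqF ρ B.F, B.B2 ρ a = 0 → a = 0

/-- the statement `S(Y)`: for all `ρ` with `T2 B ρ` every equivariant 2-cycle of `Y` with values
in `ρ` vanishes -/
def SS (B Y : HCpx H) : Prop :=
  ∀ (N : Type) [AddCommGroup N] [Module ℚ N] (ρ : Representation ℚ H N), T2 B ρ →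
    ∀ c : EqF ρ Y.F, Y.B2 ρ c = 0 → c = 0

/-- equivariant cellular maps -/
structure EqHom (Y' Y : HCpx H) extends Cpx.Hom Y'.toCpx Y.toCpx where
  v_smul : ∀ (h : H) x, v (h • x) = h • v x
  e_smul : ∀ (h : H) x, e (h • x) = h • e x
  f_smul : ∀ (h : H) x, f (h • x) = h • f x

/-- `C_1(Y) / ∂ C_2(Y)` -/
abbrev EE (Y : HCpx H) : Type := (Y.E →₀ ℚ) ⧸ LinearMap.range Y.L2

theorem range_L2_inv (Y : HCpx H) (h : H) :
    LinearMap.range Y.L2 ≤ (LinearMap.range Y.L2).comap (perm H Y.E h) := by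
  rintro _ ⟨c, rfl⟩
  refine ⟨perm H Y.F h c, ?_⟩
  induction c using Finsupp.induction_linear with
  | zero => simp
  | add f g hf hg => simp only [map_add, hf, hg]
  | single σ r =>
    simp only [Cpx.L2, perm_single, Finsupp.linearCombination_single, Y.d2_smul, map_smul]
    rfl

/-- the action of `H` on `C_1(Y) / ∂ C_2(Y)` -/
def qE (Y : HCpx H) : Representation ℚ H (EE Y) :=
  (perm H Y.E).quotient (LinearMap.range Y.L2) (range_L2_inv Y)

@[simp] theorem qE_mk (Y : HCpx H) (h : H) (z : Y.E →₀ ℚ) :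
    qE Y h (Submodule.Quotient.mk z) = Submodule.Quotient.mk (perm H Y.E h z) := rfl

end

end Pool.Agent.H60.CI
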