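import Pool.Agent.H60.CI.Im
import Pool.Agent.H60.CI.Hcx

/-!
# Immersed complexes with group action; quotients; equivariant maps
-/

noncomputable section

set_option linter.unusedVariables false

namespace Pool.Agent.H60.CI

variable {H : Type} [Group H] {B : HCpx H}

namespace HIm

variable (Z : HIm B)

instance actE : MulAction H Z.Edg where
  smul h ε := ⟨(h • ε.1.1, h • ε.1.2.1, h • ε.1.2.2), Z.adj_smul h ε.2⟩
  one_smul ε := Subtype.ext (by
    show (_, _, _) = ε.1
    simp)
  mul_smul h h' ε := Subtype.ext (by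
    show (_, _, _) = (_, _, _)
    simp only [mul_smul]
    rfl)

instance actM : MulAction H Z.Mks where
  smul h τ := ⟨(h • τ.1.1, h • τ.1.2), Z.mark_smul h τ.2⟩
  one_smul τ := Subtype.ext (by
    show (_, _) = τ.1
    simp)
  mul_smul h h' τ := Subtype.ext (by
    show (_, _) = (_, _)
    simp only [mul_smul]
    rfl)

theorem esrc_smul (h : H) (ε : Z.Edg) : Z.esrc (h • ε) = h • Z.esrc ε := rfl
theorem etgt_smul (h : H) (ε : Z.Edg) : Z.etgt (h • ε) = h • Z.etgt ε := rfl
theorem epr_smul (h : H) (ε : Z.Edg) : Z.epr (h • ε) = h • Z.epr ε := rfl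
theorem mbase_smul (h : H) (τ : Z.Mks) : Z.mbase (h • τ) = h • Z.mbase τ := rfl
theorem mpr_smul (h : H) (τ : Z.Mks) : Z.mpr (h • τ) = h • Z.mpr τ := rfl

theorem bdw_smul (h : H) (τ : Z.Mks) :
    Z.bdw (h • τ) = (Z.bdw τ).map (Prod.map (h • ·) id) := by
  refine Z.toIm.walk_unique (Z.bdw_walk (h • τ)) (y' := h • Z.mbase τ) ?_ ?_
  · exact isWalk_map (h • ·) (h • ·) (fun _ => rfl) (fun _ => rfl) (Z.bdw_walk τ)
  · rw [Z.bdw_map, List.map_map, Z.mpr_smul, B.bd_smul, ← Z.bdw_map τ, List.map_map]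
    rfl

/-- an immersed `H`-complex as an `H`-complex -/
abbrev toHCpx : HCpx H where
  toCpx := Z.toIm.toCpx
  aV := Z.act
  aE := Z.actE
  aF := Z.actM
  src_smul := fun _ _ => rfl
  tgt_smul := fun _ _ => rfl
  base_smul := fun _ _ => rfl
  bd_smul := Z.bdw_smul
  free := fun h v hv => B.free h (Z.p v) ((Z.p_smul h v).symm.trans (congrArg Z.p hv))

/-- the action is free on vertices -/
theorem free (h : H) (v : Z.V) (hv : h • v = v) : h = 1 := Z.toHCpx.free h v hv

/-- the immersion into `B` -/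
def eqHom : EqHom Z.toHCpx B where
  toHom := Z.toIm.hom
  v_smul := fun h x => Z.p_smul h x
  e_smul := fun _ _ => rfl
  f_smul := fun _ _ => rfl

end HIm

/-- the equivariant cellular map of an equivariant morphism -/
def PC.Mor.eqHom {Z Y : HIm B} (m : PC.Mor Z.toPC Y.toPC)
    (hm : ∀ (h : H) (x : Z.V), m.f (h • x) = h • m.f x) : EqHom Z.toHCpx Y.toHCpx where
  toHom := m.hom
  v_smul := hm
  e_smul := fun h ε => Y.edg_ext (hm h _) rfl (hm h _)
  f_smul := fun h τ => Y.mks_ext (hm h _) rfl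

/-- invariance of a setoid -/
def HIm.Inv (Z : HIm B) (R : Setoid Z.V) : Prop := ∀ (h : H) (x y : Z.V), R x y → R (h • x) (h • y)

/-- quotient of an immersed `H`-complex by an invariant congruence -/
def HIm.quo (Z : HIm B) (R : Setoid Z.V) (hR : Z.Cong R) (hi : Z.Inv R) : HIm B where
  toIm := Z.toIm.quo R hR
  act :=
    { smul := fun h => Quotient.map (h • ·) (fun x y hxy => hi h x y hxy)
      one_smul := by
        intro a
        induction a using Quotient.ind with
        | _ a => exact congrArg (Quotient.mk R) (one_smul H a)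
      mul_smul := by
        intro h h' a
        induction a using Quotient.ind with
        | _ a => exact congrArg (Quotient.mk R) (mul_smul h h' a) }
  p_smul := by
    intro h a
    induction a using Quotient.ind with
    | _ a => exact Z.p_smul h a
  adj_smul := by
    rintro h a e b ⟨x, y, rfl, rfl, hxy⟩
    exact ⟨h • x, h • y, rfl, rfl, Z.adj_smul h hxy⟩
  mark_smul := by
    rintro h a σ ⟨x, rfl, hx⟩
    exact ⟨h • x, rfl, Z.mark_smul h hx⟩

/-- the projection to the quotient -/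
def HIm.quoMor (Z : HIm B) (R : Setoid Z.V) (hR : Z.Cong R) (hi : Z.Inv R) :
    PC.Mor Z.toPC (Z.quo R hR hi).toPC :=
  Z.toIm.quoMor R hR

theorem HIm.quoMor_smul (Z : HIm B) (R : Setoid Z.V) (hR : Z.Cong R) (hi : Z.Inv R) (h : H)
    (x : Z.V) : (Z.quoMor R hR hi).f (h • x) = h • (Z.quoMor R hR hi).f x := rfl

/-- the quotient map as an equivariant cellular map -/
def HIm.quoHom (Z : HIm B) (R : Setoid Z.V) (hR : Z.Cong R) (hi : Z.Inv R) :
    EqHom Z.toHCpx (Z.quo R hR hi).toHCpx :=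
  (Z.quoMor R hR hi).eqHom (Z.quoMor_smul R hR hi)

/-- finiteness modulo `H` -/
structure HIm.HFin (Z : HIm B) : Prop where
  orb : ∃ S : Finset Z.V, ∀ x : Z.V, ∃ h : H, ∃ s ∈ S, x = h • s
  out : ∀ x : Z.V, {e : B.E | ∃ y, Z.adj x e y}.Finite
  inn : ∀ y : Z.V, {e : B.E | ∃ x, Z.adj x e y}.Finite
  mks : ∀ x : Z.V, {σ : B.F | Z.mark x σ}.Finite

/-- number of orbits of vertices -/
def HIm.orbs (Z : HIm B) : ℕ := Nat.card (MulAction.orbitRel.Quotient H Z.V)

end Pool.Agent.H60.CI
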