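import Pool.Agent.H60.CI.Clo
import Pool.Agent.H50.CI.N0

/-!
# Good complexes; weak simple connectivity
-/

noncomputable section

namespace Pool.Agent.H60.CI

/-- connected, finite modulo `H`, rationally `H_1 = 0` -/
structure HIm.Good {H : Type} [Group H] {B : HCpx H} (Z : HIm B) : Prop where
  conn : Z.toHCpx.Conn
  fin : Z.HFin
  h1 : Z.toHCpx.H1z

/-- weakly simply connected: in the free group on the edges every closed edge path lies in the
normal closure of the boundary words of the 2-cells -/
def Cpx.WeakSC (Y : Cpx) : Prop := ∀ (v : Y.V) (w : List (Y.E × Bool)), Y.Walk v w v →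
  FreeGroup.mk w ∈ Subgroup.normalClosure (Set.range fun τ : Y.F => FreeGroup.mk (Y.bd τ))

end Pool.Agent.H60.CI
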