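import Pool.Agent.H60.CI.HIm

/-!
# Row H2dr: immersed complexes over a diagrammatically reducible complex

`B.DR`: every finite non-empty set `S` of 2-cells of `B` contains `σ` with an edge which occurs exactly
once in `bd σ` and not in `bd σ'` for `σ' ∈ S`, `σ' ≠ σ`.

* `DR_im`: if `B.DR` and `I : Im B` then `I.toCpx.DR`.  Let `S` be a finite non-empty set of marks.  The image
  `S' = mpr '' S` is finite non-empty; take `σ ∈ S'`, `bd σ = w₁ ++ a :: w₂` from `B.DR`, and `τ ∈ S` over
  `σ`.  Then `bdw τ = W₁ ++ A :: W₂` with `map = w₁, a, w₂` (`bdw_map`, split a `List.map` of an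
  append/cons).  `A.1` does not occur in `W₁ ++ W₂` because its image `a.1` does not occur in
  `w₁ ++ w₂`.  Let `τ' ∈ S`, `τ' ≠ τ` and suppose `c ∈ bdw τ'` with `c.1 = A.1`.  Then
  `epr c.1 = a.1` occurs in `bd (mpr τ')`, so `mpr τ' = σ` (third condition), and the position is the
  same: `bdw τ' = W₁' ++ A' :: W₂'` with `map = w₁, a, w₂` and (as `a.1` occurs only once in
  `bd σ`) `c = A'`, so `A' = A` as edges with orientation (`A.2 = a.2 = A'.2`).  The walks
  `W₁ : base τ → start of A`, `W₁' : base τ' → start of A'` end at the same vertex and have the same image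
  `w₁`; walking backwards (`isWalk_invRev` and unique lifting `walk_unique`) they start at the same
  vertex: `mbase τ = mbase τ'`, so `τ = τ'` (`mks_ext`), contradiction.
* `H2z_of_DR`: `Y.DR → Y.H2z`.  Let `L2 c = 0`, `c ≠ 0`; apply `DR` to `S = c.support`: `σ ∈ S` and
  `a`; the coefficient of `L2 c` at the edge `a.1` is `c σ * (±1)` (`L2 c = Σ_{τ ∈ S} c τ • wch (bd τ)` and
  `wch (bd τ)` has coefficient 0 at `a.1` for `τ ≠ σ`, `±1` for `τ = σ`).  So `c σ = 0`, contradiction.
-/

noncomputable section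

namespace Pool.Agent.H60.CI

open Finsupp

theorem H2dr_split {α β : Type} (f : α → β) (l : List α) (w₁ w₂ : List β) (a : β)
    (h : l.map f = w₁ ++ a :: w₂) :
    ∃ W₁ A W₂, l = W₁ ++ A :: W₂ ∧ W₁.map f = w₁ ∧ f A = a ∧ W₂.map f = w₂ := by
  obtain ⟨W₁, W, rfl, h1, h2⟩ := List.map_eq_append_iff.1 h
  obtain ⟨A, W₂, rfl, h3, h4⟩ := List.map_eq_cons_iff.1 h2
  exact ⟨W₁, A, W₂, rfl, h1, h3, h4⟩

theorem H2dr_invRev {E E' : Type} (f : E → E') (w : List (E × Bool)) :
    (FreeGroup.invRev w).map (Prod.map f id) = FreeGroup.invRev (w.map (Prod.map f id)) := by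
  simp only [FreeGroup.invRev, List.map_reverse, List.map_map]
  rfl

theorem DR_im {B : Cpx} (hB : B.DR) (I : Im B) : I.toCpx.DR := by
  intro S hS hne
  obtain ⟨σ, ⟨τ, hτ, rfl⟩, w₁, a, w₂, hbd, h1, h2⟩ := hB (I.mpr '' S) (hS.image _) (hne.image _)
  obtain ⟨W₁, A, W₂, hW, hW1, hA, hW2⟩ :=
    H2dr_split (Prod.map I.epr id) (I.bdw τ) w₁ w₂ a ((I.bdw_map τ).trans hbd)
  refine ⟨τ, hτ, W₁, A, W₂, hW, ?_, ?_⟩
  · intro c hc heq
    have h3 : Prod.map I.epr id c ∈ w₁ ++ w₂ := by
      rw [← hW1, ← hW2, ← List.map_append]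
      exact List.mem_map_of_mem hc
    apply h1 _ h3
    rw [← hA]
    exact congrArg I.epr heq
  · intro τ' hτ' hne' c hc heq
    have hc1 : (Prod.map I.epr id c).1 = a.1 := by
      rw [← hA]
      exact congrArg I.epr heq
    have hc2 : Prod.map I.epr id c ∈ B.bd (I.mpr τ') := by
      rw [← I.bdw_map τ']
      exact List.mem_map_of_mem hc
    have hσ : I.mpr τ' = I.mpr τ := by
      by_contra h
      exact h2 (I.mpr τ') ⟨τ', hτ', rfl⟩ h _ hc2 hc1
    obtain ⟨W₁', A', W₂', hW', hW1', hA', hW2'⟩ :=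
      H2dr_split (Prod.map I.epr id) (I.bdw τ') w₁ w₂ a
        ((I.bdw_map τ').trans (by rw [hσ]; exact hbd))
    have hc' : c ∈ W₁' ++ A' :: W₂' := by
      rw [← hW']
      exact hc
    have hcA : c = A' := by
      by_contra h
      have h3 : c ∈ W₁' ++ W₂' := by
        rw [List.mem_append, List.mem_cons] at hc'
        rw [List.mem_append]
        tauto
      have h4 : Prod.map I.epr id c ∈ w₁ ++ w₂ := by
        rw [← hW1', ← hW2', ← List.map_append]
        exact List.mem_map_of_mem h3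
      exact h1 _ h4 hc1
    have hAA : A' = A := by
      refine Prod.ext ?_ ?_
      · rw [← hcA]
        exact heq
      · have h5 : (Prod.map I.epr id A').2 = (Prod.map I.epr id A).2 := by rw [hA', hA]
        exact h5
    have k1 := I.bdw_walk τ
    have k2 := I.bdw_walk τ'
    rw [hW, isWalk_append] at k1
    rw [hW', hAA, isWalk_append] at k2
    obtain ⟨y, hy1, hy2, -⟩ := k1
    obtain ⟨y', hy1', hy2', -⟩ := k2
    have hyy : y' = y := hy2'.symm.trans hy2
    subst hyy
    have m1 := isWalk_invRev hy1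
    have m2 := isWalk_invRev hy1'
    have m3 := I.walk_unique m1 m2 (by
      rw [H2dr_invRev, H2dr_invRev, hW1, hW1'])
    rw [← m3] at m2
    exact hne' (I.mks_ext (isWalk_fun m2 m1) hσ)

theorem H2dr_wch {E : Type} (w : List (E × Bool)) (e : E) (h : ∀ c ∈ w, c.1 ≠ e) :
    wch w e = 0 := by
  classical
  induction w with
  | nil => simp
  | cons a w ih =>
    rw [wch_cons, Finsupp.add_apply, ih (fun c hc => h c (List.mem_cons_of_mem _ hc)), add_zero,
      Finsupp.single_apply, if_neg (h a List.mem_cons_self)]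

theorem H2z_of_DR {Y : Cpx} (hY : Y.DR) : Y.H2z := by
  intro c hc
  by_contra hne
  obtain ⟨σ, hσ, w₁, a, w₂, hbd, h1, h2⟩ := hY (c.support : Set Y.F) c.support.finite_toSet
    (by
      rw [Finset.coe_nonempty]
      exact Finsupp.support_nonempty_iff.2 hne)
  have h3 : (Y.L2 c) a.1 = 0 := by rw [hc]; rfl
  have h4 : (Y.L2 c) a.1 = c σ * sgnb a.2 := by
    have h5 : Y.L2 c = c.sum (fun τ r => r • Y.d2 τ) := Finsupp.linearCombination_apply ℚ c
    rw [h5, Finsupp.sum, Finsupp.finsetSum_apply, Finset.sum_eq_single σ]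
    · rw [Finsupp.smul_apply, smul_eq_mul]
      congr 1
      rw [Cpx.d2, hbd, wch_append, wch_cons, Finsupp.add_apply, Finsupp.add_apply,
        H2dr_wch w₁ a.1 (fun c hc => h1 c (List.mem_append_left _ hc)),
        H2dr_wch w₂ a.1 (fun c hc => h1 c (List.mem_append_right _ hc)),
        Finsupp.single_eq_same, zero_add, add_zero]
    · intro τ hτ hτσ
      rw [Finsupp.smul_apply, Cpx.d2, H2dr_wch (Y.bd τ) a.1 (h2 τ hτ hτσ), smul_zero]
    · intro h
      exact absurd hσ h
  rw [h4] at h3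
  rcases mul_eq_zero.1 h3 with h5 | h5
  · exact (Finsupp.mem_support_iff.1 hσ) h5
  · revert h5
    cases a.2 <;> simp [sgnb]

end Pool.Agent.H60.CI
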