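import Pool.Agent.H60.CI.Clo

/-!
# Row Orb: orbits of vertices of quotients; fibres of `p` are finite

`Z : HIm B` with `Z.HFin` (finitely many orbits of vertices, finitely many edges and marks at each vertex).

* `fib_finite`: for `b : B.V` the set `{x | p x = b}` is finite: every `x` is `h • s` with `s ∈ S` (finite),
  and for `s ∈ S` there is at most one `h` with `p (h • s) = h • p s = b` (the action on `B.V` is free).
* `quo_HFin`: the quotient by an invariant congruence is `HFin`: orbits: images; edges at `⟦x⟧`: an edge at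
  `⟦x⟧` over `e` comes from an edge at some `x'` with `R x x'`, `p x' = p x`, finitely many `x'`
  (`fib_finite`).
* `orbs_finite`: the set of orbits is finite.
* `orbs_quo_le`: `(Z / R).orbs ≤ Z.orbs`: the map of orbit sets is surjective.
* `orbs_lt`: let `R' ≤ R` be invariant congruences and `R x y` but not `R' x y` for some `x y`.  Then
  `(Z/R).orbs < (Z/R').orbs`: the map on orbit sets `V(Z/R')/H → V(Z/R)/H` is surjective; if the numbers were
  equal (or ≥) it would be bijective, so `⟦x⟧` and `⟦y⟧` lie in the same `H`-orbit of `V(Z/R')`: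
  `R' (h • x) y` for some `h`; `p y = h • p x` and `p y = p x`, so `h = 1` and `R' x y`, contradiction.
* `tow_stable`: there is `n ≤ Z.orbs` with `tow (n+1) = tow n`: otherwise `(Yn n).orbs` is strictly increasing
  for `n ≤ Z.orbs + 1`, but it is bounded by `Z.orbs`.
* `eq_bot_of_orbs`: if `(Z/R).orbs ≥ Z.orbs` then `R x y → x = y` (`orbs_lt` with `R' = ⊥`, whose quotient has
  the same number of orbits as `Z`).
-/

noncomputable section

set_option linter.unusedVariables false

namespace Pool.Agent.H60.CI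

open Finsupp

variable {H : Type} [Group H] {B : HCpx H}

section general

variable {X Y : Type} [MulAction H X] [MulAction H Y]

/-- the map of orbit sets of an equivariant map -/
def Orb_map (f : X → Y) (hf : ∀ (h : H) (x : X), f (h • x) = h • f x) :
    MulAction.orbitRel.Quotient H X → MulAction.orbitRel.Quotient H Y :=
  Quotient.map' f (by
    intro a b hab
    obtain ⟨h, hh⟩ := hab
    refine ⟨h, ?_⟩
    show h • f b = f a
    rw [← hf]
    exact congrArg f hh)

theorem Orb_map_surj (f : X → Y) (hf : ∀ (h : H) (x : X), f (h • x) = h • f x)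
    (hs : Function.Surjective f) : Function.Surjective (Orb_map f hf) := by
  intro q
  induction q using Quotient.inductionOn' with
  | h y =>
    obtain ⟨x, rfl⟩ := hs y
    exact ⟨Quotient.mk'' x, rfl⟩

end general

namespace HIm

variable (Z : HIm B)

theorem fib_finite (hF : Z.HFin) (b : B.V) : {x : Z.V | Z.p x = b}.Finite := by
  obtain ⟨S, hS⟩ := hF.orb
  have h1 : {x : Z.V | Z.p x = b} ⊆ ⋃ s ∈ S, {x : Z.V | Z.p x = b ∧ ∃ h : H, x = h • s} := by
    intro x hx
    obtain ⟨h, s, hs, hxs⟩ := hS x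
    exact Set.mem_biUnion hs ⟨hx, h, hxs⟩
  refine Set.Finite.subset (Set.Finite.biUnion S.finite_toSet fun s _ => ?_) h1
  refine Set.Subsingleton.finite ?_
  rintro x ⟨hx, h, rfl⟩ y ⟨hy, h', rfl⟩
  have h2 : h • Z.p s = h' • Z.p s := by
    rw [← Z.p_smul, ← Z.p_smul, hx, hy]
  have h3 : (h'⁻¹ * h) • Z.p s = Z.p s := by
    rw [mul_smul, h2, inv_smul_smul]
  have h4 := B.free _ _ h3
  have h5 : h = h' := by
    rw [inv_mul_eq_one] at h4
    exact h4.symm
  rw [h5]

theorem quo_HFin (hF : Z.HFin) (R : Setoid Z.V) (hR : Z.Cong R) (hi : Z.Inv R) :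
    (Z.quo R hR hi).HFin := by
  classical
  refine ⟨?_, ?_, ?_, ?_⟩
  · obtain ⟨S, hS⟩ := hF.orb
    let q : Z.V → (Z.quo R hR hi).V := Quotient.mk R
    refine ⟨S.image q, fun x => ?_⟩
    induction x using Quotient.ind with
    | _ x =>
      obtain ⟨h, s, hs, hxs⟩ := hS x
      exact ⟨h, q s, Finset.mem_image_of_mem q hs, congrArg (Quotient.mk R) hxs⟩
  · intro x
    induction x using Quotient.ind with
    | _ a =>
      have h1 : {e : B.E | ∃ y, (Z.quo R hR hi).adj (Quotient.mk R a) e y} ⊆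
          ⋃ x ∈ {x : Z.V | Z.p x = Z.p a}, {e : B.E | ∃ y, Z.adj x e y} := by
        rintro e ⟨y, x', y', hx', rfl, hxy⟩
        exact Set.mem_biUnion (show Z.p x' = Z.p a from hR.fib (Quotient.exact hx')) ⟨y', hxy⟩
      exact Set.Finite.subset (Set.Finite.biUnion (Z.fib_finite hF _) fun x _ => hF.out x) h1
  · intro x
    induction x using Quotient.ind with
    | _ a =>
      have h1 : {e : B.E | ∃ y, (Z.quo R hR hi).adj y e (Quotient.mk R a)} ⊆
          ⋃ x ∈ {x : Z.V | Z.p x = Z.p a}, {e : B.E | ∃ y, Z.adj y e x} := by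
        rintro e ⟨y, x', y', rfl, hy', hxy⟩
        exact Set.mem_biUnion (show Z.p y' = Z.p a from hR.fib (Quotient.exact hy')) ⟨x', hxy⟩
      exact Set.Finite.subset (Set.Finite.biUnion (Z.fib_finite hF _) fun x _ => hF.inn x) h1
  · intro x
    induction x using Quotient.ind with
    | _ a =>
      have h1 : {σ : B.F | (Z.quo R hR hi).mark (Quotient.mk R a) σ} ⊆
          ⋃ x ∈ {x : Z.V | Z.p x = Z.p a}, {σ : B.F | Z.mark x σ} := by
        rintro σ ⟨x', hx', hxy⟩
        exact Set.mem_biUnion (show Z.p x' = Z.p a from hR.fib (Quotient.exact hx')) hxy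
      exact Set.Finite.subset (Set.Finite.biUnion (Z.fib_finite hF _) fun x _ => hF.mks x) h1

theorem orbs_finite (hF : Z.HFin) : Finite (MulAction.orbitRel.Quotient H Z.V) := by
  obtain ⟨S, hS⟩ := hF.orb
  refine Finite.of_surjective
    (fun s : S => (Quotient.mk'' (s : Z.V) : MulAction.orbitRel.Quotient H Z.V)) ?_
  intro q
  induction q using Quotient.inductionOn' with
  | h x =>
    obtain ⟨h, s, hs, hxs⟩ := hS x
    refine ⟨⟨s, hs⟩, ?_⟩
    refine Quotient.sound' ?_
    refine ⟨h⁻¹, ?_⟩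
    show h⁻¹ • x = s
    rw [hxs, inv_smul_smul]

theorem orbs_quo_le (hF : Z.HFin) (R : Setoid Z.V) (hR : Z.Cong R) (hi : Z.Inv R) :
    (Z.quo R hR hi).orbs ≤ Z.orbs := by
  haveI := Z.orbs_finite hF
  have h1 := Orb_map_surj (H := H) (X := Z.V) (Y := (Z.quo R hR hi).V)
    (fun x => (Z.quoMor R hR hi).f x) (Z.quoMor_smul R hR hi)
    (by
      intro q
      induction q using Quotient.ind with
      | _ a => exact ⟨a, rfl⟩)
  exact Nat.card_le_card_of_surjective _ h1

theorem orbs_lt (hF : Z.HFin) (R R' : Setoid Z.V) (hR : Z.Cong R) (hi : Z.Inv R)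
    (hR' : Z.Cong R') (hi' : Z.Inv R') (hle : R' ≤ R) (x y : Z.V) (hxy : R x y)
    (hxy' : ¬ R' x y) : (Z.quo R hR hi).orbs < (Z.quo R' hR' hi').orbs := by
  haveI := (Z.quo R' hR' hi').orbs_finite (Z.quo_HFin hF R' hR' hi')
  let g : (Z.quo R' hR' hi').V → (Z.quo R hR hi).V := Quotient.map id fun a b h => hle h
  have hg : ∀ (h : H) (a : (Z.quo R' hR' hi').V), g (h • a) = h • g a := by
    intro h a
    induction a using Quotient.ind with
    | _ a => rfl
  have hs : Function.Surjective g := by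
    intro q
    induction q using Quotient.ind with
    | _ a => exact ⟨Quotient.mk R' a, rfl⟩
  have h1 := Orb_map_surj g hg hs
  by_contra hcon
  rw [not_lt] at hcon
  have h2 := (Function.Surjective.bijective_of_nat_card_le h1 hcon).1
  have h3 : Orb_map g hg (Quotient.mk'' (Quotient.mk R' x : (Z.quo R' hR' hi').V)) =
      Orb_map g hg (Quotient.mk'' (Quotient.mk R' y : (Z.quo R' hR' hi').V)) := by
    have h4 : g (Quotient.mk R' x : (Z.quo R' hR' hi').V) =
        g (Quotient.mk R' y : (Z.quo R' hR' hi').V) :=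
      Quotient.sound (s := R) hxy
    show (Quotient.mk'' (g _) : MulAction.orbitRel.Quotient H _) = Quotient.mk'' (g _)
    rw [h4]
  have h5 := Quotient.exact' (h2 h3)
  obtain ⟨h, hh⟩ := h5
  have h6 : h • (Z.quoMor R' hR' hi').f y = (Z.quoMor R' hR' hi').f x := hh
  have h7 : (Z.quoMor R' hR' hi').f (h • y) = (Z.quoMor R' hR' hi').f x :=
    (Z.quoMor_smul R' hR' hi' h y).trans h6
  have h8 : R' (h • y) x := Quotient.exact (s := R') h7
  have h9 : h • Z.p y = Z.p y := by
    rw [← Z.p_smul, hR'.fib h8, hR.fib hxy]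
  have h10 := B.free _ _ h9
  rw [h10, one_smul] at h8
  exact hxy' (R'.symm h8)

theorem tow_stable (hF : Z.HFin) : ∃ n, Z.tow (n + 1) = Z.tow n := by
  by_contra hcon
  rw [not_exists] at hcon
  have h1 : ∀ n, (Z.Yn n).orbs < (Z.Yn (n + 1)).orbs := by
    intro n
    have h2 : ¬ Z.tow n ≤ Z.tow (n + 1) := fun h => hcon n (le_antisymm (Z.tow_le n) h)
    have h3 : ∃ x y, Z.tow n x y ∧ ¬ Z.tow (n + 1) x y := by
      by_contra h4
      refine h2 fun {x y} hx => ?_
      by_contra h5
      exact h4 ⟨x, y, hx, h5⟩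
    obtain ⟨x, y, hx, hy⟩ := h3
    exact Z.orbs_lt hF (Z.tow n) (Z.tow (n + 1)) (Z.tow_cong n) (Z.tow_inv n)
      (Z.tow_cong (n + 1)) (Z.tow_inv (n + 1)) (Z.tow_le n) x y hx hy
  have h2 : ∀ n, n ≤ (Z.Yn n).orbs := by
    intro n
    induction n with
    | zero => exact Nat.zero_le _
    | succ n ih => exact Nat.succ_le_of_lt (lt_of_le_of_lt ih (h1 n))
  have h3 := h2 (Z.orbs + 1)
  have h4 : (Z.Yn (Z.orbs + 1)).orbs ≤ Z.orbs := Z.orbs_quo_le hF _ _ _
  omega

theorem eq_bot_of_orbs (hF : Z.HFin) (R : Setoid Z.V) (hR : Z.Cong R) (hi : Z.Inv R)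
    (h : Z.orbs ≤ (Z.quo R hR hi).orbs) (x y : Z.V) (hxy : R x y) : x = y := by
  by_contra hne
  have hR' : Z.Cong (⊥ : Setoid Z.V) := by
    refine ⟨?_, ?_, ?_⟩
    · intro a b hab
      have : a = b := hab
      rw [this]
    · intro a e b a' b' h1 h2 h3
      have h4 : a = a' := h3
      subst h4
      exact (Z.fun_r h1 h2 : b = b')
    · intro a e b a' b' h1 h2 h3
      have h4 : b = b' := h3
      subst h4
      exact (Z.fun_l h1 h2 : a = a')
  have hi' : Z.Inv (⊥ : Setoid Z.V) := by
    intro g a b hab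
    have h4 : a = b := hab
    subst h4
    exact Setoid.refl' _ _
  have h1 := Z.orbs_lt hF R ⊥ hR hi hR' hi' bot_le x y hxy hne
  have h2 := Z.orbs_quo_le hF ⊥ hR' hi'
  omega

end HIm

end Pool.Agent.H60.CI
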