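import Pool.Agent.H60.CI.Good

/-!
# Row Hz: cochain form and homology form of `H_1 = 0`

* `wsum_eq_integ`: `wsum w l = integ w l` (`sgnb true = 1`, `sgnb false = -1`).
* `H1z_of_H1Zero`: let `L1 z = 0` and suppose `z ∉ range L2`.  There is a linear form `φ` on `Y.E →₀ ℚ` which
  vanishes on `range L2` and not at `z` (`Submodule.exists_le_ker_of_notMem` or
  `Module.Dual` separation in the quotient).  `w ε = φ (single ε 1)` satisfies
  `wsum w (bd τ) = φ (wch (bd τ)) = φ (L2 (single τ 1)) = 0`, so `w ε = ψ (tgt ε) - ψ (src ε)`, i.e. `φ = Ψ ∘ L1`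
  with `Ψ = linearCombination ψ`; `φ z = Ψ (L1 z) = 0`, contradiction.
* `H1Zero_of_LolliSC`: let `w` be a cocycle of `B`, `v0` a vertex.  Put `ψ y = wsum w p` for a chosen walk `p` from
  `v0` to `y`.  Independence of the walk: for a closed walk `c` at `v0`, `FreeGroup.mk c` is a product of
  lollipops; the homomorphism `FreeGroup E → Multiplicative ℚ`, `ε ↦ w ε`, sends `mk c` to `wsum w c` and
  every lollipop to 0 (`wsum w (bd σ) = 0`).  So `wsum w c = 0`.  Then for an edge `ε`: walk to `src ε`,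
  followed by `ε`, followed by the inverse of the walk to `tgt ε` is closed.
* `H1z_of_LolliSC`: combine.
-/

noncomputable section

namespace Pool.Agent.H60.CI

open Finsupp

theorem wsum_eq_integ {E : Type} (w : E → ℚ) (l : List (E × Bool)) :
    wsum w l = Cpx.integ w l := by
  unfold wsum Cpx.integ
  congr 1
  refine List.map_congr_left fun a _ => ?_
  rcases a with ⟨e, b⟩
  cases b <;> simp [sgnb]

theorem H1z_of_H1Zero {Y : Cpx} (h : Y.H1Zero) : Y.H1z := by
  intro z hz
  by_contra hne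
  have hne' : z ∉ LinearMap.range Y.L2 := fun ⟨c, hc⟩ => hne ⟨c, hc⟩
  obtain ⟨φ, hφ, hφ0⟩ := Submodule.exists_le_ker_of_notMem hne'
  have h1 : ∀ x, φ x = Finsupp.linearCombination ℚ (fun ε => φ (single ε 1)) x := by
    intro x
    conv_lhs => rw [← Finsupp.sum_single x]
    rw [Finsupp.sum, map_sum, Finsupp.linearCombination_apply, Finsupp.sum]
    refine Finset.sum_congr rfl fun ε _ => ?_
    rw [← map_smul, Finsupp.smul_single, smul_eq_mul, mul_one]
  obtain ⟨ψ, hψ⟩ := h (fun ε => φ (single ε 1)) (by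
    intro τ
    rw [← wsum_eq_integ, ← linearCombination_wch, ← h1]
    have h2 : Y.L2 (single τ 1) = wch (Y.bd τ) := by
      rw [Cpx.L2, Finsupp.linearCombination_single, one_smul]
      rfl
    rw [← h2]
    exact hφ0 ⟨_, rfl⟩)
  apply hφ
  have h3 : ∀ x, φ x = Finsupp.linearCombination ℚ ψ (Y.L1 x) := by
    intro x
    induction x using Finsupp.induction_linear with
    | zero => simp
    | add f g hf hg => simp [hf, hg]
    | single ε r =>
      rw [h1, Cpx.L1, Finsupp.linearCombination_single, Finsupp.linearCombination_single,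
        map_smul]
      congr 1
      rw [Cpx.d1, map_sub, Finsupp.linearCombination_single, Finsupp.linearCombination_single,
        one_smul, one_smul]
      exact hψ ε
  rw [h3, hz, map_zero]

/-- the homomorphism `FreeGroup E → ℚ` -/
def Hz_hom {E : Type} (w : E → ℚ) : FreeGroup E →* Multiplicative ℚ :=
  FreeGroup.lift fun e => Multiplicative.ofAdd (w e)

theorem Hz_hom_mk {E : Type} (w : E → ℚ) (l : List (E × Bool)) :
    Hz_hom w (FreeGroup.mk l) = Multiplicative.ofAdd (Cpx.integ w l) := by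
  induction l with
  | nil => rfl
  | cons a l ih =>
    have h1 : FreeGroup.mk (a :: l) = FreeGroup.mk [a] * FreeGroup.mk l := by
      rw [FreeGroup.mul_mk]
      rfl
    rw [h1, map_mul, ih, Cpx.integ_cons, ofAdd_add]
    congr 1
    rcases a with ⟨e, b⟩
    cases b
    · simp [Hz_hom, FreeGroup.lift_mk]
    · simp [Hz_hom, FreeGroup.lift_mk]

theorem Hz_lolli {B : Cpx} {w : B.E → ℚ} (hw : ∀ τ, Cpx.integ w (B.bd τ) = 0)
    (t : List (B.E × Bool) × B.F × Bool) : Hz_hom w (B.lolli t) = 1 := by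
  have h0 : Hz_hom w (FreeGroup.mk (B.bd t.2.1)) = 1 := by
    rw [Hz_hom_mk, hw]
    rfl
  have h1 : Hz_hom w (if t.2.2 then FreeGroup.mk (B.bd t.2.1)
      else (FreeGroup.mk (B.bd t.2.1))⁻¹) = 1 := by
    split_ifs
    · exact h0
    · rw [map_inv, h0, inv_one]
  rw [Cpx.lolli, map_mul, map_mul, h1, map_inv, mul_one, mul_inv_cancel]

theorem H1Zero_of_LolliSC {B : Cpx} (hC : B.Conn) (hSC : B.LolliSC) : B.H1Zero := by
  intro w hw
  obtain ⟨⟨v0⟩, hconn⟩ := hC
  choose p hp using hconn v0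
  have hclosed : ∀ l, B.Walk v0 l v0 → Cpx.integ w l = 0 := by
    intro l hl
    obtain ⟨L, _, hL⟩ := hSC v0 l hl
    have h1 : Hz_hom w (FreeGroup.mk l) = 1 := by
      rw [hL, map_list_prod, List.map_map]
      apply List.prod_eq_one
      intro x hx
      obtain ⟨t, _, rfl⟩ := List.mem_map.1 hx
      exact Hz_lolli hw t
    rw [Hz_hom_mk] at h1
    exact Multiplicative.ofAdd.injective h1
  have hinv : ∀ l : List (B.E × Bool), Cpx.integ w (FreeGroup.invRev l) = - Cpx.integ w l := by
    intro l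
    apply Multiplicative.ofAdd.injective
    rw [← Hz_hom_mk, ← FreeGroup.inv_mk, map_inv, Hz_hom_mk]
    rfl
  refine ⟨fun y => Cpx.integ w (p y), fun ε => ?_⟩
  have h1 : B.Walk v0 (p (B.src ε) ++ ((ε, true) :: FreeGroup.invRev (p (B.tgt ε)))) v0 := by
    refine isWalk_append.2 ⟨_, hp (B.src ε), ?_⟩
    exact ⟨rfl, isWalk_invRev (hp (B.tgt ε))⟩
  have h2 := hclosed _ h1
  rw [Cpx.integ_append, Cpx.integ_cons, hinv] at h2
  simp only [if_true] at h2
  linarith

theorem H1z_of_LolliSC {B : Cpx} (hC : B.Conn) (hSC : B.LolliSC) : B.H1z :=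
  H1z_of_H1Zero (H1Zero_of_LolliSC hC hSC)

end Pool.Agent.H60.CI
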