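import Pool.Agent.H60.CI.EqF

/-!
# Row EqB: exchanging the two variables of an equivariant function

An element of `EqF (PT ρ S) T` is an equivariant function `T → (S →₀ ℚ) ⊗ N`, i.e. an equivariant
function of two variables; `swap` exchanges the variables:
`swap (sg t (single s 1 ⊗ n)) = sg s (single t 1 ⊗ n)`.

Proofs.
* `swap_aux` (well defined): it suffices (linearity; `TensorProduct.induction_on`,
  `Finsupp.induction_linear`) to check `single s r ⊗ n`:
  `L (h • t) (single (h • s) r ⊗ ρ h n) = r • sg (h • s) (single (h • t) 1 ⊗ ρ h n)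
     = r • sg (h • s) (PT ρ T h (single t 1 ⊗ n)) = r • sg s (single t 1 ⊗ n)` by `sg_smul`.
* `swap_sg`: unfold.  `swap_swap`: `hom_ext`, then tensor/finsupp extensionality.
* `swap_mat`: both sides linear in `c`; check `c = sg t (single s 1 ⊗ n)`:
  `mat D c = Σ_{t'} D t t' • sg t' (single s 1 ⊗ n)`, swap gives `Σ D t t' • sg s (single t' 1 ⊗ n)
   = sg s ((D t) ⊗ n)`, and `mapc (lin D ⊗ id) (sg s (single t 1 ⊗ n)) = sg s (lin D (single t 1) ⊗ n)`.
* `swap_mapc` follows from `swap_mat` and `swap_swap`.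
-/

noncomputable section

namespace Pool.Agent.H60.CI

open Finsupp TensorProduct

variable {H : Type} [Group H]
variable {N : Type} [AddCommGroup N] [Module ℚ N] (ρ : Representation ℚ H N)

/-- the representation `(S →₀ ℚ) ⊗ N` -/
abbrev PT (S : Type) [MulAction H S] : Representation ℚ H ((S →₀ ℚ) ⊗[ℚ] N) :=
  (perm H S).tprod ρ

namespace EqF

variable (S T : Type) [MulAction H S] [MulAction H T]

/-- the local formula for `swap` -/
def swapL (t : T) : (S →₀ ℚ) ⊗[ℚ] N →ₗ[ℚ] EqF (PT ρ T) S :=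
  TensorProduct.lift (Finsupp.linearCombination ℚ
    (fun s : S => (sg (PT ρ T) s) ∘ₗ (TensorProduct.mk ℚ (T →₀ ℚ) N (single t 1))))

theorem EqB_PT_tmul {S : Type} [MulAction H S] (h : H) (f : S →₀ ℚ) (n : N) :
    PT ρ S h (f ⊗ₜ[ℚ] n) = (perm H S h f) ⊗ₜ[ℚ] (ρ h n) := rfl

theorem swapL_single (t : T) (s : S) (r : ℚ) (n : N) :
    swapL ρ S T t (single s r ⊗ₜ[ℚ] n) = r • sg (PT ρ T) s (single t 1 ⊗ₜ[ℚ] n) := by
  unfold swapL
  rw [TensorProduct.lift.tmul, Finsupp.linearCombination_single]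
  rfl

theorem swap_aux (h : H) (t : T) (n : (S →₀ ℚ) ⊗[ℚ] N) :
    swapL ρ S T (h • t) (PT ρ S h n) = swapL ρ S T t n := by
  induction n using TensorProduct.induction_on with
  | zero => simp
  | add x y hx hy => rw [map_add, map_add, hx, hy, map_add]
  | tmul f n =>
    induction f using Finsupp.induction_linear with
    | zero => simp
    | add f g hf hg =>
      rw [TensorProduct.add_tmul, map_add, map_add, hf, hg, map_add]
    | single s r =>
      rw [EqB_PT_tmul, perm_single, swapL_single, swapL_single]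
      congr 1
      have h1 := sg_smul (PT ρ T) h s (single t 1 ⊗ₜ[ℚ] n)
      rw [EqB_PT_tmul, perm_single] at h1
      exact h1

/-- exchanging the two variables -/
def swap : EqF (PT ρ S) T →ₗ[ℚ] EqF (PT ρ T) S :=
  lift (PT ρ S) (swapL ρ S T) (swap_aux ρ S T)

variable {S T}

theorem swap_sg (t : T) (s : S) (n : N) :
    swap ρ S T (sg (PT ρ S) t (single s 1 ⊗ₜ n)) = sg (PT ρ T) s (single t 1 ⊗ₜ n) := by
  unfold swap
  rw [lift_sg, swapL_single, one_smul]

theorem EqB_ext {W : Type} [AddCommGroup W] [Module ℚ W] {f g : EqF (PT ρ S) T →ₗ[ℚ] W}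
    (h : ∀ t s n, f (sg (PT ρ S) t (single s 1 ⊗ₜ[ℚ] n)) = g (sg (PT ρ S) t (single s 1 ⊗ₜ[ℚ] n))) :
    f = g := by
  apply hom_ext
  intro t x
  induction x using TensorProduct.induction_on with
  | zero => simp
  | add x y hx hy => rw [map_add, map_add, map_add, hx, hy]
  | tmul z n =>
    induction z using Finsupp.induction_linear with
    | zero => simp
    | add a b ha hb => rw [TensorProduct.add_tmul, map_add, map_add, map_add, ha, hb]
    | single s r =>
      have h1 : (single s r : S →₀ ℚ) = r • single s 1 := by simp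
      rw [h1, ← TensorProduct.smul_tmul', map_smul, map_smul, map_smul, h]

theorem swap_swap (c : EqF (PT ρ S) T) : swap ρ T S (swap ρ S T c) = c := by
  have h : (swap ρ T S) ∘ₗ (swap ρ S T) = LinearMap.id := by
    apply EqB_ext
    intro t s n
    rw [LinearMap.comp_apply, swap_sg, swap_sg, LinearMap.id_apply]
  exact LinearMap.congr_fun h c

/-- the linear map of a matrix -/
def lin {T T' : Type} (D : T → (T' →₀ ℚ)) : (T →₀ ℚ) →ₗ[ℚ] (T' →₀ ℚ) :=
  Finsupp.linearCombination ℚ D

@[simp] theorem lin_single {T T' : Type} (D : T → (T' →₀ ℚ)) (t : T) (r : ℚ) :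
    lin D (single t r) = r • D t := by
  simp [lin]

theorem lin_equiv {T' : Type} [MulAction H T'] (D : T → (T' →₀ ℚ))
    (hD : ∀ (h : H) (t : T), D (h • t) = (D t).mapDomain (h • ·)) (h : H) (z : T →₀ ℚ) :
    lin D (perm H T h z) = perm H T' h (lin D z) := by
  induction z using Finsupp.induction_linear with
  | zero => simp
  | add f g hf hg => rw [map_add, map_add, hf, hg, map_add, map_add]
  | single t r => rw [perm_single, lin_single, lin_single, map_smul, hD]; rfl

theorem lin_rTensor_equiv {T' : Type} [MulAction H T'] (D : T → (T' →₀ ℚ))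
    (hD : ∀ (h : H) (t : T), D (h • t) = (D t).mapDomain (h • ·)) (h : H)
    (z : (T →₀ ℚ) ⊗[ℚ] N) :
    (lin D).rTensor N (PT ρ T h z) = PT ρ T' h ((lin D).rTensor N z) := by
  induction z using TensorProduct.induction_on with
  | zero => simp
  | add x y hx hy => rw [map_add, map_add, hx, hy, map_add, map_add]
  | tmul f n =>
    rw [EqB_PT_tmul, LinearMap.rTensor_tmul, LinearMap.rTensor_tmul, EqB_PT_tmul,
      lin_equiv D hD]

theorem EqB_lin_sum {T' W : Type} [AddCommGroup W] [Module ℚ W] (K : (T' →₀ ℚ) →ₗ[ℚ] W)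
    (z : T' →₀ ℚ) : K z = z.sum fun t' r => r • K (single t' 1) := by
  have h : K = Finsupp.linearCombination ℚ fun t' => K (single t' 1) := by
    ext t'
    simp
  conv_lhs => rw [h]
  rfl

theorem swap_mat {T' : Type} [MulAction H T'] (D : T → (T' →₀ ℚ))
    (hD : ∀ (h : H) (t : T), D (h • t) = (D t).mapDomain (h • ·)) (c : EqF (PT ρ S) T) :
    swap ρ S T' (mat (PT ρ S) D hD c)
      = mapc (PT ρ T) (PT ρ T') ((lin D).rTensor N) (lin_rTensor_equiv ρ D hD)
          (swap ρ S T c) := by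
  have h : (swap ρ S T') ∘ₗ (mat (PT ρ S) D hD) =
      (mapc (PT ρ T) (PT ρ T') ((lin D).rTensor N) (lin_rTensor_equiv ρ D hD)) ∘ₗ
        (swap ρ S T) := by
    apply EqB_ext
    intro t s n
    rw [LinearMap.comp_apply, LinearMap.comp_apply, swap_sg, mapc_sg, mat_sg,
      LinearMap.rTensor_tmul, lin_single, one_smul]
    have h1 := EqB_lin_sum ((sg (PT ρ T') s) ∘ₗ ((TensorProduct.mk ℚ (T' →₀ ℚ) N).flip n)) (D t)
    have h2 : ((sg (PT ρ T') s) ∘ₗ ((TensorProduct.mk ℚ (T' →₀ ℚ) N).flip n)) (D t) =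
        sg (PT ρ T') s (D t ⊗ₜ[ℚ] n) := rfl
    rw [← h2, h1]
    unfold Finsupp.sum
    rw [map_sum]
    refine Finset.sum_congr rfl fun t' _ => ?_
    rw [map_smul, swap_sg]
    rfl
  exact LinearMap.congr_fun h c

theorem swap_mapc {T' : Type} [MulAction H T'] (D : T → (T' →₀ ℚ))
    (hD : ∀ (h : H) (t : T), D (h • t) = (D t).mapDomain (h • ·)) (c : EqF (PT ρ T) S) :
    swap ρ T' S (mapc (PT ρ T) (PT ρ T') ((lin D).rTensor N) (lin_rTensor_equiv ρ D hD) c)
      = mat (PT ρ S) D hD (swap ρ T S c) := by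
  have h1 := swap_mat ρ D hD (swap ρ T S c)
  rw [swap_swap] at h1
  rw [← h1, swap_swap]

end EqF

end Pool.Agent.H60.CI
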