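import Pool.Agent.H60.CI.Hcx
import Pool.Agent.H60.CI.EqB

/-!
# Row CcA: tensoring the chain complexes with a vector space; `∂∂ = 0` on equivariant chains

Everything is over the field `ℚ`, so tensoring with `N` is exact (`Module.Flat`).
* `rT_exact1`: `H1z B` says that `(B.F →₀ ℚ) → (B.E →₀ ℚ) → (B.V →₀ ℚ)` is exact at the
  middle (use `L1_L2` for the other inclusion): `Function.Exact B.L2 B.L1`; then
  `Module.Flat.rTensor_exact`.
* `rT_inj2`: `H2z B` says that `B.L2` is injective; `Module.Flat.rTensor_preserves_injective_linearMap`.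
* `piQ_surj`: `Submodule.mkQ` is surjective, `LinearMap.rTensor_surjective`.
* `piQ_exact`: `Function.Exact Y.L2 (mkQ (range L2))` and right exactness `rTensor_exact`.
* `piQ_equiv`, `piQ_L2`: check on pure tensors (`TensorProduct.induction_on`).
* `B1_B2`: `hom_ext`; `B1 (B2 (sg σ n)) = Σ_{a ∈ bd σ} ±(sg (tgt a) n - sg (src a) n)`; for a walk `w`
  from `x` to `y` the sum is `sg y n - sg x n` (induction on `w`), and `bd σ` is closed.
-/

noncomputable section

namespace Pool.Agent.H60.CI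

open Finsupp TensorProduct

variable {H : Type} [Group H]
variable {N : Type} [AddCommGroup N] [Module ℚ N] (ρ : Representation ℚ H N)

theorem CcA_exact (B : Cpx) (hB : B.H1z) : Function.Exact B.L2 B.L1 := by
  intro z
  constructor
  · intro h
    exact hB z h
  · rintro ⟨c, rfl⟩
    exact B.L1_L2 c

theorem rT_exact1 (B : Cpx) (hB : B.H1z) (z : (B.E →₀ ℚ) ⊗[ℚ] N)
    (hz : (B.L1).rTensor N z = 0) : ∃ c, (B.L2).rTensor N c = z :=
  (Module.Flat.rTensor_exact N (CcA_exact B hB) z).1 hz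

theorem rT_inj2 (B : Cpx) (hB : B.H2z) : Function.Injective ((B.L2).rTensor N) := by
  apply Module.Flat.rTensor_preserves_injective_linearMap
  exact (injective_iff_map_eq_zero _).2 hB

/-- the projection `C_1(Y) ⊗ N → (C_1(Y) / ∂ C_2(Y)) ⊗ N` -/
def piQ (Y : HCpx H) (N : Type) [AddCommGroup N] [Module ℚ N] :
    (Y.E →₀ ℚ) ⊗[ℚ] N →ₗ[ℚ] (EE Y) ⊗[ℚ] N :=
  (LinearMap.range Y.L2).mkQ.rTensor N

theorem piQ_surj (Y : HCpx H) : Function.Surjective (piQ Y N) :=
  LinearMap.rTensor_surjective N (Submodule.mkQ_surjective _)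

theorem CcA_exact2 (Y : HCpx H) : Function.Exact Y.L2 (LinearMap.range Y.L2).mkQ := by
  intro z
  rw [Submodule.mkQ_apply, Submodule.Quotient.mk_eq_zero]
  rfl

theorem piQ_exact (Y : HCpx H) (z : (Y.E →₀ ℚ) ⊗[ℚ] N) (hz : piQ Y N z = 0) :
    ∃ c, (Y.L2).rTensor N c = z :=
  (rTensor_exact N (CcA_exact2 Y) (Submodule.mkQ_surjective _) z).1 hz

theorem piQ_L2 (Y : HCpx H) (c : (Y.F →₀ ℚ) ⊗[ℚ] N) : piQ Y N ((Y.L2).rTensor N c) = 0 :=
  (rTensor_exact N (CcA_exact2 Y) (Submodule.mkQ_surjective _) _).2 ⟨c, rfl⟩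

theorem piQ_equiv (Y : HCpx H) (h : H) (z : (Y.E →₀ ℚ) ⊗[ℚ] N) :
    piQ Y N (PT ρ Y.E h z) = ((qE Y).tprod ρ) h (piQ Y N z) := by
  induction z using TensorProduct.induction_on with
  | zero => simp
  | add x y hx hy => rw [map_add, map_add, hx, hy, map_add, map_add]
  | tmul f n => rfl

theorem CcA_walk (Y : HCpx H) (n : N) {x y : Y.V} {w : List (Y.E × Bool)} (h : Y.Walk x w y) :
    Y.B1 ρ ((w.map fun a => sgnb a.2 • EqF.sg ρ a.1 n).sum) = EqF.sg ρ y n - EqF.sg ρ x n := by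
  induction w generalizing x with
  | nil =>
    cases h
    simp
  | cons a w ih =>
    obtain ⟨h1, h2⟩ := h
    rw [List.map_cons, List.sum_cons, map_add, ih h2, map_smul, HCpx.B1_sg, ← h1]
    rcases a with ⟨e, b⟩
    cases b
    · simp [sgnb, oS, oT]
    · simp [sgnb, oS, oT]

theorem B1_B2 (Y : HCpx H) (c : EqF ρ Y.F) : Y.B1 ρ (Y.B2 ρ c) = 0 := by
  have h : (Y.B1 ρ) ∘ₗ (Y.B2 ρ) = 0 := by
    apply EqF.hom_ext
    intro σ n
    rw [LinearMap.comp_apply, HCpx.B2_sg, CcA_walk ρ Y n (Y.bd_walk σ), sub_self, LinearMap.zero_apply]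
  exact LinearMap.congr_fun h c

end Pool.Agent.H60.CI
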