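import Pool.Agent.H60.CI.EqF

/-!
# Row EqA: API of `EqF` (evaluation, decomposition, exactness in the coefficients)

All statements: `EqF ρ T = (T →₀ N) / ⟨(h • t, ρ h n) - (t, n)⟩`, `sg ρ t n` = class of `(t, n)`,
`ev ρ t` = evaluation (for free actions), `ev ρ t (sg ρ s n) = ρ g n` if `g • s = t`, `= 0` if `t`
is not in the orbit of `s` (`ev_sg`, `ev_sg_of_not`).

Proofs.
* `ev_smul`: both sides are linear in `c`, so by `hom_ext` take `c = sg s n`.  If `g • s = t` then
  `(h * g) • s = h • t`; if `t` is not in the orbit of `s` neither is `h • t`.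
* `decomp`: induction over `c` (`Submodule.mkQ_surjective`, `Finsupp.induction_linear`, or better:
  write `c = Σ_{t ∈ A} sg t (z t)` with `A` finite, choose a representative of each orbit
  meeting `A` (for instance with `Quotient.out` of `MulAction.orbitRel.Quotient H T`), move every
  term to the representative with `sg_smul`, and read off the coefficient with `ev`.)
  Possible clean way: let `r t := (⟦t⟧ : orbitRel.Quotient H T).out`; every `c` is `Σ` over a
  finite set of orbits `o` of `sg o.out (m o)`; then `ev o.out c = m o` because different orbits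
  do not interact.
* `ext`: from `decomp`, all `ev ρ s c = 0`.
* `mapc_injective`: `ev ρ' t (mapc c) = f (ev ρ t c)` (`ev_mapc`) and `ext`.
* `mapc_exact`: `c = Σ_{s ∈ S} sg s (ev s c)`, `g (ev s c) = ev s (mapc g c) = 0`, choose `m s` with
  `f (m s) = ev s c`, take `c' = Σ sg s (m s)`.
* `mapc_surjective`: every `c` is a finite sum of `sg t n`.
-/

noncomputable section

namespace Pool.Agent.H60.CI.EqF

open Finsupp

variable {H : Type} [Group H]
variable {N : Type} [AddCommGroup N] [Module ℚ N] (ρ : Representation ℚ H N)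
variable {T : Type} [MulAction H T]

theorem induction_sg {P : EqF ρ T → Prop} (c : EqF ρ T) (h0 : P 0)
    (hadd : ∀ c d, P c → P d → P (c + d)) (hs : ∀ t n, P (sg ρ t n)) : P c := by
  obtain ⟨z, rfl⟩ := (eqRel ρ T).mkQ_surjective c
  induction z using Finsupp.induction_linear with
  | zero =>
    rw [map_zero]
    exact h0
  | add f g hf hg =>
    rw [map_add]
    exact hadd _ _ hf hg
  | single t n => exact hs t n

theorem ev_smul [FreeAct H T] (h : H) (t : T) (c : EqF ρ T) :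
    ev ρ (h • t) c = ρ h (ev ρ t c) := by
  induction c using induction_sg with
  | h0 => simp
  | hadd c d hc hd => rw [map_add, map_add, map_add, hc, hd]
  | hs s n =>
    by_cases hg : ∃ g : H, g • s = t
    · obtain ⟨g, hg⟩ := hg
      rw [ev_sg ρ hg, ev_sg ρ (g := h * g) (by rw [mul_smul, hg]), map_mul]
      rfl
    · rw [ev_sg_of_not ρ (fun g hg' => hg ⟨g, hg'⟩), ev_sg_of_not ρ (fun g hg' => hg ⟨h⁻¹ * g, by
        rw [mul_smul, hg', inv_smul_smul]⟩), map_zero]

/-- canonical representative of the orbit -/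
def EqA_r (H : Type) {T : Type} [Group H] [MulAction H T] (t : T) : T :=
  (Quotient.mk (MulAction.orbitRel H T) t).out

theorem EqA_r_mem (t : T) : ∃ g : H, g • t = EqA_r H t := by
  have h : (MulAction.orbitRel H T) (EqA_r H t) t :=
    Quotient.exact (Quotient.out_eq (Quotient.mk (MulAction.orbitRel H T) t))
  obtain ⟨g, hg⟩ := MulAction.orbitRel_apply.1 h
  exact ⟨g, hg⟩

theorem EqA_r_smul (h : H) (t : T) : EqA_r H (h • t) = EqA_r H t := by
  unfold EqA_r
  congr 1
  apply Quotient.sound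
  exact MulAction.orbitRel_apply.2 ⟨h, rfl⟩

theorem EqA_decomp [FreeAct H T] (c : EqF ρ T) : ∃ A : Finset T, (∀ a ∈ A, EqA_r H a = a) ∧
    ∀ A' : Finset T, A ⊆ A' → (∀ a ∈ A', EqA_r H a = a) → c = ∑ s ∈ A', sg ρ s (ev ρ s c) := by
  classical
  induction c using induction_sg with
  | h0 => exact ⟨∅, by simp, fun A' _ _ => by simp⟩
  | hadd c d hc hd =>
    obtain ⟨A, hA1, hA2⟩ := hc
    obtain ⟨B, hB1, hB2⟩ := hd
    refine ⟨A ∪ B, ?_, ?_⟩
    · intro a ha
      rcases Finset.mem_union.1 ha with h | h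
      · exact hA1 a h
      · exact hB1 a h
    · intro A' h1 h2
      have e1 := hA2 A' (Finset.subset_union_left.trans h1) h2
      have e2 := hB2 A' (Finset.subset_union_right.trans h1) h2
      conv_lhs => rw [e1, e2]
      rw [← Finset.sum_add_distrib]
      exact Finset.sum_congr rfl fun s _ => by rw [map_add, map_add]
  | hs t n =>
    obtain ⟨g, hg⟩ := EqA_r_mem (H := H) t
    refine ⟨{EqA_r H t}, ?_, ?_⟩
    · intro a ha
      rw [Finset.mem_singleton] at ha
      subst ha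
      rw [← hg, EqA_r_smul, hg]
    · intro A' h1 h2
      rw [Finset.sum_eq_single (EqA_r H t)]
      · rw [ev_sg ρ hg]
        conv_rhs => rw [← hg]
        rw [sg_smul]
      · intro a ha hne
        rw [ev_sg_of_not ρ ?_, map_zero]
        intro g' hg'
        apply hne
        rw [← h2 a ha, ← hg', EqA_r_smul]
      · intro h3
        exact absurd (h1 (Finset.mem_singleton_self _)) h3

theorem decomp [FreeAct H T] (c : EqF ρ T) : ∃ S : Finset T,
    (∀ s ∈ S, ∀ s' ∈ S, (∃ h : H, h • s = s') → s = s') ∧ c = ∑ s ∈ S, sg ρ s (ev ρ s c) := by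
  obtain ⟨A, hA1, hA2⟩ := EqA_decomp ρ c
  refine ⟨A, ?_, hA2 A (Finset.Subset.refl A) hA1⟩
  rintro s hs s' hs' ⟨h, hh⟩
  rw [← hA1 s hs, ← hA1 s' hs', ← hh, EqA_r_smul]

theorem ext [FreeAct H T] {c : EqF ρ T} (hc : ∀ t, ev ρ t c = 0) : c = 0 := by
  obtain ⟨S, -, hS⟩ := decomp ρ c
  rw [hS]
  exact Finset.sum_eq_zero fun s _ => by rw [hc, map_zero]

theorem ev_mapc [FreeAct H T] {N' : Type} [AddCommGroup N'] [Module ℚ N']
    (ρ' : Representation ℚ H N') (f : N →ₗ[ℚ] N') (hf : ∀ h n, f (ρ h n) = ρ' h (f n)) (t : T)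
    (c : EqF ρ T) : ev ρ' t (mapc ρ ρ' f hf c) = f (ev ρ t c) := by
  induction c using induction_sg with
  | h0 => simp
  | hadd c d hc hd => rw [map_add, map_add, map_add, map_add, hc, hd]
  | hs s n =>
    rw [mapc_sg]
    by_cases hg : ∃ g : H, g • s = t
    · obtain ⟨g, hg⟩ := hg
      rw [ev_sg ρ' hg, ev_sg ρ hg, hf]
    · rw [ev_sg_of_not ρ (fun g hg' => hg ⟨g, hg'⟩), ev_sg_of_not ρ' (fun g hg' => hg ⟨g, hg'⟩),
        map_zero]

theorem mapc_injective [FreeAct H T] {N' : Type} [AddCommGroup N'] [Module ℚ N']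
    (ρ' : Representation ℚ H N') (f : N →ₗ[ℚ] N') (hf : ∀ h n, f (ρ h n) = ρ' h (f n))
    (hinj : Function.Injective f) : Function.Injective (mapc (T := T) ρ ρ' f hf) := by
  rw [injective_iff_map_eq_zero]
  intro c hc
  apply ext
  intro t
  apply hinj
  rw [map_zero, ← ev_mapc ρ ρ' f hf, hc, map_zero]

theorem mapc_surjective {N' : Type} [AddCommGroup N'] [Module ℚ N']
    (ρ' : Representation ℚ H N') (f : N →ₗ[ℚ] N') (hf : ∀ h n, f (ρ h n) = ρ' h (f n))
    (hsur : Function.Surjective f) : Function.Surjective (mapc (T := T) ρ ρ' f hf) := by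
  intro c
  induction c using induction_sg with
  | h0 => exact ⟨0, map_zero _⟩
  | hadd c d hc hd =>
    obtain ⟨c', hc⟩ := hc
    obtain ⟨d', hd⟩ := hd
    exact ⟨c' + d', by rw [map_add, hc, hd]⟩
  | hs t n =>
    obtain ⟨m, rfl⟩ := hsur n
    exact ⟨sg ρ t m, mapc_sg ρ ρ' f hf t m⟩

theorem mapc_exact [FreeAct H T] {N₁ N₃ : Type} [AddCommGroup N₁] [Module ℚ N₁]
    [AddCommGroup N₃] [Module ℚ N₃] (ρ₁ : Representation ℚ H N₁) (ρ₃ : Representation ℚ H N₃)
    (f : N₁ →ₗ[ℚ] N) (hf : ∀ h n, f (ρ₁ h n) = ρ h (f n))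
    (g : N →ₗ[ℚ] N₃) (hg : ∀ h n, g (ρ h n) = ρ₃ h (g n))
    (hex : ∀ n, g n = 0 → ∃ m, f m = n) (c : EqF ρ T) (hc : mapc ρ ρ₃ g hg c = 0) :
    ∃ c' : EqF ρ₁ T, mapc ρ₁ ρ f hf c' = c := by
  obtain ⟨S, -, hS⟩ := decomp ρ c
  have h1 : ∀ s, ∃ m, f m = ev ρ s c := by
    intro s
    apply hex
    rw [← ev_mapc ρ ρ₃ g hg, hc, map_zero]
  choose m hm using h1
  refine ⟨∑ s ∈ S, sg ρ₁ s (m s), ?_⟩
  conv_rhs => rw [hS]
  rw [map_sum]
  exact Finset.sum_congr rfl fun s _ => by rw [mapc_sg, hm]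

/-- `mapc` is functorial -/
theorem mapc_mapc {N₁ N₃ : Type} [AddCommGroup N₁] [Module ℚ N₁]
    [AddCommGroup N₃] [Module ℚ N₃] (ρ₁ : Representation ℚ H N₁) (ρ₃ : Representation ℚ H N₃)
    (f : N₁ →ₗ[ℚ] N) (hf : ∀ h n, f (ρ₁ h n) = ρ h (f n))
    (g : N →ₗ[ℚ] N₃) (hg : ∀ h n, g (ρ h n) = ρ₃ h (g n)) (c : EqF ρ₁ T) :
    mapc ρ ρ₃ g hg (mapc ρ₁ ρ f hf c)
      = mapc ρ₁ ρ₃ (g ∘ₗ f) (fun h n => by simp [hf, hg]) c := by
  induction c using induction_sg with
  | h0 => simp
  | hadd c d hc hd => rw [map_add, map_add, map_add, hc, hd]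
  | hs t n =>
    rw [mapc_sg, mapc_sg, mapc_sg]
    rfl

/-- `mapc` commutes with `mat` -/
theorem mapc_mat {N' : Type} [AddCommGroup N'] [Module ℚ N'] (ρ' : Representation ℚ H N')
    (f : N →ₗ[ℚ] N') (hf : ∀ h n, f (ρ h n) = ρ' h (f n)) {T' : Type} [MulAction H T']
    (D : T → (T' →₀ ℚ)) (hD : ∀ (h : H) (t : T), D (h • t) = (D t).mapDomain (h • ·))
    (c : EqF ρ T) :
    mapc ρ ρ' f hf (mat ρ D hD c) = mat ρ' D hD (mapc ρ ρ' f hf c) := by
  induction c using induction_sg with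
  | h0 => simp
  | hadd c d hc hd => rw [map_add, map_add, map_add, map_add, hc, hd]
  | hs t n =>
    rw [mapc_sg, mat_sg, mat_sg, Finsupp.sum, Finsupp.sum, map_sum]
    exact Finset.sum_congr rfl fun t' _ => by rw [map_smul, mapc_sg]

end Pool.Agent.H60.CI.EqF
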