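import Pool.Agent.H60.CI.CcA
import Pool.Agent.H60.CI.EqA

/-!
# Row CcB: Claim C

`B` is acyclic in degrees 1 and 2 (`H1z`, `H2z`), `Y` has `H_2 = 0`.  Then `T2 B (E_Y ⊗ ρ)` where
`E_Y = C_1(Y) / ∂ C_2(Y)`.

Proof (diagram chase).  Write `K = PT ρ`.  `lin Y.d2 = Y.L2` by `rfl`.
Let `a : EqF ((qE Y).tprod ρ) B.F` with `B2 a = 0`.
1. `piQ` is surjective and equivariant: `a = mapc piQ a'` with `a' : EqF (PT ρ Y.E) B.F`
   (`mapc_surjective`).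
2. `mapc piQ (B2 a') = B2 (mapc piQ a') = 0` (`mapc_mat`), so by `mapc_exact` and `piQ_exact` there is
   `w : EqF (PT ρ Y.F) B.E` with `mapc (Y.L2 ⊗ id) w = B2 a'`.
3. `mapc (Y.L2 ⊗ id) (B1 w) = B1 (mapc (Y.L2 ⊗ id) w) = B1 (B2 a') = 0` (`B1_B2`), so `B1 w = 0` by
   `mapc_injective` and `rT_inj2 Y hY`.
4. `swap w : EqF (PT ρ B.E) Y.F` and `mapc (B.L1 ⊗ id) (swap w) = swap (B1 w) = 0` (`swap_mat`), so by
   `mapc_exact` and `rT_exact1 B hB1` there is `v' : EqF (PT ρ B.F) Y.F` with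
   `mapc (B.L2 ⊗ id) v' = swap w`.  Put `v = swap v' : EqF (PT ρ Y.F) B.F`; then
   `B2 v = swap (mapc (B.L2 ⊗ id) v') = swap (swap w) = w` (`swap_mapc`, `swap_swap`).
5. `B2 (a' - mapc (Y.L2 ⊗ id) v) = B2 a' - mapc (Y.L2 ⊗ id) (B2 v) = 0`; apply `swap`:
   `mapc (B.L2 ⊗ id) (swap (a' - ...)) = 0`, and `B.L2 ⊗ id` is injective (`rT_inj2 B hB2`), so
   `swap (a' - ...) = 0`, `a' = mapc (Y.L2 ⊗ id) v` (`swap_swap`).
6. `a = mapc piQ (mapc (Y.L2 ⊗ id) v) = mapc 0 v = 0` (`mapc_mapc`, `piQ_L2`).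
-/

noncomputable section

namespace Pool.Agent.H60.CI

open Finsupp TensorProduct

variable {H : Type} [Group H]

private theorem CcB_zero (Y : HCpx H) {T : Type} [MulAction H T]
    {N : Type} [AddCommGroup N] [Module ℚ N] (ρ : Representation ℚ H N)
    (R : Representation ℚ H ((EE Y) ⊗[ℚ] N))
    (hpe : ∀ (h : H) (z : (Y.E →₀ ℚ) ⊗[ℚ] N), piQ Y N (PT ρ Y.E h z) = R h (piQ Y N z))
    (eL : ∀ (h : H) (z : (Y.F →₀ ℚ) ⊗[ℚ] N), (EqF.lin Y.d2).rTensor N (PT ρ Y.F h z) =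
      PT ρ Y.E h ((EqF.lin Y.d2).rTensor N z)) (v : EqF (PT ρ Y.F) T) :
    EqF.mapc (PT ρ Y.E) R (piQ Y N) hpe
      (EqF.mapc (PT ρ Y.F) (PT ρ Y.E) ((EqF.lin Y.d2).rTensor N) eL v) = 0 := by
  induction v using EqF.induction_sg with
  | h0 => rw [map_zero, map_zero]
  | hadd c d hc hd => rw [map_add, map_add, hc, hd, add_zero]
  | hs t n =>
    rw [EqF.mapc_sg, EqF.mapc_sg]
    have h1 : piQ Y N ((EqF.lin Y.d2).rTensor N n) = 0 := piQ_L2 Y n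
    rw [h1, map_zero]

private theorem CcB_main (B Y : HCpx H) (hB1 : B.H1z) (hB2 : B.H2z) (hY : Y.H2z)
    {N : Type} [AddCommGroup N] [Module ℚ N] (ρ : Representation ℚ H N)
    (R : Representation ℚ H ((EE Y) ⊗[ℚ] N))
    (hpe : ∀ (h : H) (z : (Y.E →₀ ℚ) ⊗[ℚ] N), piQ Y N (PT ρ Y.E h z) = R h (piQ Y N z)) :
    T2 B R := by
  intro a ha
  -- equivariance of the boundary maps
  have eL := EqF.lin_rTensor_equiv (N := N) ρ Y.d2 Y.d2_smul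
  have eB2 := EqF.lin_rTensor_equiv (N := N) ρ B.d2 B.d2_smul
  have eB1 := EqF.lin_rTensor_equiv (N := N) ρ B.d1 B.d1_smul
  -- step 1
  obtain ⟨a', rfl⟩ := EqF.mapc_surjective (T := B.F) (PT ρ Y.E) R (piQ Y N) hpe (piQ_surj Y) a
  -- step 2
  have s2 : EqF.mapc (PT ρ Y.E) R (piQ Y N) hpe (B.B2 (PT ρ Y.E) a') = 0 :=
    (EqF.mapc_mat (PT ρ Y.E) R (piQ Y N) hpe B.d2 B.d2_smul a').trans ha
  obtain ⟨w, hw⟩ := EqF.mapc_exact (PT ρ Y.E) (PT ρ Y.F) R ((EqF.lin Y.d2).rTensor N) eL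
    (piQ Y N) hpe (fun z hz => piQ_exact Y z hz) (B.B2 (PT ρ Y.E) a') s2
  -- step 3
  have s3 : EqF.mapc (PT ρ Y.F) (PT ρ Y.E) ((EqF.lin Y.d2).rTensor N) eL
      (B.B1 (PT ρ Y.F) w) = 0 := by
    have h1 := EqF.mapc_mat (PT ρ Y.F) (PT ρ Y.E) ((EqF.lin Y.d2).rTensor N) eL B.d1 B.d1_smul w
    rw [hw] at h1
    exact h1.trans (B1_B2 (PT ρ Y.E) B a')
  have s3' : B.B1 (PT ρ Y.F) w = 0 := by
    have h1 := EqF.mapc_injective (T := B.V) (PT ρ Y.F) (PT ρ Y.E) ((EqF.lin Y.d2).rTensor N) eL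
      (rT_inj2 Y.toCpx hY)
    apply h1
    rw [s3, map_zero]
  -- step 4
  have s4 : EqF.mapc (PT ρ B.E) (PT ρ B.V) ((EqF.lin B.d1).rTensor N) eB1
      (EqF.swap ρ Y.F B.E w) = 0 := by
    have h1 := EqF.swap_mat ρ (S := Y.F) B.d1 B.d1_smul w
    rw [← h1]
    have h2 : EqF.mat (PT ρ Y.F) B.d1 B.d1_smul w = 0 := s3'
    rw [h2, map_zero]
  obtain ⟨v', hv'⟩ := EqF.mapc_exact (PT ρ B.E) (PT ρ B.F) (PT ρ B.V)
    ((EqF.lin B.d2).rTensor N) eB2 ((EqF.lin B.d1).rTensor N) eB1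
    (fun z hz => rT_exact1 B.toCpx hB1 z hz) (EqF.swap ρ Y.F B.E w) s4
  obtain ⟨v, hv⟩ : ∃ v : EqF (PT ρ Y.F) B.F, v = EqF.swap ρ B.F Y.F v' := ⟨_, rfl⟩
  have s4' : B.B2 (PT ρ Y.F) v = w := by
    have h1 := EqF.swap_mat ρ (S := Y.F) B.d2 B.d2_smul v
    have h2 : EqF.swap ρ Y.F B.F v = v' := by
      rw [hv, EqF.swap_swap]
    rw [h2, hv'] at h1
    have h3 := congrArg (EqF.swap ρ B.E Y.F) h1
    rw [EqF.swap_swap, EqF.swap_swap] at h3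
    exact h3
  -- step 5
  have s5 : EqF.mat (PT ρ Y.E) B.d2 B.d2_smul
      (a' - EqF.mapc (PT ρ Y.F) (PT ρ Y.E) ((EqF.lin Y.d2).rTensor N) eL v) = 0 := by
    have h1 := EqF.mapc_mat (PT ρ Y.F) (PT ρ Y.E) ((EqF.lin Y.d2).rTensor N) eL B.d2 B.d2_smul v
    have h2 : EqF.mat (PT ρ Y.F) B.d2 B.d2_smul v = w := s4'
    rw [h2, hw] at h1
    rw [map_sub, ← h1]
    exact sub_self _
  have s5' : a' - EqF.mapc (PT ρ Y.F) (PT ρ Y.E) ((EqF.lin Y.d2).rTensor N) eL v = 0 := by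
    have h1 := EqF.swap_mat ρ (S := Y.E) B.d2 B.d2_smul
      (a' - EqF.mapc (PT ρ Y.F) (PT ρ Y.E) ((EqF.lin Y.d2).rTensor N) eL v)
    rw [s5, map_zero] at h1
    have h2 := EqF.mapc_injective (T := Y.E) (PT ρ B.F) (PT ρ B.E) ((EqF.lin B.d2).rTensor N) eB2
      (rT_inj2 B.toCpx hB2)
    have h3 := h2 (h1.symm.trans (map_zero _).symm)
    have h4 := congrArg (EqF.swap ρ B.F Y.E) h3
    rw [EqF.swap_swap, map_zero] at h4
    exact h4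
  -- step 6
  rw [sub_eq_zero] at s5'
  rw [s5']
  exact CcB_zero Y ρ R hpe eL v

theorem claimC (B Y : HCpx H) (hB1 : B.H1z) (hB2 : B.H2z) (hY : Y.H2z)
    {N : Type} [AddCommGroup N] [Module ℚ N] (ρ : Representation ℚ H N) :
    T2 B ((qE Y).tprod ρ) := by
  exact CcB_main B Y hB1 hB2 hY ρ _ (piQ_equiv ρ Y)

end Pool.Agent.H60.CI
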