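import Pool.Agent.H60.CI.Clo

/-!
# Row ChA: chain maps; the homology of a quotient by a congruence

`I : Im B`, `R` a congruence, `Y = I.quo R hR`, `m = I.quoMor R hR : I → Y`, `m.fe`, `m.fm` the maps on
edges and marks.  Chains `L1 : C_1 → C_0`, `L2 : C_2 → C_1`.

* `Hom.L1_map`, `Hom.L2_map`: linear in the chain, check on `single` (`src_v`, `tgt_v`, `bd_e`,
  `mapDomain_wch`).
* `mapDomain_ker`: if `mapDomain f z = 0` then `z` lies in the span of the `single s 1 - single s' 1`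
  with `f s = f s'`.  Proof: choose for every value a representative: `r s` with `f (r s) = f s`,
  depending only on `f s` (`r = g ∘ f`); `z = Σ z_s (single s - single (r s)) + Σ z_s single (r s)` and the
  last sum is `mapDomain g (mapDomain f z) = 0`.
* `fe_surj`, `fm_surj`: by definition of the quotient.  `fe_eq`: two edges have the same image iff they
  lie over the same edge of `B` and their sources are `R`-related (targets: `hR.fwd`).
* `link1`: `L1 v ∈ DD R` and `H1z I` imply `mapDomain fe v ∈ range L2` (of `Y`): `DD R` is spanned by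
  `L1 (single ε 1 - single ε' 1)` with `fe ε = fe ε'`, so `L1 v = L1 k` with `mapDomain fe k = 0`;
  `L1 (v - k) = 0`, so `v - k = L2 c` and `mapDomain fe v = mapDomain fe (L2 c) = L2 (mapDomain fm c)`.
* `link2`: if `mapDomain fe v = L2 c'` then `c' = mapDomain fm c` (`fm_surj`), so
  `mapDomain fe (v - L2 c) = 0`; by `mapDomain_ker` and `fe_eq`, `v - L2 c` is a combination of
  `single ε 1 - single ε' 1` with `fe ε = fe ε'`, so `L1 v = L1 (v - L2 c) ∈ DD R`.
* `quo_H1z`: suppose `y - x ∈ DD R` whenever `R x y`, and `H1z I`.  Let `z` be a 1-cycle of `Y`;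
  `z = mapDomain fe v`; `mapDomain m.f (L1 v) = 0`, so `L1 v` is a combination of `y - x` with
  `R x y`, so `L1 v ∈ DD R`; `link1`.
-/

noncomputable section

namespace Pool.Agent.H60.CI

open Finsupp

theorem Cpx.Hom.L1_map {Y X : Cpx} (φ : Cpx.Hom Y X) (z : Y.E →₀ ℚ) :
    X.L1 (z.mapDomain φ.e) = (Y.L1 z).mapDomain φ.v := by
  induction z using Finsupp.induction_linear with
  | zero => simp
  | add f g hf hg => rw [Finsupp.mapDomain_add, map_add, map_add, Finsupp.mapDomain_add, hf, hg]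
  | single ε r =>
    rw [Finsupp.mapDomain_single]
    simp only [Cpx.L1, Finsupp.linearCombination_single]
    rw [Finsupp.mapDomain_smul]
    congr 1
    simp only [Cpx.d1, φ.src_v, φ.tgt_v, sub_eq_add_neg, ← Finsupp.single_neg,
      Finsupp.mapDomain_add, Finsupp.mapDomain_single]

theorem Cpx.Hom.L2_map {Y X : Cpx} (φ : Cpx.Hom Y X) (c : Y.F →₀ ℚ) :
    X.L2 (c.mapDomain φ.f) = (Y.L2 c).mapDomain φ.e := by
  induction c using Finsupp.induction_linear with
  | zero => simp
  | add f g hf hg => rw [Finsupp.mapDomain_add, map_add, map_add, Finsupp.mapDomain_add, hf, hg]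
  | single σ r =>
    rw [Finsupp.mapDomain_single]
    simp only [Cpx.L2, Finsupp.linearCombination_single]
    rw [Finsupp.mapDomain_smul]
    congr 1
    rw [Cpx.d2, Cpx.d2, φ.bd_e, mapDomain_wch]

theorem mapDomain_ker {S T : Type} (f : S → T) (z : S →₀ ℚ) (hz : z.mapDomain f = 0) :
    z ∈ Submodule.span ℚ
      {w : S →₀ ℚ | ∃ s s', f s = f s' ∧ w = single s 1 - single s' 1} := by
  classical
  rcases isEmpty_or_nonempty S with hS | hS
  · have : z = 0 := Finsupp.ext fun s => hS.elim s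
    rw [this]; exact zero_mem _
  set g : T → S := Function.invFun f with hg
  have hfg : ∀ s, f (g (f s)) = f s := fun s => Function.invFun_eq ⟨s, rfl⟩
  have key : ∀ z : S →₀ ℚ, z - (z.mapDomain f).mapDomain g ∈ Submodule.span ℚ
      {w : S →₀ ℚ | ∃ s s', f s = f s' ∧ w = single s 1 - single s' 1} := by
    intro z
    induction z using Finsupp.induction_linear with
    | zero => simp
    | add a b ha hb =>
      have := add_mem ha hb
      rw [Finsupp.mapDomain_add, Finsupp.mapDomain_add]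
      convert this using 1
      abel
    | single s r =>
      rw [Finsupp.mapDomain_single, Finsupp.mapDomain_single]
      have h1 : (single s r - single (g (f s)) r : S →₀ ℚ)
          = r • (single s 1 - single (g (f s)) 1) := by
        rw [smul_sub, Finsupp.smul_single, Finsupp.smul_single, smul_eq_mul, mul_one]
      rw [h1]
      exact Submodule.smul_mem _ _ (Submodule.subset_span ⟨s, g (f s), (hfg s).symm, rfl⟩)
  have := key z
  rwa [hz, Finsupp.mapDomain_zero, sub_zero] at this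

theorem mapDomain_surj {S T : Type} {f : S → T} (hf : Function.Surjective f) (z : T →₀ ℚ) :
    ∃ v : S →₀ ℚ, v.mapDomain f = z := by
  obtain ⟨g, hg⟩ := hf.hasRightInverse
  refine ⟨z.mapDomain g, ?_⟩
  rw [← Finsupp.mapDomain_comp]
  have : f ∘ g = id := funext hg
  rw [this, Finsupp.mapDomain_id]

namespace Im

variable {B : Cpx} (I : Im B) (R : Setoid I.V) (hR : I.Cong R)

theorem fe_surj : Function.Surjective (I.quoMor R hR).fe := by
  intro ε
  obtain ⟨x, y, hx, hy, h⟩ := ε.2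
  refine ⟨⟨(x, ε.1.2.1, y), h⟩, Subtype.ext ?_⟩
  exact Prod.ext hx (Prod.ext rfl hy)

theorem fm_surj : Function.Surjective (I.quoMor R hR).fm := by
  intro τ
  obtain ⟨x, hx, h⟩ := τ.2
  refine ⟨⟨(x, τ.1.2), h⟩, Subtype.ext ?_⟩
  exact Prod.ext hx rfl

theorem fe_eq (ε ε' : I.Edg) : (I.quoMor R hR).fe ε = (I.quoMor R hR).fe ε' ↔
    I.epr ε = I.epr ε' ∧ R (I.esrc ε) (I.esrc ε') := by
  obtain ⟨⟨x, e, y⟩, h⟩ := ε
  obtain ⟨⟨x', e', y'⟩, h'⟩ := ε'
  constructor
  · intro h1
    have h2 := congrArg Subtype.val h1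
    have h3 : ((Quotient.mk R x, e, Quotient.mk R y) : Quotient R × B.E × Quotient R)
        = (Quotient.mk R x', e', Quotient.mk R y') := h2
    rw [Prod.mk.injEq, Prod.mk.injEq] at h3
    exact ⟨h3.2.1, Quotient.exact h3.1⟩
  · rintro ⟨h1, h2⟩
    have h1' : e = e' := h1
    have h2' : R x x' := h2
    subst h1'
    have h3 : R y y' := hR.fwd h h' h2'
    apply Subtype.ext
    show ((Quotient.mk R x, e, Quotient.mk R y) : Quotient R × B.E × Quotient R)
        = (Quotient.mk R x', e, Quotient.mk R y')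
    rw [Quotient.sound h2', Quotient.sound h3]

theorem ChA_L1_single (ε : I.Edg) :
    I.toCpx.L1 (single ε 1) = single (I.etgt ε) 1 - single (I.esrc ε) 1 := by
  show Finsupp.linearCombination ℚ I.toCpx.d1 (single ε 1) = _
  rw [Finsupp.linearCombination_single, one_smul]
  rfl

theorem ChA_diff_mem (ε ε' : I.Edg) (h : (I.quoMor R hR).fe ε = (I.quoMor R hR).fe ε') :
    I.toCpx.L1 (single ε 1 - single ε' 1) ∈ I.toPC.DD R := by
  have h1 := (I.fe_eq R hR ε ε').1 h
  rw [map_sub, ChA_L1_single, ChA_L1_single]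
  obtain ⟨⟨x, e, y⟩, h2⟩ := ε
  obtain ⟨⟨x', e', y'⟩, h2'⟩ := ε'
  obtain ⟨h3, h4⟩ := h1
  have h3' : e = e' := h3
  subst h3'
  exact PC.DD_gen h2 h2' h4

theorem ChA_DD_lift (w : I.V →₀ ℚ) (hw : w ∈ I.toPC.DD R) :
    ∃ k : I.Edg →₀ ℚ, k.mapDomain (I.quoMor R hR).fe = 0 ∧ I.toCpx.L1 k = w := by
  induction hw using Submodule.span_induction with
  | mem z hz =>
    obtain ⟨x, y, x', y', e, h1, h2, h3, rfl⟩ := hz
    obtain ⟨ε, hε⟩ : ∃ ε : I.Edg, ε.1 = (x, e, y) := ⟨⟨(x, e, y), h1⟩, rfl⟩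
    obtain ⟨ε', hε'⟩ : ∃ ε : I.Edg, ε.1 = (x', e, y') := ⟨⟨(x', e, y'), h2⟩, rfl⟩
    have e1 : I.esrc ε = x := by rw [PC.esrc, hε]
    have e2 : I.etgt ε = y := by rw [PC.etgt, hε]
    have e3 : I.epr ε = e := by rw [PC.epr, hε]
    have e1' : I.esrc ε' = x' := by rw [PC.esrc, hε']
    have e2' : I.etgt ε' = y' := by rw [PC.etgt, hε']
    have e3' : I.epr ε' = e := by rw [PC.epr, hε']
    refine ⟨single ε 1 - single ε' 1, ?_, ?_⟩
    · have : (I.quoMor R hR).fe ε = (I.quoMor R hR).fe ε' :=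
        (I.fe_eq R hR _ _).2 ⟨by rw [e3, e3'], by rw [e1, e1']; exact h3⟩
      rw [sub_eq_add_neg, ← Finsupp.single_neg, Finsupp.mapDomain_add, Finsupp.mapDomain_single,
        Finsupp.mapDomain_single, this, ← Finsupp.single_add, add_neg_cancel, Finsupp.single_zero]
    · rw [map_sub, ChA_L1_single, ChA_L1_single, e1, e2, e1', e2']
  | zero => exact ⟨0, Finsupp.mapDomain_zero, map_zero _⟩
  | add x y _ _ hx hy =>
    obtain ⟨k, hk, hk'⟩ := hx
    obtain ⟨l, hl, hl'⟩ := hy
    refine ⟨k + l, ?_, ?_⟩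
    · rw [Finsupp.mapDomain_add, hk, hl, add_zero]
    · rw [map_add, hk', hl']
  | smul r x _ hx =>
    obtain ⟨k, hk, hk'⟩ := hx
    refine ⟨r • k, ?_, ?_⟩
    · rw [Finsupp.mapDomain_smul, hk, smul_zero]
    · rw [map_smul, hk']

theorem link1 (hH : I.toCpx.H1z) (v : I.Edg →₀ ℚ) (hv : I.toCpx.L1 v ∈ I.toPC.DD R) :
    ∃ c, (I.quo R hR).toCpx.L2 c = v.mapDomain (I.quoMor R hR).fe := by
  obtain ⟨k, hk, hk'⟩ := I.ChA_DD_lift R hR _ hv
  obtain ⟨c, hc⟩ := hH (v - k) (by rw [map_sub, hk', sub_self])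
  refine ⟨c.mapDomain (I.quoMor R hR).fm, ?_⟩
  have h1 := (I.quoMor R hR).hom.L2_map c
  have h2 : (I.quo R hR).toCpx.L2 (c.mapDomain (I.quoMor R hR).fm)
      = (I.toCpx.L2 c).mapDomain (I.quoMor R hR).fe := h1
  rw [h2, hc]
  have h3 : v = (v - k) + k := by abel
  conv_rhs => rw [h3, Finsupp.mapDomain_add, hk, add_zero]

theorem link2 (v : I.Edg →₀ ℚ) (c : (I.quo R hR).Mks →₀ ℚ)
    (h : (I.quo R hR).toCpx.L2 c = v.mapDomain (I.quoMor R hR).fe) :
    I.toCpx.L1 v ∈ I.toPC.DD R := by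
  obtain ⟨c', hc'⟩ := mapDomain_surj (I.fm_surj R hR) c
  have h2 : (I.quo R hR).toCpx.L2 (c'.mapDomain (I.quoMor R hR).fm)
      = (I.toCpx.L2 c').mapDomain (I.quoMor R hR).fe := (I.quoMor R hR).hom.L2_map c'
  have hc2 : (I.quo R hR).toCpx.L2 c = (I.toCpx.L2 c').mapDomain (I.quoMor R hR).fe := by
    rw [← h2, hc']
  have h3 : (v - I.toCpx.L2 c').mapDomain (I.quoMor R hR).fe = 0 := by
    have h4 : v.mapDomain (I.quoMor R hR).fe = (I.toCpx.L2 c').mapDomain (I.quoMor R hR).fe := by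
      rw [← h, hc2]
    have h5 : (v - I.toCpx.L2 c' + I.toCpx.L2 c').mapDomain (I.quoMor R hR).fe
        = (v - I.toCpx.L2 c').mapDomain (I.quoMor R hR).fe
          + (I.toCpx.L2 c').mapDomain (I.quoMor R hR).fe := Finsupp.mapDomain_add
    rw [sub_add_cancel, h4] at h5
    exact left_eq_add.1 (h5.trans (add_comm _ _))
  have h6 := mapDomain_ker _ _ h3
  have h7 : I.toCpx.L1 v = I.toCpx.L1 (v - I.toCpx.L2 c') := by
    rw [map_sub, I.toCpx.L1_L2, sub_zero]
  rw [h7]
  have key : ∀ z ∈ Submodule.span ℚ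
      {w : I.Edg →₀ ℚ | ∃ s s', (I.quoMor R hR).fe s = (I.quoMor R hR).fe s' ∧
        w = single s 1 - single s' 1}, I.toCpx.L1 z ∈ I.toPC.DD R := by
    intro z hz
    induction hz using Submodule.span_induction with
    | mem z hz =>
      obtain ⟨s, s', hs, rfl⟩ := hz
      exact I.ChA_diff_mem R hR s s' hs
    | zero => rw [map_zero]; exact zero_mem _
    | add x y _ _ hx hy => rw [map_add]; exact add_mem hx hy
    | smul r x _ hx => rw [map_smul]; exact Submodule.smul_mem _ _ hx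
  exact key _ h6

theorem quo_H1z (hH : I.toCpx.H1z)
    (h : ∀ x y, R x y → (single y 1 - single x 1 : I.V →₀ ℚ) ∈ I.toPC.DD R) :
    (I.quo R hR).toCpx.H1z := by
  intro z hz
  obtain ⟨v, hv⟩ := mapDomain_surj (I.fe_surj R hR) z
  have h1 : (I.quo R hR).toCpx.L1 (v.mapDomain (I.quoMor R hR).fe)
      = (I.toCpx.L1 v).mapDomain (Quotient.mk R) := (I.quoMor R hR).hom.L1_map v
  have h2 : (I.toCpx.L1 v).mapDomain (Quotient.mk R) = 0 := by
    rw [← h1, hv]; exact hz
  have h3 := mapDomain_ker _ _ h2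
  have key : ∀ z ∈ Submodule.span ℚ
      {w : I.V →₀ ℚ | ∃ s s', Quotient.mk R s = Quotient.mk R s' ∧
        w = single s 1 - single s' 1}, z ∈ I.toPC.DD R := by
    intro z hz
    induction hz using Submodule.span_induction with
    | mem z hz =>
      obtain ⟨s, s', hs, rfl⟩ := hz
      exact h s' s (R.symm (Quotient.exact hs))
    | zero => exact zero_mem _
    | add x y _ _ hx hy => exact add_mem hx hy
    | smul r x _ hx => exact Submodule.smul_mem _ _ hx
  obtain ⟨c, hc⟩ := I.link1 R hR hH v (key _ h3)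
  exact ⟨c, by rw [hc, hv]⟩

/-- quotients of connected complexes are connected -/
theorem quo_Conn (hC : I.toCpx.Conn) : (I.quo R hR).toCpx.Conn := by
  obtain ⟨⟨x0⟩, h2⟩ := hC
  refine ⟨⟨(Quotient.mk R x0 : Quotient R)⟩, ?_⟩
  intro a b
  induction a using Quotient.inductionOn with
  | _ x =>
  induction b using Quotient.inductionOn with
  | _ y =>
  obtain ⟨w, hw⟩ := h2 x y
  exact ⟨w.map (Prod.map (I.quoMor R hR).fe id),
    isWalk_map (I.quoMor R hR).f (I.quoMor R hR).fe (fun _ => rfl) (fun _ => rfl) hw⟩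

end Im

end Pool.Agent.H60.CI
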