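import Pool.Agent.H60.CI.HIm

/-!
# The congruence generated by a set of pairs; the spaces `K0(R)`, `D(R)`; the operation `plus`
-/

noncomputable section

set_option linter.unusedVariables false

namespace Pool.Agent.H60.CI

open Finsupp

namespace PC

variable {B : Cpx} (D : PC B)

/-- congruence closure of a relation `G` -/
inductive ClR (G : D.V → D.V → Prop) : D.V → D.V → Prop
  | base {x y} : G x y → ClR G x y
  | refl (x) : ClR G x x
  | symm {x y} : ClR G x y → ClR G y x
  | trans {x y z} : ClR G x y → ClR G y z → ClR G x z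
  | fwd {x e y x' y'} : D.adj x e y → D.adj x' e y' → ClR G x x' → ClR G y y'
  | bwd {x e y x' y'} : D.adj x e y → D.adj x' e y' → ClR G y y' → ClR G x x'

/-- congruence closure as a setoid -/
def Cl (G : D.V → D.V → Prop) : Setoid D.V where
  r := D.ClR G
  iseqv := ⟨ClR.refl, ClR.symm, ClR.trans⟩

variable {D}

theorem Cl_fib {G : D.V → D.V → Prop} (hG : ∀ {x y}, G x y → D.p x = D.p y) {x y : D.V}
    (h : D.ClR G x y) : D.p x = D.p y := by
  induction h with
  | base h => exact hG h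
  | refl => rfl
  | symm _ ih => exact ih.symm
  | trans _ _ ih1 ih2 => exact ih1.trans ih2
  | fwd h h' _ _ => rw [D.adj_tgt h, D.adj_tgt h']
  | bwd h h' _ _ => rw [D.adj_src h, D.adj_src h']

theorem Cl_cong {G : D.V → D.V → Prop} (hG : ∀ {x y}, G x y → D.p x = D.p y) :
    D.Cong (D.Cl G) where
  fib := fun h => Cl_fib hG h
  fwd := fun h h' hx => ClR.fwd h h' hx
  bwd := fun h h' hx => ClR.bwd h h' hx

/-- the closure is the smallest equivalence relation closed under folding containing `G` -/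
theorem Cl_min {G : D.V → D.V → Prop} {R : D.V → D.V → Prop} (hR : Equivalence R)
    (hG : ∀ {x y}, G x y → R x y)
    (hf : ∀ {x e y x' y'}, D.adj x e y → D.adj x' e y' → D.ClR G x x' → R x x' → R y y')
    (hb : ∀ {x e y x' y'}, D.adj x e y → D.adj x' e y' → D.ClR G y y' → R y y' → R x x') {x y : D.V}
    (h : D.ClR G x y) : R x y := by
  induction h with
  | base h => exact hG h
  | refl => exact hR.refl _
  | symm _ ih => exact hR.symm ih
  | trans _ _ ih1 ih2 => exact hR.trans ih1 ih2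
  | fwd h h' h1 ih => exact hf h h' h1 ih
  | bwd h h' h1 ih => exact hb h h' h1 ih

variable (D)

/-- `K0(R)`: span of the differences of `R`-related vertices -/
def KK (R : Setoid D.V) : Submodule ℚ (D.V →₀ ℚ) :=
  Submodule.span ℚ {z | ∃ x y, R x y ∧ z = single y 1 - single x 1}

/-- `D(R)`: span of `(y - x) - (y' - x')` for edges `x -e- y`, `x' -e- y'` over the same edge `e` of `B`
with `R x x'` -/
def DD (R : Setoid D.V) : Submodule ℚ (D.V →₀ ℚ) :=
  Submodule.span ℚ {z | ∃ x y x' y' e, D.adj x e y ∧ D.adj x' e y' ∧ R x x' ∧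
    z = (single y 1 - single x 1) - (single y' 1 - single x' 1)}

variable {D}

theorem DD_gen {R : Setoid D.V} {x y x' y' : D.V} {e : B.E} (h : D.adj x e y)
    (h' : D.adj x' e y') (hx : R x x') :
    (single y 1 - single x 1) - (single y' 1 - single x' 1) ∈ D.DD R :=
  Submodule.subset_span ⟨x, y, x', y', e, h, h', hx, rfl⟩

theorem KK_gen {R : Setoid D.V} {x y : D.V} (hx : R x y) :
    (single y 1 - single x 1 : D.V →₀ ℚ) ∈ D.KK R :=
  Submodule.subset_span ⟨x, y, hx, rfl⟩

theorem DD_mono {R R' : Setoid D.V} (h : R ≤ R') : D.DD R ≤ D.DD R' := by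
  refine Submodule.span_mono ?_
  rintro z ⟨x, y, x', y', e, h1, h2, h3, rfl⟩
  exact ⟨x, y, x', y', e, h1, h2, h h3, rfl⟩

theorem KK_mono {R R' : Setoid D.V} (h : R ≤ R') : D.KK R ≤ D.KK R' := by
  refine Submodule.span_mono ?_
  rintro z ⟨x, y, h3, rfl⟩
  exact ⟨x, y, h h3, rfl⟩

theorem DD_le_KK {R : Setoid D.V} (hR : D.Cong R) : D.DD R ≤ D.KK R := by
  rw [DD, Submodule.span_le]
  rintro z ⟨x, y, x', y', e, h1, h2, h3, rfl⟩
  have e1 : (single y 1 - single y' 1 : D.V →₀ ℚ) ∈ D.KK R := KK_gen (R.symm (hR.fwd h1 h2 h3))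
  have e2 : (single x 1 - single x' 1 : D.V →₀ ℚ) ∈ D.KK R := KK_gen (R.symm h3)
  have := sub_mem e1 e2
  rw [SetLike.mem_coe]
  convert this using 1
  abel

variable (D)

/-- the operation `R ↦ R⁺ = {(x,y) ∈ R : y - x ∈ D(R)}` -/
def plus (R : Setoid D.V) : Setoid D.V where
  r := fun x y => R x y ∧ (single y 1 - single x 1 : D.V →₀ ℚ) ∈ D.DD R
  iseqv := by
    refine ⟨fun x => ⟨R.refl x, ?_⟩, fun {x y} h => ⟨R.symm h.1, ?_⟩,
      fun {x y z} h h' => ⟨R.trans h.1 h'.1, ?_⟩⟩
    · rw [sub_self]; exact zero_mem _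
    · rw [← neg_sub]; exact neg_mem h.2
    · have := add_mem h.2 h'.2
      convert this using 1
      abel

variable {D}

theorem plus_le (R : Setoid D.V) : D.plus R ≤ R := fun {_ _} h => h.1

theorem plus_cong {R : Setoid D.V} (hR : D.Cong R) : D.Cong (D.plus R) where
  fib := fun h => hR.fib h.1
  fwd := by
    intro x e y x' y' h h' hx
    refine ⟨hR.fwd h h' hx.1, ?_⟩
    have e1 := DD_gen h h' hx.1
    have := sub_mem hx.2 e1
    convert this using 1
    abel
  bwd := by
    intro x e y x' y' h h' hy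
    have hx : R x x' := hR.bwd h h' hy.1
    refine ⟨hx, ?_⟩
    have e1 := DD_gen h h' hx
    have := add_mem hy.2 e1
    convert this using 1
    abel

end PC

namespace HIm

variable {H : Type} [Group H] {B : HCpx H} (Z : HIm B)

theorem DD_smul {R : Setoid Z.V} (hi : Z.Inv R) (h : H) {z : Z.V →₀ ℚ} (hz : z ∈ Z.toPC.DD R) :
    perm H Z.V h z ∈ Z.toPC.DD R := by
  induction hz using Submodule.span_induction with
  | mem z hz =>
    obtain ⟨x, y, x', y', e, h1, h2, h3, rfl⟩ := hz
    simp only [map_sub, perm_single]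
    exact PC.DD_gen (Z.adj_smul h h1) (Z.adj_smul h h2) (hi h _ _ h3)
  | zero => simp
  | add x y _ _ hx hy => rw [map_add]; exact add_mem hx hy
  | smul r x _ hx => rw [map_smul]; exact Submodule.smul_mem _ _ hx

theorem plus_inv {R : Setoid Z.V} (hi : Z.Inv R) : Z.Inv (Z.toPC.plus R) := by
  intro h x y hxy
  refine ⟨hi h _ _ hxy.1, ?_⟩
  have := Z.DD_smul hi h hxy.2
  simpa using this

/-- the kernel of `p` -/
def kerp : Setoid Z.V := Setoid.ker Z.p

theorem kerp_cong : Z.Cong Z.kerp where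
  fib := fun h => h
  fwd := fun h h' _ => by
    show Z.p _ = Z.p _
    rw [Z.adj_tgt h, Z.adj_tgt h']
  bwd := fun h h' _ => by
    show Z.p _ = Z.p _
    rw [Z.adj_src h, Z.adj_src h']

theorem kerp_inv : Z.Inv Z.kerp := fun h x y hxy => by
  show Z.p _ = Z.p _
  rw [Z.p_smul, Z.p_smul, show Z.p x = Z.p y from hxy]

/-- the tower `R_0 = ker p`, `R_{n+1} = R_n⁺` -/
def tow : ℕ → Setoid Z.V
  | 0 => Z.kerp
  | n + 1 => Z.toPC.plus (tow n)

theorem tow_cong (n : ℕ) : Z.Cong (Z.tow n) := by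
  induction n with
  | zero => exact Z.kerp_cong
  | succ n ih => exact PC.plus_cong ih

theorem tow_inv (n : ℕ) : Z.Inv (Z.tow n) := by
  induction n with
  | zero => exact Z.kerp_inv
  | succ n ih => exact Z.plus_inv ih

theorem tow_le (n : ℕ) : Z.tow (n + 1) ≤ Z.tow n := PC.plus_le _

/-- the complexes of the tower -/
def Yn (n : ℕ) : HIm B := Z.quo (Z.tow n) (Z.tow_cong n) (Z.tow_inv n)

end HIm

end Pool.Agent.H60.CI
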