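import Pool.Agent.H60.CI.Hcx

/-!
# Row Coh: cochains with values in a rational vector space

`vsum b w`: sum of `b` along the word `w`.

* `linearCombination_vsum`: as `linearCombination_wch` in `Hcx.lean` (induction on `w`).
* `vsum_map`: `vsum b (w.map (Prod.map f id)) = vsum (b ∘ f) w`.
* `coh2`: `L2` is injective (`H2z`), so it has a linear left inverse `r : C_1 → C_2`
  (`LinearMap.exists_leftInverse_of_injective`).  `b e := linearCombination ℚ a (r (single e 1))`, i.e.
  `linearCombination ℚ b = (linearCombination ℚ a) ∘ r`; `vsum b (bd σ) = linearCombination ℚ b (wch (bd σ))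
  = linearCombination ℚ a (r (L2 (single σ 1))) = a σ`.
* `coh0`: a cochain `b` with `vsum b (bd τ) = 0` for all `τ` is a coboundary if `H1z`.
  `f := linearCombination ℚ b` vanishes on `range L2 ≥ ker L1`.  So there is a linear map `Θ : C_0 → V`
  with `Θ ∘ L1 = f`: `f` factors through `C_1 ⧸ ker L1 ≃ range L1` (`LinearMap.quotKerEquivRange`,
  `Submodule.liftQ`), extend to `C_0` (`LinearMap.exists_extend`).  `θ x := Θ (single x 1)`:
  `b e = f (single e 1) = Θ (L1 (single e 1)) = θ (tgt e) - θ (src e)`.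
* `coh1`: Put `a σ := vsum b (bd τ)` if `σ ∉ I2` and `σ = g.f τ` for some `τ` (any choice), `a σ := 0` otherwise
  (classical `dite`).  `coh2` gives `b'` with `vsum b' (bd σ) = a σ` for all `σ`.  For `τ ∉ M`:
  `g.f τ ∉ I2` and the chosen preimage of `g.f τ` is `τ`, so `a (g.f τ) = vsum b (bd τ)`.  For `τ ∈ M`:
  `g.f τ ∈ I2`, `a (g.f τ) = 0 = vsum b (bd τ)`.  As `vsum (b' ∘ g.e) (bd τ) = vsum b' (bd (g.f τ))`
  (`bd_e`, `vsum_map`), the cochain `b - b' ∘ g.e` satisfies the hypothesis of `coh0`.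
-/

noncomputable section

set_option linter.unusedVariables false

namespace Pool.Agent.H60.CI

open Finsupp

/-- sum of a function with values in a vector space along a word -/
def vsum {E V : Type} [AddCommGroup V] [Module ℚ V] (b : E → V) (w : List (E × Bool)) : V :=
  (w.map fun a => sgnb a.2 • b a.1).sum

section

variable {E V : Type} [AddCommGroup V] [Module ℚ V]

@[simp] theorem vsum_nil (b : E → V) : vsum b [] = 0 := rfl

@[simp] theorem vsum_cons (b : E → V) (a : E × Bool) (w : List (E × Bool)) :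
    vsum b (a :: w) = sgnb a.2 • b a.1 + vsum b w := by simp [vsum]

theorem linearCombination_vsum (b : E → V) (w : List (E × Bool)) :
    Finsupp.linearCombination ℚ b (wch w) = vsum b w := by
  induction w with
  | nil => simp
  | cons a w ih => simp [ih]

theorem vsum_map {E' : Type} (f : E → E') (b : E' → V) (w : List (E × Bool)) :
    vsum b (w.map (Prod.map f id)) = vsum (b ∘ f) w := by
  simp [vsum, List.map_map, Function.comp_def]

theorem Coh_vsum_sub (b b' : E → V) (w : List (E × Bool)) :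
    vsum (fun e => b e - b' e) w = vsum b w - vsum b' w := by
  induction w with
  | nil => simp
  | cons a w ih =>
    rw [vsum_cons, vsum_cons, vsum_cons, ih, smul_sub]
    abel

end

variable {Y Y' : Cpx} {V : Type} [AddCommGroup V] [Module ℚ V]

theorem Coh_L2 (σ : Y.F) : Y.L2 (single σ 1) = wch (Y.bd σ) := by
  unfold Cpx.L2
  rw [Finsupp.linearCombination_single, one_smul]
  rfl

theorem coh2 (hY : Y.H2z) (a : Y.F → V) : ∃ b : Y.E → V, ∀ σ, vsum b (Y.bd σ) = a σ := by
  have hker : LinearMap.ker Y.L2 = ⊥ := by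
    rw [LinearMap.ker_eq_bot']
    exact hY
  obtain ⟨r, hr⟩ := Y.L2.exists_leftInverse_of_injective hker
  have key : ∀ z : Y.E →₀ ℚ, Finsupp.linearCombination ℚ
      (fun e => Finsupp.linearCombination ℚ a (r (single e 1))) z =
      Finsupp.linearCombination ℚ a (r z) := by
    intro z
    induction z using Finsupp.induction_linear with
    | zero => simp
    | add f g hf hg => rw [map_add, hf, hg, map_add, map_add]
    | single e q =>
      have h1 : (single e q : Y.E →₀ ℚ) = q • single e 1 := by simp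
      rw [Finsupp.linearCombination_single, h1, map_smul, map_smul]
  refine ⟨fun e => Finsupp.linearCombination ℚ a (r (single e 1)), fun σ => ?_⟩
  rw [← linearCombination_vsum, key, ← Coh_L2]
  have h2 : r (Y.L2 (single σ 1)) = single σ 1 := LinearMap.congr_fun hr (single σ 1)
  rw [h2, Finsupp.linearCombination_single, one_smul]

theorem coh0 (hY : Y.H1z) (b : Y.E → V) (hb : ∀ τ, vsum b (Y.bd τ) = 0) :
    ∃ θ : Y.V → V, ∀ e, b e = θ (Y.tgt e) - θ (Y.src e) := by
  obtain ⟨f, hf⟩ : ∃ f : (Y.E →₀ ℚ) →ₗ[ℚ] V, f = Finsupp.linearCombination ℚ b := ⟨_, rfl⟩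
  have hL2 : ∀ c : Y.F →₀ ℚ, f (Y.L2 c) = 0 := by
    intro c
    induction c using Finsupp.induction_linear with
    | zero => simp
    | add x y hx hy => rw [map_add, map_add, hx, hy, add_zero]
    | single σ q =>
      have h1 : (single σ q : Y.F →₀ ℚ) = q • single σ 1 := by simp
      rw [h1, map_smul, map_smul, Coh_L2, hf, linearCombination_vsum, hb, smul_zero]
  have hker : LinearMap.ker Y.L1 ≤ LinearMap.ker f := by
    intro z hz
    obtain ⟨c, hc⟩ := hY z hz
    rw [LinearMap.mem_ker, ← hc]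
    exact hL2 c
  obtain ⟨Θ, hΘ⟩ := LinearMap.exists_extend
    (((LinearMap.ker Y.L1).liftQ f hker) ∘ₗ Y.L1.quotKerEquivRange.symm.toLinearMap)
  have key : ∀ z : Y.E →₀ ℚ, Θ (Y.L1 z) = f z := by
    intro z
    have h1 := LinearMap.congr_fun hΘ ⟨Y.L1 z, LinearMap.mem_range_self _ z⟩
    have h2 : Y.L1.quotKerEquivRange.symm ⟨Y.L1 z, LinearMap.mem_range_self _ z⟩ =
        (LinearMap.ker Y.L1).mkQ z := LinearMap.quotKerEquivRange_symm_apply_image Y.L1 z _
    have h3 : Θ (Y.L1 z) = ((LinearMap.ker Y.L1).liftQ f hker)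
        (Y.L1.quotKerEquivRange.symm ⟨Y.L1 z, LinearMap.mem_range_self _ z⟩) := h1
    rw [h3, h2]
    rfl
  refine ⟨fun x => Θ (single x 1), fun e => ?_⟩
  have h1 := key (single e 1)
  have h2 : Y.L1 (single e 1) = single (Y.tgt e) 1 - single (Y.src e) 1 := by
    unfold Cpx.L1
    rw [Finsupp.linearCombination_single, one_smul]
    rfl
  rw [h2, map_sub, hf, Finsupp.linearCombination_single, one_smul] at h1
  exact h1.symm

theorem coh1 (g : Cpx.Hom Y Y') (hY : Y.H1z) (hY' : Y'.H2z) (M : Set Y.F) (I2 : Set Y'.F)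
    (hM : ∀ τ ∈ M, g.f τ ∈ I2)
    (hM' : ∀ τ, τ ∉ M → g.f τ ∉ I2 ∧ ∀ τ', g.f τ' = g.f τ → τ' = τ)
    (b : Y.E → V) (hb : ∀ τ ∈ M, vsum b (Y.bd τ) = 0) :
    ∃ (b' : Y'.E → V) (θ : Y.V → V), (∀ σ ∈ I2, vsum b' (Y'.bd σ) = 0) ∧
      ∀ e, b e = b' (g.e e) + θ (Y.tgt e) - θ (Y.src e) := by
  classical
  obtain ⟨b', hb'⟩ := coh2 hY' (fun σ : Y'.F =>
    if h : σ ∉ I2 ∧ ∃ τ, g.f τ = σ then vsum b (Y.bd h.2.choose) else (0 : V))
  have h0 : ∀ σ ∈ I2, vsum b' (Y'.bd σ) = 0 := by
    intro σ hσ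
    rw [hb' σ, dif_neg (fun h => h.1 hσ)]
  have h1 : ∀ τ, vsum (b' ∘ g.e) (Y.bd τ) = vsum b (Y.bd τ) := by
    intro τ
    rw [← vsum_map, ← g.bd_e]
    by_cases hτ : τ ∈ M
    · rw [h0 _ (hM τ hτ), hb τ hτ]
    · obtain ⟨h2, h3⟩ := hM' τ hτ
      have h4 : g.f τ ∉ I2 ∧ ∃ τ', g.f τ' = g.f τ := ⟨h2, τ, rfl⟩
      rw [hb' (g.f τ), dif_pos h4, h3 _ h4.2.choose_spec]
  obtain ⟨θ, hθ⟩ := coh0 hY (fun e => b e - (b' ∘ g.e) e) (fun τ => by
    rw [Coh_vsum_sub, h1, sub_self])
  refine ⟨b', θ, h0, fun e => ?_⟩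
  have h5 : b e - b' (g.e e) = θ (Y.tgt e) - θ (Y.src e) := hθ e
  rw [add_sub_assoc, ← h5]
  abel

end Pool.Agent.H60.CI
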