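import Mathlib

/-!
# MP_ddee1b_al: combinatorial 2-complexes, group actions, immersed complexes

* `Cpx`: a combinatorial 2-complex (directed graph + 2-cells attached along closed edge paths).
  Oriented edges are pairs `(e, b)`; `b = true` is the given orientation.
* `HCpx H`: a 2-complex with a cellular action of the group `H`, free on vertices.
* `PC B`: precomplex over `B`; `Im B`: complex immersed in `B`.
-/

namespace Pool.Agent.H60.CI

/-- starting vertex of an oriented edge -/
def oS {V E : Type} (src tgt : E → V) (a : E × Bool) : V := if a.2 then src a.1 else tgt a.1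

/-- end vertex of an oriented edge -/
def oT {V E : Type} (src tgt : E → V) (a : E × Bool) : V := if a.2 then tgt a.1 else src a.1

/-- `IsWalk src tgt x w y`: the word `w` of oriented edges is an edge path from `x` to `y` -/
def IsWalk {V E : Type} (src tgt : E → V) : V → List (E × Bool) → V → Prop
  | x, [], y => x = y
  | x, a :: w, y => oS src tgt a = x ∧ IsWalk src tgt (oT src tgt a) w y

/-- combinatorial 2-complex: every 2-cell `σ` is attached along the closed edge path `bd σ`,
which starts and ends at the vertex `base σ` -/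
structure Cpx where
  V : Type
  E : Type
  F : Type
  src : E → V
  tgt : E → V
  base : F → V
  bd : F → List (E × Bool)
  bd_walk : ∀ σ, IsWalk src tgt (base σ) (bd σ) (base σ)

namespace Cpx

/-- edge paths -/
def Walk (X : Cpx) (x : X.V) (w : List (X.E × Bool)) (y : X.V) : Prop := IsWalk X.src X.tgt x w y

/-- connected (and non-empty) -/
def Conn (X : Cpx) : Prop := Nonempty X.V ∧ ∀ x y : X.V, ∃ w, X.Walk x w y

/-- cellular maps (orientation preserving on edges, respecting attaching paths) -/
structure Hom (Y X : Cpx) where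
  v : Y.V → X.V
  e : Y.E → X.E
  f : Y.F → X.F
  src_v : ∀ ε, X.src (e ε) = v (Y.src ε)
  tgt_v : ∀ ε, X.tgt (e ε) = v (Y.tgt ε)
  base_v : ∀ τ, X.base (f τ) = v (Y.base τ)
  bd_e : ∀ τ, X.bd (f τ) = (Y.bd τ).map (Prod.map e id)

/-- immersions: locally injective cellular maps -/
structure Hom.IsImm {Y X : Cpx} (φ : Hom Y X) : Prop where
  src_inj : ∀ ε ε', Y.src ε = Y.src ε' → φ.e ε = φ.e ε' → ε = ε'
  tgt_inj : ∀ ε ε', Y.tgt ε = Y.tgt ε' → φ.e ε = φ.e ε' → ε = ε'
  face_inj : ∀ τ τ', Y.base τ = Y.base τ' → φ.f τ = φ.f τ' → τ = τ'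

end Cpx

/-- a 2-complex with a cellular action of `H`, free on the vertices -/
structure HCpx (H : Type) [Group H] extends Cpx where
  aV : MulAction H V
  aE : MulAction H E
  aF : MulAction H F
  src_smul : ∀ (h : H) (e : E), src (h • e) = h • src e
  tgt_smul : ∀ (h : H) (e : E), tgt (h • e) = h • tgt e
  base_smul : ∀ (h : H) (σ : F), base (h • σ) = h • base σ
  bd_smul : ∀ (h : H) (σ : F), bd (h • σ) = (bd σ).map (Prod.map (h • ·) id)
  free : ∀ (h : H) (v : V), h • v = v → h = 1

attribute [instance] HCpx.aV HCpx.aE HCpx.aF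

/-- precomplex over `B`: a set of vertices over the vertices of `B`, some edges over the edges of
`B` and some marks (base points of 2-cells over 2-cells of `B`). -/
structure PC (B : Cpx) where
  V : Type
  p : V → B.V
  adj : V → B.E → V → Prop
  mark : V → B.F → Prop
  adj_src : ∀ {x e y}, adj x e y → p x = B.src e
  adj_tgt : ∀ {x e y}, adj x e y → p y = B.tgt e
  mark_base : ∀ {x σ}, mark x σ → p x = B.base σ

namespace PC

variable {B : Cpx} (D : PC B)

/-- adjacency along an oriented edge of `B` -/
def oadj (x : D.V) (a : B.E × Bool) (y : D.V) : Prop := if a.2 then D.adj x a.1 y else D.adj y a.1 x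

/-- the word `w` over `B` lifts to a path of `D` from `x` to `y` -/
def W : D.V → List (B.E × Bool) → D.V → Prop
  | x, [], y => x = y
  | x, a :: w, y => ∃ z, D.oadj x a z ∧ W z w y

/-- edges of `D` -/
def Edg : Type := {t : D.V × B.E × D.V // D.adj t.1 t.2.1 t.2.2}

/-- marks (2-cells) of `D` -/
def Mks : Type := {t : D.V × B.F // D.mark t.1 t.2}

/-- congruences: equivalence relations on the vertices, inside the fibres of `p`, closed under
folding in both directions -/
structure Cong (R : Setoid D.V) : Prop where
  fib : ∀ {x y}, R x y → D.p x = D.p y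
  fwd : ∀ {x e y x' y'}, D.adj x e y → D.adj x' e y' → R x x' → R y y'
  bwd : ∀ {x e y x' y'}, D.adj x e y → D.adj x' e y' → R y y' → R x x'

end PC

/-- complexes immersed in `B` -/
structure Im (B : Cpx) extends PC B where
  fun_r : ∀ {x e y y'}, adj x e y → adj x e y' → y = y'
  fun_l : ∀ {x x' e y}, adj x e y → adj x' e y → x = x'
  mark_walk : ∀ {x σ}, mark x σ → toPC.W x (B.bd σ) x

/-- complexes with a (free) `H`-action immersed equivariantly in the `H`-complex `B` -/
structure HIm {H : Type} [Group H] (B : HCpx H) extends Im B.toCpx where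
  act : MulAction H V
  p_smul : ∀ (h : H) (x : V), p (h • x) = h • p x
  adj_smul : ∀ (h : H) {x : V} {e : B.E} {y : V}, adj x e y → adj (h • x) (h • e) (h • y)
  mark_smul : ∀ (h : H) {x : V} {σ : B.F}, mark x σ → mark (h • x) (h • σ)

attribute [instance] HIm.act

end Pool.Agent.H60.CI
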