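import Pool.Agent.H60.CI.Defs0

/-!
# Equivariant functions with finite support modulo the group, as coinvariants (definitions)

`H` acts on the set `T`, `ρ` is a representation of `H` on a `ℚ`-vector space `N`.
`EqF ρ T = (T →₀ N) / ⟨(h • t, ρ h n) - (t, n)⟩`.  If the action on `T` is free this is the space of
equivariant functions `T → N` with finite support modulo `H`; `ev ρ t` is the evaluation at `t`.
-/

noncomputable section

namespace Pool.Agent.H60.CI

open Finsupp

variable {H : Type} [Group H]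

/-- free actions -/
class FreeAct (H T : Type) [Group H] [MulAction H T] : Prop where
  free : ∀ (h : H) (t : T), h • t = t → h = 1

section

variable {N : Type} [AddCommGroup N] [Module ℚ N] (ρ : Representation ℚ H N)
variable (T : Type) [MulAction H T]

/-- the relations `(h • t, ρ h n) ~ (t, n)` -/
def eqRel : Submodule ℚ (T →₀ N) :=
  Submodule.span ℚ {z | ∃ (h : H) (t : T) (n : N), z = single (h • t) (ρ h n) - single t n}

/-- equivariant functions `T → N` with finite support modulo `H` -/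
abbrev EqF : Type := (T →₀ N) ⧸ eqRel ρ T

end

namespace EqF

variable {N : Type} [AddCommGroup N] [Module ℚ N] (ρ : Representation ℚ H N)
variable {T : Type} [MulAction H T]

/-- the equivariant function supported on the orbit of `t` with value `n` at `t` -/
def sg (t : T) : N →ₗ[ℚ] EqF ρ T := (eqRel ρ T).mkQ ∘ₗ Finsupp.lsingle t

theorem sg_smul (h : H) (t : T) (n : N) : sg ρ (h • t) (ρ h n) = sg ρ t n := by
  rw [← sub_eq_zero]
  simp only [sg, LinearMap.comp_apply, Finsupp.lsingle_apply]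
  rw [← map_sub, Submodule.mkQ_apply, Submodule.Quotient.mk_eq_zero]
  exact Submodule.subset_span ⟨h, t, n, rfl⟩

/-- two linear maps which agree on all `sg t n` are equal -/
theorem hom_ext {W : Type} [AddCommGroup W] [Module ℚ W] {f g : EqF ρ T →ₗ[ℚ] W}
    (h : ∀ t n, f (sg ρ t n) = g (sg ρ t n)) : f = g := by
  apply Submodule.linearMap_qext
  ext t n
  exact h t n

theorem lift_aux {W : Type} [AddCommGroup W] [Module ℚ W] (L : T → N →ₗ[ℚ] W)
    (hL : ∀ (h : H) (t : T) (n : N), L (h • t) (ρ h n) = L t n) :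
    eqRel ρ T ≤ LinearMap.ker (Finsupp.lsum ℚ L) := by
  rw [eqRel, Submodule.span_le]
  rintro z ⟨h, t, n, rfl⟩
  rw [SetLike.mem_coe, LinearMap.mem_ker, map_sub]
  simp [hL, Finsupp.lsum_single]

/-- universal property -/
def lift {W : Type} [AddCommGroup W] [Module ℚ W] (L : T → N →ₗ[ℚ] W)
    (hL : ∀ (h : H) (t : T) (n : N), L (h • t) (ρ h n) = L t n) : EqF ρ T →ₗ[ℚ] W :=
  (eqRel ρ T).liftQ (Finsupp.lsum ℚ L) (lift_aux ρ L hL)

@[simp] theorem lift_sg {W : Type} [AddCommGroup W] [Module ℚ W] (L : T → N →ₗ[ℚ] W)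
    (hL : ∀ (h : H) (t : T) (n : N), L (h • t) (ρ h n) = L t n) (t : T) (n : N) :
    lift ρ L hL (sg ρ t n) = L t n := by
  simp [lift, sg]

open Classical in
/-- the local formula for the evaluation at `t` -/
def evL (t s : T) : N →ₗ[ℚ] N := if h : ∃ g : H, g • s = t then ρ h.choose else 0

theorem evL_eq [FreeAct H T] {t s : T} {g : H} (hg : g • s = t) : evL ρ t s = ρ g := by
  have h : ∃ g : H, g • s = t := ⟨g, hg⟩
  have h1 := h.choose_spec
  have : h.choose = g := by
    have h2 : (g⁻¹ * h.choose) • s = s := by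
      rw [mul_smul, h1, ← hg, inv_smul_smul]
    have h3 := FreeAct.free _ _ h2
    exact (inv_mul_eq_one.mp h3).symm
  rw [evL, dif_pos h, this]

theorem evL_compat [FreeAct H T] (t : T) (h : H) (s : T) (n : N) :
    evL ρ t (h • s) (ρ h n) = evL ρ t s n := by
  by_cases hg : ∃ g : H, g • s = t
  · obtain ⟨g, hg⟩ := hg
    have h1 : (g * h⁻¹) • (h • s) = t := by rw [← mul_smul]; simpa using hg
    rw [evL_eq ρ hg, evL_eq ρ h1, map_mul]
    simp
  · have h2 : ¬ ∃ g : H, g • (h • s) = t := by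
      rintro ⟨g, h2⟩
      exact hg ⟨g * h, by rw [mul_smul]; exact h2⟩
    rw [evL, evL, dif_neg hg, dif_neg h2]
    simp

/-- evaluation of an equivariant function at `t` -/
def ev [FreeAct H T] (t : T) : EqF ρ T →ₗ[ℚ] N := lift ρ (evL ρ t) (evL_compat ρ t)

theorem ev_sg [FreeAct H T] {t s : T} {g : H} (hg : g • s = t) (n : N) :
    ev ρ t (sg ρ s n) = ρ g n := by
  rw [ev, lift_sg, evL_eq ρ hg]

@[simp] theorem ev_sg_self [FreeAct H T] (t : T) (n : N) : ev ρ t (sg ρ t n) = n := by
  rw [ev_sg ρ (one_smul H t)]; simp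

theorem ev_sg_of_not [FreeAct H T] {t s : T} (hg : ∀ g : H, g • s ≠ t) (n : N) :
    ev ρ t (sg ρ s n) = 0 := by
  rw [ev, lift_sg, evL, dif_neg (by simpa using hg)]; simp

/-- functoriality in the coefficients -/
def mapc {N' : Type} [AddCommGroup N'] [Module ℚ N'] (ρ' : Representation ℚ H N')
    (f : N →ₗ[ℚ] N') (hf : ∀ h n, f (ρ h n) = ρ' h (f n)) : EqF ρ T →ₗ[ℚ] EqF ρ' T :=
  lift ρ (fun t => sg ρ' t ∘ₗ f) (fun h t n => by simp [hf, sg_smul])

@[simp] theorem mapc_sg {N' : Type} [AddCommGroup N'] [Module ℚ N'] (ρ' : Representation ℚ H N')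
    (f : N →ₗ[ℚ] N') (hf : ∀ h n, f (ρ h n) = ρ' h (f n)) (t : T) (n : N) :
    mapc (T := T) ρ ρ' f hf (sg ρ t n) = sg ρ' t (f n) := by
  simp [mapc]

/-- push forward along an equivariant map -/
def push {T' : Type} [MulAction H T'] (q : T → T') (hq : ∀ (h : H) (t : T), q (h • t) = h • q t) :
    EqF ρ T →ₗ[ℚ] EqF ρ T' :=
  lift ρ (fun t => sg ρ (q t)) (fun h t n => by rw [hq, sg_smul])

@[simp] theorem push_sg {T' : Type} [MulAction H T'] (q : T → T')
    (hq : ∀ (h : H) (t : T), q (h • t) = h • q t) (t : T) (n : N) :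
    push ρ q hq (sg ρ t n) = sg ρ (q t) n := by
  simp [push]

/-- operator given by an equivariant matrix `D : T → (T' →₀ ℚ)` -/
def mat {T' : Type} [MulAction H T'] (D : T → (T' →₀ ℚ))
    (hD : ∀ (h : H) (t : T), D (h • t) = (D t).mapDomain (h • ·)) : EqF ρ T →ₗ[ℚ] EqF ρ T' :=
  lift ρ (fun t => (D t).sum fun t' r => r • sg ρ t') (fun h t n => by
    rw [hD, Finsupp.sum_mapDomain_index (by simp) (by intros; rw [add_smul])]
    simp only [Finsupp.sum, LinearMap.sum_apply, LinearMap.smul_apply, sg_smul])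

theorem mat_sg {T' : Type} [MulAction H T'] (D : T → (T' →₀ ℚ))
    (hD : ∀ (h : H) (t : T), D (h • t) = (D t).mapDomain (h • ·)) (t : T) (n : N) :
    mat ρ D hD (sg ρ t n) = (D t).sum fun t' r => r • sg ρ t' n := by
  simp [mat, Finsupp.sum]

end EqF

/-- the permutation representation on `T →₀ ℚ` -/
def perm (H : Type) [Group H] (T : Type) [MulAction H T] : Representation ℚ H (T →₀ ℚ) where
  toFun g := Finsupp.lmapDomain ℚ ℚ (g • ·)
  map_one' := by ext; simp
  map_mul' x y := by ext; simp [mul_smul]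

@[simp] theorem perm_single {T : Type} [MulAction H T] (h : H) (t : T) (r : ℚ) :
    perm H T h (single t r) = single (h • t) r := by
  simp [perm]

end Pool.Agent.H60.CI
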