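import Pool.Agent.H60.CI.FdD
import Pool.Agent.H60.CI.Orb

/-!
# Row FcA: finitely many pairs of `R` outside the next level of the tower

`R` an equivalence relation on `Z.V` (not `H`-invariant) contained in `Z.tow n`, with
`KK R ≤ W ⊔ DD R`, `W` finite dimensional.  Then only finitely many pairs of `R` are not in
`Z.tow (n+1)`.

Proof.  1. There is a finite set `P` of pairs such that every pair `(x, y)` with `p x = p y` is
`(h • s, h • s')` with `(s, s') ∈ P`: `x = h • s` with `s` in the finite set of orbit representatives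
(`hF.orb`) and `s' := h⁻¹ • y` satisfies `p s' = p s`, so it lies in the finite set `{x | p x = p s}`
(`fib_finite`).
2. Suppose the set `Q = {t | R t.1 t.2 ∧ ¬ tow (n+1) t.1 t.2}` is infinite.  It is the union over
`(s, s') ∈ P` of the images of `S(s,s') = {h | (h • s, h • s') ∈ Q}` (all pairs of `tow n` satisfy
`p x = p y` by `(tow_cong n).fib`), so some `S = S(s,s')` is infinite.
3. For `h ∈ S`: `single (h • s') 1 - single (h • s) 1 ∈ KK R ≤ W ⊔ DD R ≤ W ⊔ DD (tow n)` (`DD_mono`).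
By `fdD`, `single s' 1 - single s 1 ∈ DD (tow n)`.  Also `tow n s s'` (apply `tow_inv` with `h⁻¹`).
So `tow (n+1) s s'` (definition of `plus`) and `tow (n+1) (h • s) (h • s')` by `tow_inv`:
contradiction to `(h • s, h • s') ∈ Q`.
-/

noncomputable section

set_option linter.unusedVariables false

namespace Pool.Agent.H60.CI

open Finsupp

variable {H : Type} [Group H] {B : HCpx H}

theorem HIm.pairs_finite [NoZeroDivisors (MonoidAlgebra ℚ H)] (Z : HIm B) (hB1 : B.H1z)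
    (hDR : B.DR) (hC : Z.toHCpx.Conn) (hF : Z.HFin) (hH : Z.toHCpx.H1z) (n : ℕ)
    (R : Setoid Z.V) (hRn : ∀ x y, R x y → Z.tow n x y)
    (W : Submodule ℚ (Z.V →₀ ℚ)) [FiniteDimensional ℚ W] (hW : Z.toPC.KK R ≤ W ⊔ Z.toPC.DD R) :
    {t : Z.V × Z.V | R t.1 t.2 ∧ ¬ Z.tow (n + 1) t.1 t.2}.Finite := by
  classical
  obtain ⟨S, hS⟩ := hF.orb
  have key : ∀ s s' : Z.V,
      {h : H | R (h • s) (h • s') ∧ ¬ Z.tow (n + 1) (h • s) (h • s')}.Finite := by
    intro s s'
    by_contra hinf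
    have hinf' : {h : H | R (h • s) (h • s') ∧ ¬ Z.tow (n + 1) (h • s) (h • s')}.Infinite := hinf
    have h1 : (single s' 1 - single s 1 : Z.V →₀ ℚ) ∈ Z.toPC.DD (Z.tow n) := by
      refine Z.fdD hB1 hDR hC hH n s s' _ hinf' W ?_
      rintro h ⟨h2, -⟩
      have h3 := hW (PC.KK_gen h2)
      exact (sup_le_sup_left (PC.DD_mono (fun {a b} hab => hRn a b hab)) W) h3
    obtain ⟨h, h4, h5⟩ := hinf'.nonempty
    apply h5
    have h6 : Z.tow n s s' := by
      have h7 := Z.tow_inv n h⁻¹ _ _ (hRn _ _ h4)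
      rwa [inv_smul_smul, inv_smul_smul] at h7
    exact Z.tow_inv (n + 1) h _ _ ⟨h6, h1⟩
  have hsub : {t : Z.V × Z.V | R t.1 t.2 ∧ ¬ Z.tow (n + 1) t.1 t.2} ⊆
      ⋃ s ∈ S, ⋃ s' ∈ {x : Z.V | Z.p x = Z.p s}, (fun h : H => (h • s, h • s')) ''
        {h : H | R (h • s) (h • s') ∧ ¬ Z.tow (n + 1) (h • s) (h • s')} := by
    rintro ⟨x, y⟩ ⟨h1, h2⟩
    obtain ⟨h, s, hs, hx⟩ := hS x
    have h3 : Z.p x = Z.p y := (Z.tow_cong n).fib (hRn x y h1)
    subst hx
    refine Set.mem_biUnion hs (Set.mem_biUnion (x := h⁻¹ • y) ?_ ⟨h, ?_, ?_⟩)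
    · show Z.p (h⁻¹ • y) = Z.p s
      rw [Z.p_smul, ← h3, Z.p_smul, inv_smul_smul]
    · show R (h • s) (h • h⁻¹ • y) ∧ ¬ Z.tow (n + 1) (h • s) (h • h⁻¹ • y)
      rw [smul_inv_smul]
      exact ⟨h1, h2⟩
    · show (h • s, h • h⁻¹ • y) = (h • s, y)
      rw [smul_inv_smul]
  exact Set.Finite.subset (Set.Finite.biUnion S.finite_toSet fun s _ =>
    Set.Finite.biUnion (Z.fib_finite hF _) fun s' _ => (key s s').image _) hsub

end Pool.Agent.H60.CI
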