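import Pool.Agent.H60.CI.Clo

/-!
# Row FcB: passing to a smaller relation with finite difference

`R' ≤ R` equivalence relations on `Z.V`, only finitely many pairs in `R` and not in `R'`,
`KK R ≤ W ⊔ DD R` with `W` finite dimensional; every vertex of `Z` has finitely many outgoing edges
(`hF.out`).  Then `KK R' ≤ W' ⊔ DD R'` with `W'` finite dimensional.

Proof.  `KK R' ≤ KK R ≤ W ⊔ DD R` (`KK_mono`).  `DD R ≤ W₁ ⊔ DD R'` where `W₁` is the span of the
finite set `Q` of all `(single y 1 - single x 1) - (single y' 1 - single x' 1)` with `adj x e y`,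
`adj x' e y'`, `R x x'`, `¬ R' x x'`: a generator of `DD R` with `R' x x'` is in `DD R'`, the other ones
are in `Q`.  `Q` is finite: `(x, x')` ranges over a finite set, for given `(x,x')` the edge `e` ranges over
the finite set `hF.out x`, and `y`, `y'` are determined by `(x, e)`, `(x', e)` (`fun_r`).
`W' := W ⊔ W₁` (finite dimensional: `FiniteDimensional.span_of_finite`, `Submodule.finiteDimensional_sup`).
-/

noncomputable section

set_option linter.unusedVariables false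

namespace Pool.Agent.H60.CI

open Finsupp

variable {B : Cpx}

theorem Im.KK_of_finite (I : Im B) (hout : ∀ x : I.V, {e : B.E | ∃ y, I.adj x e y}.Finite)
    (R R' : Setoid I.V) (hle : ∀ x y, R' x y → R x y)
    (hfin : {t : I.V × I.V | R t.1 t.2 ∧ ¬ R' t.1 t.2}.Finite)
    (W : Submodule ℚ (I.V →₀ ℚ)) [FiniteDimensional ℚ W] (hW : I.toPC.KK R ≤ W ⊔ I.toPC.DD R) :
    ∃ W' : Submodule ℚ (I.V →₀ ℚ), FiniteDimensional ℚ W' ∧
      I.toPC.KK R' ≤ W' ⊔ I.toPC.DD R' := by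
  classical
  set Q : Set (I.V →₀ ℚ) := {z | ∃ x y x' y' e, I.adj x e y ∧ I.adj x' e y' ∧ R x x' ∧
    ¬ R' x x' ∧ z = (single y 1 - single x 1) - (single y' 1 - single x' 1)} with hQdef
  have hQ : Q.Finite := by
    have hsub : Q ⊆ ⋃ t ∈ {t : I.V × I.V | R t.1 t.2 ∧ ¬ R' t.1 t.2},
        ⋃ e ∈ {e : B.E | ∃ y, I.adj t.1 e y},
          {z : I.V →₀ ℚ | ∃ y y', I.adj t.1 e y ∧ I.adj t.2 e y' ∧
            z = (single y 1 - single t.1 1) - (single y' 1 - single t.2 1)} := by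
      rintro z ⟨x, y, x', y', e, h1, h2, h3, h4, rfl⟩
      simp only [Set.mem_iUnion]
      exact ⟨(x, x'), ⟨h3, h4⟩, e, ⟨y, h1⟩, y, y', h1, h2, rfl⟩
    refine Set.Finite.subset (Set.Finite.biUnion hfin fun t _ =>
      Set.Finite.biUnion (hout t.1) fun e _ => ?_) hsub
    refine Set.Subsingleton.finite ?_
    rintro z ⟨y, y', h1, h2, rfl⟩ w ⟨y1, y1', h3, h4, rfl⟩
    rw [I.fun_r h1 h3, I.fun_r h2 h4]
  have hDD : I.toPC.DD R ≤ Submodule.span ℚ Q ⊔ I.toPC.DD R' := by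
    rw [PC.DD, Submodule.span_le]
    rintro z ⟨x, y, x', y', e, h1, h2, h3, rfl⟩
    by_cases h4 : R' x x'
    · exact Submodule.mem_sup_right (PC.DD_gen h1 h2 h4)
    · exact Submodule.mem_sup_left (Submodule.subset_span ⟨x, y, x', y', e, h1, h2, h3, h4, rfl⟩)
  have hfd : FiniteDimensional ℚ (Submodule.span ℚ Q) := FiniteDimensional.span_of_finite ℚ hQ
  refine ⟨W ⊔ Submodule.span ℚ Q, inferInstance, ?_⟩
  have hle' : R' ≤ R := fun {a b} h => hle a b h
  calc I.toPC.KK R' ≤ I.toPC.KK R := PC.KK_mono hle'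
    _ ≤ W ⊔ I.toPC.DD R := hW
    _ ≤ W ⊔ (Submodule.span ℚ Q ⊔ I.toPC.DD R') := sup_le_sup_left hDD W
    _ = (W ⊔ Submodule.span ℚ Q) ⊔ I.toPC.DD R' := (sup_assoc _ _ _).symm

end Pool.Agent.H60.CI
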