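import Pool.Agent.H60.CI.FcA
import Pool.Agent.H60.CI.FcB
import Pool.Agent.H60.CI.Good

/-!
# Row FcC: finite closure

`Z` good, `tow m` trivial, `R` a congruence with `KK R ≤ W ⊔ DD R`, `W` finite dimensional.  Then `R`
has only finitely many pairs `x ≠ y`.

Proof.  `R i := R ⊓ tow i` (meet of setoids).  By induction on `i`:
(a) `KK (R i) ≤ W_i ⊔ DD (R i)` for some finite dimensional `W_i`;
(b) `{t | R t.1 t.2 ∧ ¬ (R i) t.1 t.2}` is finite.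
`i = 0`: `R ≤ ker p = tow 0` (`hR.fib`), so `R 0 = R`.
`i → i+1`: by `pairs_finite` for `R i` and `n = i`, the set `{R i ∧ ¬ tow (i+1)}` is finite; it equals
`{R i ∧ ¬ R (i+1)}`, as `tow (i+1) ≤ tow i`.  `KK_of_finite` gives (a), and
`R ∖ R (i+1) = (R ∖ R i) ∪ (R i ∖ R (i+1))` gives (b).
For `i = m`: `(R m) x y → x = y`, so `{R ∧ x ≠ y} ⊆ {R ∧ ¬ R m}` is finite.
-/

noncomputable section

set_option linter.unusedVariables false

namespace Pool.Agent.H60.CI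

open Finsupp

variable {H : Type} [Group H] {B : HCpx H}

theorem HIm.finite_closure [NoZeroDivisors (MonoidAlgebra ℚ H)] (Z : HIm B) (hB1 : B.H1z)
    (hDR : B.DR) (hG : Z.Good) (m : ℕ) (hm : ∀ x y, Z.tow m x y → x = y)
    (R : Setoid Z.V) (hR : Z.Cong R)
    (W : Submodule ℚ (Z.V →₀ ℚ)) [FiniteDimensional ℚ W] (hW : Z.toPC.KK R ≤ W ⊔ Z.toPC.DD R) :
    {t : Z.V × Z.V | R t.1 t.2 ∧ t.1 ≠ t.2}.Finite := by
  have key : ∀ i : ℕ,
      (∃ W' : Submodule ℚ (Z.V →₀ ℚ), FiniteDimensional ℚ W' ∧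
        Z.toPC.KK (R ⊓ Z.tow i) ≤ W' ⊔ Z.toPC.DD (R ⊓ Z.tow i)) ∧
      {t : Z.V × Z.V | R t.1 t.2 ∧ ¬ (R ⊓ Z.tow i) t.1 t.2}.Finite := by
    intro i
    induction i with
    | zero =>
      have h0 : R ⊓ Z.tow 0 = R := by
        apply le_antisymm inf_le_left
        refine le_inf le_rfl ?_
        intro x y hxy
        exact hR.fib hxy
      rw [h0]
      refine ⟨⟨W, inferInstance, hW⟩, ?_⟩
      have h1 : {t : Z.V × Z.V | R t.1 t.2 ∧ ¬ R t.1 t.2} = ∅ := by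
        ext t
        simp
      rw [h1]
      exact Set.finite_empty
    | succ i ih =>
      obtain ⟨⟨W', hW'fd, hW'⟩, hfin⟩ := ih
      have h1 := Z.pairs_finite hB1 hDR hG.conn hG.fin hG.h1 i (R ⊓ Z.tow i)
        (fun x y h => h.2) W' hW'
      have h2 : {t : Z.V × Z.V | (R ⊓ Z.tow i) t.1 t.2 ∧ ¬ (R ⊓ Z.tow (i + 1)) t.1 t.2}.Finite := by
        refine h1.subset ?_
        rintro t ⟨h3, h4⟩
        exact ⟨h3, fun h5 => h4 ⟨h3.1, h5⟩⟩
      refine ⟨?_, ?_⟩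
      · exact Im.KK_of_finite Z.toIm hG.fin.out (R ⊓ Z.tow i) (R ⊓ Z.tow (i + 1))
          (fun x y h => ⟨h.1, Z.tow_le i h.2⟩) h2 W' hW'
      · refine (hfin.union h2).subset ?_
        rintro t ⟨h3, h4⟩
        by_cases h5 : (R ⊓ Z.tow i) t.1 t.2
        · exact Or.inr ⟨h5, h4⟩
        · exact Or.inl ⟨h3, h5⟩
  refine (key m).2.subset ?_
  rintro t ⟨h3, h4⟩
  exact ⟨h3, fun h5 => h4 (hm _ _ h5.2)⟩

end Pool.Agent.H60.CI
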