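import Pool.Agent.H60.CI.TfA

/-!
# Row TfB: `C_1(Y) / ∂ C_2(Y)` is torsion-free over `ℚH`

* `T2_rL`: if `B` has `H_1 = H_2 = 0` and `ℚH` is a domain, `lam ≠ 0`, then `T2 B (rL lam)`.
  Proof: let `a : EqF (rL lam) B.F` with `B2 a = 0`; `a = hat c` (`hat_surj`);
  `hat (L2 c) = B2 (hat c) = 0` (`hat_mat` with `D = d2`; `lin d2 = L2` is `rfl`), so `L2 c = lam • d`
  (`hat_ker`); `lam • L1 d = L1 (lam • d) = L1 (L2 c) = 0` (`act_lin`, `L1_L2`), so `L1 d = 0`
  (`act_injective` on `B.V`), `d = L2 c'` (`H1z`); `L2 (c - lam • c') = 0` (`act_lin`), `c = lam • c'`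
  (`H2z`) and `a = hat (lam • c') = 0` (`hat_lam`).
* `tf_EE`: if moreover `SS B Y` then `lam • z = L2 c` (`z` a 1-chain of `Y`, `lam ≠ 0`) implies
  `z ∈ range L2`.  Proof: `B2 (hat c) = hat (L2 c) = hat (lam • z) = 0`, so `hat c = 0` by `SS B Y`
  and `T2_rL`; `c = lam • c'` (`hat_ker`); `lam • (z - L2 c') = 0`, so `z = L2 c'` (`act_injective`
  on `Y.E`).
* `fd_EE`: let `e : EE Y` and let `S : Set H` be infinite such that all `qE Y h e`, `h ∈ S`, lie in a
  finite dimensional subspace `W`.  Then `e = 0`.  Proof: `e = [z]`.  Take `finrank W + 1` distinct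
  elements `h_0, h_1, ...` of `S`; the vectors `qE Y (h_i) e` are linearly dependent:
  `Σ a_i qE Y (h_i) e = 0` with some `a_i ≠ 0`; `lam = Σ a_i single h_i 1 ≠ 0` as the `h_i` are
  distinct, and `lam • z ∈ range L2`, so `z ∈ range L2` by `tf_EE`.
-/

noncomputable section

namespace Pool.Agent.H60.CI

open Finsupp

variable {H : Type} [Group H]

theorem T2_rL [NoZeroDivisors (MonoidAlgebra ℚ H)] (B : HCpx H) (hB1 : B.H1z) (hB2 : B.H2z)
    {lam : MonoidAlgebra ℚ H} (hlam : lam ≠ 0) : T2 B (rL lam) := by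
  intro a ha
  obtain ⟨c, rfl⟩ := hat_surj lam B.F a
  have h1 : hat lam B.E (B.L2 c) = 0 := by
    have h2 := hat_mat lam B.d2 B.d2_smul c
    have h3 : EqF.mat (rL lam) B.d2 B.d2_smul (hat lam B.F c) = 0 := ha
    rw [h3] at h2
    exact h2.symm
  obtain ⟨d, hd⟩ := hat_ker lam B.E _ h1
  have h4 : act H B.V lam (B.L1 d) = 0 := by
    have h5 := act_lin lam B.d1 B.d1_smul d
    have h6 : B.L1 (act H B.E lam d) = 0 := by
      rw [hd]
      exact B.L1_L2 c
    exact h5.symm.trans h6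
  have h7 : B.L1 d = 0 := act_injective B.V hlam h4
  obtain ⟨c', hc'⟩ := hB1 d h7
  have h8 : B.L2 (c - act H B.F lam c') = 0 := by
    have h9 : B.L2 (act H B.F lam c') = act H B.E lam (B.L2 c') :=
      act_lin lam B.d2 B.d2_smul c'
    rw [map_sub, h9, hc', hd, sub_self]
  have h10 := hB2 _ h8
  rw [sub_eq_zero.mp h10]
  exact hat_lam lam B.F c'

theorem tf_EE [NoZeroDivisors (MonoidAlgebra ℚ H)] (B Y : HCpx H) (hB1 : B.H1z) (hB2 : B.H2z)
    (hS : SS B Y) {lam : MonoidAlgebra ℚ H} (hlam : lam ≠ 0) (z : Y.E →₀ ℚ) (c : Y.F →₀ ℚ)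
    (h : act H Y.E lam z = Y.L2 c) : ∃ c', Y.L2 c' = z := by
  have h1 : Y.B2 (rL lam) (hat lam Y.F c) = 0 := by
    have h2 : Y.B2 (rL lam) (hat lam Y.F c) = hat lam Y.E (Y.L2 c) :=
      hat_mat lam Y.d2 Y.d2_smul c
    rw [h2, ← h]
    exact hat_lam lam Y.E z
  have h3 := hS _ (rL lam) (T2_rL B hB1 hB2 hlam) _ h1
  obtain ⟨c', hc'⟩ := hat_ker lam Y.F c h3
  refine ⟨c', ?_⟩
  have h4 : act H Y.E lam (z - Y.L2 c') = 0 := by
    have h5 : Y.L2 (act H Y.F lam c') = act H Y.E lam (Y.L2 c') :=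
      act_lin lam Y.d2 Y.d2_smul c'
    rw [map_sub, h, ← h5, hc', sub_self]
  have h6 := act_injective Y.E hlam h4
  exact (sub_eq_zero.mp h6).symm

theorem TfB_act_mk (Y : HCpx H) (lam : MonoidAlgebra ℚ H) (z : Y.E →₀ ℚ) :
    (Submodule.Quotient.mk (act H Y.E lam z) : EE Y)
      = lam.coeff.sum fun h q => q • qE Y h (Submodule.Quotient.mk z) := by
  induction lam using MonoidAlgebra.induction_linear with
  | zero => simp [TfA_act_zero]
  | add f g hf hg =>
    rw [TfA_act_add, LinearMap.add_apply, Submodule.Quotient.mk_add, hf, hg,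
      MonoidAlgebra.coeff_add, Finsupp.sum_add_index' (by simp) (by intros; rw [add_smul])]
  | single h q =>
    rw [TfA_act_single, LinearMap.smul_apply, Submodule.Quotient.mk_smul,
      MonoidAlgebra.coeff_single, Finsupp.sum_single_index (by simp)]
    rfl

theorem fd_EE [NoZeroDivisors (MonoidAlgebra ℚ H)] (B Y : HCpx H) (hB1 : B.H1z) (hB2 : B.H2z)
    (hS : SS B Y) (e : EE Y) (S : Set H) (hSinf : S.Infinite) (W : Submodule ℚ (EE Y))
    [FiniteDimensional ℚ W] (hW : ∀ h ∈ S, qE Y h e ∈ W) : e = 0 := by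
  obtain ⟨z, rfl⟩ := Submodule.Quotient.mk_surjective _ e
  have hinf : Infinite S := hSinf.to_subtype
  let v : S → W := fun h => ⟨qE Y h.1 (Submodule.Quotient.mk z), hW h.1 h.2⟩
  have hnot : ¬ LinearIndependent ℚ v := by
    intro hli
    have h1 : Finite S := hli.finite
    exact not_finite S
  have hne : ∃ l : S →₀ ℚ, Finsupp.linearCombination ℚ v l = 0 ∧ l ≠ 0 := by
    by_contra hcon
    apply hnot
    rw [linearIndependent_iff]
    intro l hl
    by_contra hl0
    exact hcon ⟨l, hl, hl0⟩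
  obtain ⟨l, hl, hl0⟩ := hne
  let lam : MonoidAlgebra ℚ H := MonoidAlgebra.ofCoeff (l.mapDomain Subtype.val)
  have hco : lam.coeff = l.mapDomain Subtype.val := rfl
  have hlam : lam ≠ 0 := by
    intro h0
    apply hl0
    have h1 : l.mapDomain Subtype.val = 0 := by
      rw [← hco, h0]
      rfl
    exact (Finsupp.mapDomain_injective Subtype.val_injective)
      (h1.trans Finsupp.mapDomain_zero.symm)
  have hz : (Submodule.Quotient.mk (act H Y.E lam z) : EE Y) = 0 := by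
    rw [TfB_act_mk, hco, Finsupp.sum_mapDomain_index (by simp) (by intros; rw [add_smul])]
    have h1 := congrArg W.subtype hl
    rw [Finsupp.linearCombination_apply, Finsupp.sum, map_sum, map_zero] at h1
    rw [Finsupp.sum, ← h1]
    refine Finset.sum_congr rfl fun x _ => ?_
    rw [map_smul]
    rfl
  rw [Submodule.Quotient.mk_eq_zero] at hz
  obtain ⟨c, hc⟩ := hz
  rw [Submodule.Quotient.mk_eq_zero]
  exact tf_EE B Y hB1 hB2 hS hlam z c hc.symm

end Pool.Agent.H60.CI
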