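import Pool.Agent.H60.CI.TowS
import Pool.Agent.H60.CI.TfB

/-!
# Row FdD: translates of a difference in a finite dimensional space

`Z : HIm B` connected with `H_1 = 0`, `n` a level of the tower, `R = Z.tow n`, `Z.tow n x y`.  If the
translates `perm h (y - x)` by an infinite set of `h ∈ H` lie in `W ⊔ DD R` with `W` finite dimensional,
then `y - x ∈ DD R`.

Proof.  Let `Λ = Z.lam R ..`, defined on `range L1`, `ker Λ = DD R` (`lam_eq_zero`).
`e = Λ (y - x)`.  For `h ∈ S`: `perm h (y - x) = w + d` with `w ∈ W`, `d ∈ DD R ≤ range L1` (a generator of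
`DD R` is `L1 (single ε 1 - single ε' 1)`), so `w ∈ W ⊓ range L1` and
`qE h e = Λ (perm h (y - x)) = Λ w` (`lam_perm`), which lies in the finite dimensional space
`W' = (W.comap (range L1).subtype).map Λ`.  By `fd_EE` (with `SS_Yn`, `H2z` of `B` from `DR`),
`e = 0`, so `y - x ∈ DD R`.
-/

noncomputable section

set_option linter.unusedVariables false

namespace Pool.Agent.H60.CI

open Finsupp

variable {H : Type} [Group H] {B : HCpx H}

theorem HIm.fdD [NoZeroDivisors (MonoidAlgebra ℚ H)] (Z : HIm B) (hB1 : B.H1z) (hDR : B.DR)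
    (hC : Z.toHCpx.Conn) (hH : Z.toHCpx.H1z) (n : ℕ) (x y : Z.V)
    (S : Set H) (hS : S.Infinite) (W : Submodule ℚ (Z.V →₀ ℚ)) [FiniteDimensional ℚ W]
    (hW : ∀ h ∈ S, (single (h • y) 1 - single (h • x) 1 : Z.V →₀ ℚ) ∈ W ⊔ Z.toPC.DD (Z.tow n)) :
    (single y 1 - single x 1 : Z.V →₀ ℚ) ∈ Z.toPC.DD (Z.tow n) := by
  have hSS : SS B (Z.quo (Z.tow n) (Z.tow_cong n) (Z.tow_inv n)).toHCpx := Z.SS_Yn hB1 hDR hC hH n
  have hB2 : B.H2z := H2z_of_DR hDR
  have hDDle : Z.toPC.DD (Z.tow n) ≤ LinearMap.range Z.toHCpx.L1 := by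
    rw [PC.DD, Submodule.span_le]
    rintro _ ⟨a, b, a', b', e, -, -, -, rfl⟩
    exact Submodule.sub_mem _ (Z.diff_mem hC a b) (Z.diff_mem hC a' b')
  let Λ := Z.lam (Z.tow n) (Z.tow_cong n) (Z.tow_inv n)
  let v0 : LinearMap.range Z.toHCpx.L1 := ⟨single y 1 - single x 1, Z.diff_mem hC x y⟩
  have hperm : ∀ h : H, perm H Z.V h (v0 : Z.V →₀ ℚ) = single (h • y) 1 - single (h • x) 1 := by
    intro h
    show perm H Z.V h (single y 1 - single x 1) = _
    rw [map_sub, perm_single, perm_single]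
  let W1 : Submodule ℚ (LinearMap.range Z.toHCpx.L1) := W.comap (LinearMap.range Z.toHCpx.L1).subtype
  have hfin1 : FiniteDimensional ℚ W1 := by
    let f : W1 →ₗ[ℚ] W :=
      { toFun := fun v => ⟨(v.1 : Z.V →₀ ℚ), v.2⟩
        map_add' := fun _ _ => rfl
        map_smul' := fun _ _ => rfl }
    have hf : Function.Injective f := by
      intro a b hab
      apply Subtype.ext
      apply Subtype.ext
      exact congrArg (fun u : W => (u : Z.V →₀ ℚ)) hab
    exact Module.Finite.of_injective f hf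
  have hfin2 : FiniteDimensional ℚ (W1.map Λ) := inferInstance
  have hmain : ∀ h ∈ S, qE (Z.quo (Z.tow n) (Z.tow_cong n) (Z.tow_inv n)).toHCpx h (Λ v0) ∈ W1.map Λ := by
    intro h hh
    obtain ⟨w, hw, d, hd, hwd⟩ := Submodule.mem_sup.1 (hW h hh)
    rw [← hperm h] at hwd
    have hdr := hDDle hd
    have hwr : w ∈ LinearMap.range Z.toHCpx.L1 := by
      have h1 : w = perm H Z.V h (v0 : Z.V →₀ ℚ) - d := by
        rw [← hwd, add_sub_cancel_right]
      rw [h1]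
      exact Submodule.sub_mem _ (Z.perm_range h v0) hdr
    have h2 : Λ ⟨d, hdr⟩ = 0 := (Z.lam_eq_zero (Z.tow n) (Z.tow_cong n) (Z.tow_inv n) hH ⟨d, hdr⟩).2 hd
    have h3 : qE (Z.quo (Z.tow n) (Z.tow_cong n) (Z.tow_inv n)).toHCpx h (Λ v0) = Λ ⟨w, hwr⟩ := by
      rw [← Z.lam_perm (Z.tow n) (Z.tow_cong n) (Z.tow_inv n) hH h v0]
      have h4 : (⟨perm H Z.V h (v0 : Z.V →₀ ℚ), Z.perm_range h v0⟩ : LinearMap.range Z.toHCpx.L1)
          = ⟨w, hwr⟩ + ⟨d, hdr⟩ := Subtype.ext hwd.symm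
      rw [h4]
      show Λ _ = _
      rw [map_add, h2, add_zero]
    rw [h3]
    exact ⟨⟨w, hwr⟩, hw, rfl⟩
  have he := fd_EE B (Z.quo (Z.tow n) (Z.tow_cong n) (Z.tow_inv n)).toHCpx hB1 hB2 hSS (Λ v0) S hS
    (W1.map Λ) hmain
  exact (Z.lam_eq_zero (Z.tow n) (Z.tow_cong n) (Z.tow_inv n) hH v0).1 he

end Pool.Agent.H60.CI
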