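import Pool.Agent.H60.CI.Min
import Pool.Agent.H60.CI.FcC
import Pool.Agent.H60.CI.Hz
import Pool.Agent.H62.CI.ThmA

/-!
# The finite closure theorem
-/

noncomputable section

set_option linter.unusedVariables false

namespace Pool.Agent.H60.CI

theorem finClo : FinClo := by
  intro H _ B hC hSC hDR hnz Z hG hmin R hR hS
  obtain ⟨S, hS, hle⟩ := hS
  haveI := hnz
  obtain ⟨m, hm⟩ := Z.tow_eq_bot hG hmin
  haveI : FiniteDimensional ℚ (Submodule.span ℚ S) := FiniteDimensional.span_of_finite ℚ hS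
  have h := Z.finite_closure (H1z_of_LolliSC hC hSC) hDR hG m hm R hR (Submodule.span ℚ S)
    (by rwa [sup_comm])
  refine (h.image Prod.fst).subset ?_
  rintro x ⟨y, hne, hxy⟩
  exact ⟨(x, y), ⟨hxy, hne.symm⟩, rfl⟩

theorem thmA : Pool.Agent.H50.CI.ThmA := thmA_of_finClo finClo

end Pool.Agent.H60.CI
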