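import Pool.Agent.H50.CI.U0

/-!
# Immersed complexes as 2-complexes; morphisms; quotients by congruences
-/

noncomputable section

set_option linter.unusedVariables false

namespace Pool.Agent.H60.CI

namespace PC

variable {B : Cpx} (D : PC B)

/-- source of an edge of `D` -/
def esrc (ε : D.Edg) : D.V := ε.1.1
/-- target of an edge of `D` -/
def etgt (ε : D.Edg) : D.V := ε.1.2.2
/-- image in `B` -/
def epr (ε : D.Edg) : B.E := ε.1.2.1
/-- base vertex of a mark -/
def mbase (τ : D.Mks) : D.V := τ.1.1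
/-- image in `B` -/
def mpr (τ : D.Mks) : B.F := τ.1.2

theorem edg_ext {ε ε' : D.Edg} (h1 : D.esrc ε = D.esrc ε') (h2 : D.epr ε = D.epr ε')
    (h3 : D.etgt ε = D.etgt ε') : ε = ε' :=
  Subtype.ext (Prod.ext h1 (Prod.ext h2 h3))

theorem mks_ext {τ τ' : D.Mks} (h1 : D.mbase τ = D.mbase τ') (h2 : D.mpr τ = D.mpr τ') : τ = τ' :=
  Subtype.ext (Prod.ext h1 h2)

theorem W_append {x z : D.V} {w w' : List (B.E × Bool)} :
    D.W x (w ++ w') z ↔ ∃ y, D.W x w y ∧ D.W y w' z := by
  induction w generalizing x with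
  | nil => simp [W]
  | cons a w ih =>
    simp only [List.cons_append, W, ih]
    constructor
    · rintro ⟨y, h, z', h1, h2⟩; exact ⟨z', ⟨y, h, h1⟩, h2⟩
    · rintro ⟨y, ⟨y', h, h1⟩, h2⟩; exact ⟨y', h, y, h1, h2⟩

theorem W_single {x y : D.V} {a : B.E × Bool} : D.W x [a] y ↔ D.oadj x a y := by
  simp [W]

theorem W_append_single {x z : D.V} {w : List (B.E × Bool)} {a : B.E × Bool} :
    D.W x (w ++ [a]) z ↔ ∃ y, D.W x w y ∧ D.oadj y a z := by
  simp only [W_append, W_single]

theorem oadj_inv {x y : D.V} {e : B.E} {b : Bool} : D.oadj x (e, b) y ↔ D.oadj y (e, !b) x := by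
  cases b <;> simp [oadj]

/-- an edge path of `D` projects to a word which lifts -/
theorem W_of_walk {x y : D.V} {L : List (D.Edg × Bool)} (h : IsWalk D.esrc D.etgt x L y) :
    D.W x (L.map (Prod.map D.epr id)) y := by
  induction L generalizing x with
  | nil => exact h
  | cons a L ih =>
    obtain ⟨h1, h2⟩ := h
    refine ⟨_, ?_, ih h2⟩
    obtain ⟨⟨⟨u, e, v⟩, hε⟩, b⟩ := a
    cases b
    · simpa [oadj, oS, oT, esrc, etgt, epr, ← h1] using hε
    · simpa [oadj, oS, oT, esrc, etgt, epr, ← h1] using hε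

/-- a word which lifts gives an edge path -/
theorem exists_walk {x y : D.V} {w : List (B.E × Bool)} (h : D.W x w y) :
    ∃ L : List (D.Edg × Bool), IsWalk D.esrc D.etgt x L y ∧ L.map (Prod.map D.epr id) = w := by
  induction w generalizing x with
  | nil => exact ⟨[], h, rfl⟩
  | cons a w ih =>
    obtain ⟨z, h1, h2⟩ := h
    obtain ⟨L, hL, hL'⟩ := ih h2
    obtain ⟨e, b⟩ := a
    cases b
    · have h1' : D.adj z e x := by simpa [oadj] using h1
      refine ⟨(⟨(z, e, x), h1'⟩, false) :: L, ⟨rfl, hL⟩, ?_⟩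
      rw [List.map_cons, hL']
      rfl
    · have h1' : D.adj x e z := by simpa [oadj] using h1
      refine ⟨(⟨(x, e, z), h1'⟩, true) :: L, ⟨rfl, hL⟩, ?_⟩
      rw [List.map_cons, hL']
      rfl

theorem p_W {x y : D.V} {w : List (B.E × Bool)} (h : D.W x w y) :
    B.Walk (D.p x) w (D.p y) := by
  induction w generalizing x with
  | nil => exact congrArg D.p h
  | cons a w ih =>
    obtain ⟨z, h1, h2⟩ := h
    have : IsWalk B.src B.tgt (D.p z) w (D.p y) := ih h2
    obtain ⟨e, b⟩ := a
    cases b
    · have h1' : D.adj z e x := by simpa [oadj] using h1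
      refine ⟨by simp [oS, D.adj_tgt h1'], ?_⟩
      simpa [oT, D.adj_src h1'] using this
    · have h1' : D.adj x e z := by simpa [oadj] using h1
      refine ⟨by simp [oS, D.adj_src h1'], ?_⟩
      simpa [oT, D.adj_tgt h1'] using this

/-- morphisms of precomplexes over `B` -/
structure Mor (D D' : PC B) where
  f : D.V → D'.V
  p_f : ∀ x, D'.p (f x) = D.p x
  adj_f : ∀ {x e y}, D.adj x e y → D'.adj (f x) e (f y)
  mark_f : ∀ {x σ}, D.mark x σ → D'.mark (f x) σ

theorem Mor.W {D D' : PC B} (m : Mor D D') {x y : D.V} {w : List (B.E × Bool)} (h : D.W x w y) :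
    D'.W (m.f x) w (m.f y) := by
  induction w generalizing x with
  | nil => exact congrArg m.f h
  | cons a w ih =>
    obtain ⟨z, h1, h2⟩ := h
    refine ⟨m.f z, ?_, ih h2⟩
    obtain ⟨e, b⟩ := a
    cases b
    · have h1' : D.adj z e x := by simpa [oadj] using h1
      simpa [oadj] using m.adj_f h1'
    · have h1' : D.adj x e z := by simpa [oadj] using h1
      simpa [oadj] using m.adj_f h1'

/-- the map on edges -/
def Mor.fe {D D' : PC B} (m : Mor D D') (ε : D.Edg) : D'.Edg :=
  ⟨(m.f ε.1.1, ε.1.2.1, m.f ε.1.2.2), m.adj_f ε.2⟩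

/-- the map on marks -/
def Mor.fm {D D' : PC B} (m : Mor D D') (τ : D.Mks) : D'.Mks :=
  ⟨(m.f τ.1.1, τ.1.2), m.mark_f τ.2⟩

end PC

namespace Im

variable {B : Cpx} (I : Im B)

theorem oadj_fun {x y y' : I.V} {a : B.E × Bool} (h : I.oadj x a y) (h' : I.oadj x a y') :
    y = y' := by
  obtain ⟨e, b⟩ := a
  cases b
  · have h1 : I.adj y e x := by simpa [PC.oadj] using h
    have h2 : I.adj y' e x := by simpa [PC.oadj] using h'
    exact I.fun_l h1 h2
  · have h1 : I.adj x e y := by simpa [PC.oadj] using h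
    have h2 : I.adj x e y' := by simpa [PC.oadj] using h'
    exact I.fun_r h1 h2

theorem W_fun {x y y' : I.V} {w : List (B.E × Bool)} (h : I.W x w y) (h' : I.W x w y') :
    y = y' := by
  induction w generalizing x with
  | nil => exact h.symm.trans h'
  | cons a w ih =>
    obtain ⟨z, h1, h2⟩ := h
    obtain ⟨z', h1', h2'⟩ := h'
    obtain rfl := I.oadj_fun h1 h1'
    exact ih h2 h2'

/-- unique lifting of edge paths -/
theorem walk_unique {x y y' : I.V} {L L' : List (I.Edg × Bool)}
    (h : IsWalk I.esrc I.etgt x L y) (h' : IsWalk I.esrc I.etgt x L' y')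
    (hp : L.map (Prod.map I.epr id) = L'.map (Prod.map I.epr id)) : L = L' := by
  induction L generalizing x L' with
  | nil =>
    cases L' with
    | nil => rfl
    | cons a L' => simp at hp
  | cons a L ih =>
    cases L' with
    | nil => simp at hp
    | cons a' L' =>
      simp only [List.map_cons, List.cons.injEq] at hp
      obtain ⟨hp1, hp2⟩ := hp
      obtain ⟨h1, h2⟩ := h
      obtain ⟨h1', h2'⟩ := h'
      have ha : a = a' := by
        obtain ⟨ε, b⟩ := a
        obtain ⟨ε', b'⟩ := a'
        simp only [Prod.map_apply, id_eq, Prod.mk.injEq] at hp1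
        obtain ⟨he, rfl⟩ := hp1
        cases b
        · simp only [oS, Bool.false_eq_true, if_false] at h1 h1'
          have h3 : I.etgt ε = I.etgt ε' := h1.trans h1'.symm
          have h4 : I.esrc ε = I.esrc ε' := by
            have e1 : I.adj (I.esrc ε) (I.epr ε) (I.etgt ε) := ε.2
            have e2 : I.adj (I.esrc ε') (I.epr ε') (I.etgt ε') := ε'.2
            rw [← he, ← h3] at e2
            exact I.fun_l e1 e2
          rw [I.edg_ext h4 he h3]
        · simp only [oS, if_true] at h1 h1'
          have h3 : I.esrc ε = I.esrc ε' := h1.trans h1'.symm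
          have h4 : I.etgt ε = I.etgt ε' := by
            have e1 : I.adj (I.esrc ε) (I.epr ε) (I.etgt ε) := ε.2
            have e2 : I.adj (I.esrc ε') (I.epr ε') (I.etgt ε') := ε'.2
            rw [← he, ← h3] at e2
            exact I.fun_r e1 e2
          rw [I.edg_ext h3 he h4]
      subst ha
      rw [ih h2 h2' hp2]

/-- the boundary word of a mark -/
def bdw (τ : I.Mks) : List (I.Edg × Bool) := (I.exists_walk (I.mark_walk τ.2)).choose

theorem bdw_walk (τ : I.Mks) : IsWalk I.esrc I.etgt (I.mbase τ) (I.bdw τ) (I.mbase τ) :=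
  (I.exists_walk (I.mark_walk τ.2)).choose_spec.1

theorem bdw_map (τ : I.Mks) : (I.bdw τ).map (Prod.map I.epr id) = B.bd (I.mpr τ) :=
  (I.exists_walk (I.mark_walk τ.2)).choose_spec.2

/-- an immersed complex as a 2-complex -/
abbrev toCpx : Cpx where
  V := I.V
  E := I.Edg
  F := I.Mks
  src := I.esrc
  tgt := I.etgt
  base := I.mbase
  bd := I.bdw
  bd_walk := I.bdw_walk

/-- the immersion -/
def hom : Cpx.Hom I.toCpx B where
  v := I.p
  e := I.epr
  f := I.mpr
  src_v := fun ε => (I.adj_src ε.2).symm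
  tgt_v := fun ε => (I.adj_tgt ε.2).symm
  base_v := fun τ => (I.mark_base τ.2).symm
  bd_e := fun τ => (I.bdw_map τ).symm

theorem hom_isImm : I.hom.IsImm where
  src_inj := by
    intro ε ε' h h'
    refine I.edg_ext h h' ?_
    have e1 : I.adj (I.esrc ε) (I.epr ε) (I.etgt ε) := ε.2
    have e2 : I.adj (I.esrc ε') (I.epr ε') (I.etgt ε') := ε'.2
    have h'' : I.epr ε = I.epr ε' := h'
    have h3 : I.esrc ε = I.esrc ε' := h
    rw [← h'', ← h3] at e2
    exact I.fun_r e1 e2
  tgt_inj := by
    intro ε ε' h h'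
    refine I.edg_ext ?_ h' h
    have e1 : I.adj (I.esrc ε) (I.epr ε) (I.etgt ε) := ε.2
    have e2 : I.adj (I.esrc ε') (I.epr ε') (I.etgt ε') := ε'.2
    have h'' : I.epr ε = I.epr ε' := h'
    have h3 : I.etgt ε = I.etgt ε' := h
    rw [← h'', ← h3] at e2
    exact I.fun_l e1 e2
  face_inj := fun τ τ' h h' => I.mks_ext h h'

theorem W_iff_walk {x y : I.V} {w : List (B.E × Bool)} :
    I.W x w y ↔ ∃ L : List (I.Edg × Bool), I.toCpx.Walk x L y ∧ L.map (Prod.map I.epr id) = w := by
  constructor
  · exact I.exists_walk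
  · rintro ⟨L, hL, rfl⟩
    exact I.W_of_walk hL

end Im

theorem isWalk_map {V E V' E' : Type} {src tgt : E → V} {src' tgt' : E' → V'} (f : V → V')
    (g : E → E') (hs : ∀ e, src' (g e) = f (src e)) (ht : ∀ e, tgt' (g e) = f (tgt e))
    {x y : V} {w : List (E × Bool)} (h : IsWalk src tgt x w y) :
    IsWalk src' tgt' (f x) (w.map (Prod.map g id)) (f y) := by
  induction w generalizing x with
  | nil => exact congrArg f h
  | cons a w ih =>
    obtain ⟨h1, h2⟩ := h
    obtain ⟨e, b⟩ := a
    cases b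
    · refine ⟨?_, ?_⟩
      · rw [← h1]; simp [oS, ht]
      · have := ih h2
        simpa [oT, hs] using this
    · refine ⟨?_, ?_⟩
      · rw [← h1]; simp [oS, hs]
      · have := ih h2
        simpa [oT, ht] using this

namespace PC.Mor

variable {B : Cpx}

/-- the cellular map of a morphism of immersed complexes -/
def hom {I J : Im B} (m : PC.Mor I.toPC J.toPC) : Cpx.Hom I.toCpx J.toCpx where
  v := m.f
  e := m.fe
  f := m.fm
  src_v := fun _ => rfl
  tgt_v := fun _ => rfl
  base_v := fun _ => rfl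
  bd_e := by
    intro τ
    refine J.walk_unique (J.bdw_walk (m.fm τ)) (y' := m.f (I.mbase τ)) ?_ ?_
    · exact isWalk_map m.f m.fe (fun _ => rfl) (fun _ => rfl) (I.bdw_walk τ)
    · change (J.bdw (m.fm τ)).map (Prod.map J.epr id)
        = ((I.bdw τ).map (Prod.map m.fe id)).map (Prod.map J.epr id)
      rw [J.bdw_map, List.map_map]
      exact (I.bdw_map τ).symm

theorem hom_isImm {I J : Im B} (m : PC.Mor I.toPC J.toPC) : m.hom.IsImm where
  src_inj := fun ε ε' h h' => I.hom_isImm.src_inj ε ε' h (congrArg J.epr h')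
  tgt_inj := fun ε ε' h h' => I.hom_isImm.tgt_inj ε ε' h (congrArg J.epr h')
  face_inj := fun τ τ' h h' => I.mks_ext h (congrArg J.mpr h')

end PC.Mor

section quotient

variable {B : Cpx}

/-- quotient of a precomplex by a congruence such that the marks close up -/
def PC.quo (D : PC B) (R : Setoid D.V) (hR : D.Cong R)
    (hcl : ∀ {x σ}, D.mark x σ → ∃ y, D.W x (B.bd σ) y ∧ R x y) : Im B where
  V := Quotient R
  p := Quotient.lift D.p (fun _ _ h => hR.fib h)
  adj := fun a e b => ∃ x y, Quotient.mk R x = a ∧ Quotient.mk R y = b ∧ D.adj x e y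
  mark := fun a σ => ∃ x, Quotient.mk R x = a ∧ D.mark x σ
  adj_src := by
    rintro a e b ⟨x, y, rfl, rfl, h⟩
    exact D.adj_src h
  adj_tgt := by
    rintro a e b ⟨x, y, rfl, rfl, h⟩
    exact D.adj_tgt h
  mark_base := by
    rintro a σ ⟨x, rfl, h⟩
    exact D.mark_base h
  fun_r := by
    rintro a e b b' ⟨x, y, rfl, rfl, h⟩ ⟨x', y', h1, rfl, h'⟩
    exact Quotient.sound (hR.fwd h h' (Quotient.exact h1.symm))
  fun_l := by
    rintro a a' e b ⟨x, y, rfl, rfl, h⟩ ⟨x', y', rfl, h1, h'⟩
    exact Quotient.sound (hR.bwd h h' (Quotient.exact h1.symm))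
  mark_walk := by
    rintro a σ ⟨x, rfl, h⟩
    obtain ⟨y, hy, hxy⟩ := hcl h
    have key : ∀ (w : List (B.E × Bool)) (x y : D.V), D.W x w y →
        PC.W { V := Quotient R
               p := Quotient.lift D.p (fun _ _ h => hR.fib h)
               adj := fun a e b => ∃ x y, Quotient.mk R x = a ∧ Quotient.mk R y = b ∧ D.adj x e y
               mark := fun a σ => ∃ x, Quotient.mk R x = a ∧ D.mark x σ
               adj_src := by
                rintro a e b ⟨x, y, rfl, rfl, h⟩
                exact D.adj_src h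
               adj_tgt := by
                rintro a e b ⟨x, y, rfl, rfl, h⟩
                exact D.adj_tgt h
               mark_base := by
                rintro a σ ⟨x, rfl, h⟩
                exact D.mark_base h } (Quotient.mk R x) w (Quotient.mk R y) := by
      intro w
      induction w with
      | nil => rintro x y rfl; rfl
      | cons a w ih =>
        rintro x y ⟨z, h1, h2⟩
        refine ⟨Quotient.mk R z, ?_, ih z y h2⟩
        obtain ⟨e, b⟩ := a
        cases b
        · have h1' : D.adj z e x := by simpa [PC.oadj] using h1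
          simp only [PC.oadj, Bool.false_eq_true, if_false]
          exact ⟨z, x, rfl, rfl, h1'⟩
        · have h1' : D.adj x e z := by simpa [PC.oadj] using h1
          simp only [PC.oadj, if_true]
          exact ⟨x, z, rfl, rfl, h1'⟩
    have := key _ _ _ hy
    rwa [show Quotient.mk R y = Quotient.mk R x from (Quotient.sound hxy).symm] at this

/-- the projection to the quotient -/
def PC.quoMor (D : PC B) (R : Setoid D.V) (hR : D.Cong R)
    (hcl : ∀ {x σ}, D.mark x σ → ∃ y, D.W x (B.bd σ) y ∧ R x y) :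
    PC.Mor D (D.quo R hR hcl).toPC where
  f := Quotient.mk R
  p_f := fun _ => rfl
  adj_f := fun h => ⟨_, _, rfl, rfl, h⟩
  mark_f := fun h => ⟨_, rfl, h⟩

/-- quotient of an immersed complex by a congruence -/
def Im.quo (I : Im B) (R : Setoid I.V) (hR : I.Cong R) : Im B :=
  I.toPC.quo R hR (fun h => ⟨_, I.mark_walk h, R.refl _⟩)

/-- the projection to the quotient -/
def Im.quoMor (I : Im B) (R : Setoid I.V) (hR : I.Cong R) :
    PC.Mor I.toPC (I.quo R hR).toPC :=
  I.toPC.quoMor R hR (fun h => ⟨_, I.mark_walk h, R.refl _⟩)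

end quotient

end Pool.Agent.H60.CI
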