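import Mathlib

/-!
# Iterated central extensions by rational vector spaces
-/

namespace Pool.Agent.H60.CI

/-- groups obtained from the trivial group by finitely many central extensions by rational vector
spaces: the kernel of `π : U → Q` is central and is identified by `φ` with the subspace `V` of `W` -/
inductive TFN : ∀ (U : Type) [Group U], Prop
  | triv (U : Type) [Group U] (h : ∀ u : U, u = 1) : TFN U
  | ext (U Q : Type) [Group U] [Group Q] (π : U →* Q) (hπ : Function.Surjective π)
      (W : Type) [AddCommGroup W] [Module ℚ W] (V : Submodule ℚ W) (φ : U → W)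
      (h1 : ∀ u, π u = 1 → φ u ∈ V) (h2 : ∀ v ∈ V, ∃ u, π u = 1 ∧ φ u = v)
      (h3 : ∀ u u', π u = 1 → π u' = 1 → φ (u * u') = φ u + φ u')
      (h4 : ∀ u, π u = 1 → φ u = 0 → u = 1) (h5 : ∀ u u', π u = 1 → u * u' = u' * u)
      (hQ : TFN Q) : TFN U

end Pool.Agent.H60.CI
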