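import Pool.Agent.H60.CI.Coh
import Pool.Agent.H60.CI.Tfn

/-!
# Row UL: homomorphisms to iterated central extensions extend up to gauge

Induction on `hU : TFN U` (all of `Y Y' g M I2` fixed, `ρ` varying).
* `triv`: `ρ' = 1`, `θ = 1`; everything equals `1`.
* `ext`: `π : U → Q`, kernel central, identified by `φ` with `V ≤ W`.  Choose `i : V → U` with `π (i v) = 1`,
  `φ (i v) = v`; by `h3`, `h4`: `i (v + v') = i v * i v'` (both lie in the kernel and have the same `φ`; `φ` is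
  injective on the kernel: `φ u = φ u'` gives `φ (u * u'⁻¹) = 0`, note `φ 1 = 0` and `φ (u⁻¹) = - φ u` on the
  kernel), and every kernel element `u` is `i ⟨φ u, _⟩`.
  `key`: for homomorphisms `α β : FreeGroup E →* U` and `c : E → V` with `β (of e) = α (of e) * i (c e)` for
  all `e` we have `β (mk w) = α (mk w) * i (vsum c w)` for all words `w` (induction on `w`, centrality).
  1. Apply the induction hypothesis to `π ∘ ρ`: `ρq : FreeGroup Y'.E →* Q`, `θq : Y.V → Q`.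
  2. Choose `α : FreeGroup Y'.E →* U` with `π (α (of e)) = ρq (of e)` (`FreeGroup.lift` of a choice of
     preimages), so `π ∘ α = ρq` (`FreeGroup.ext_hom`), and `θ0 : Y.V → U` over `θq`.
  3. For `σ ∈ I2`: `π (α (mk (bd σ))) = 1`, so `α (mk (bd σ)) = i (a σ)`; `a σ := 0` for `σ ∉ I2`.
     `coh2` with values in `V`: `c : Y'.E → V` with `vsum c (bd σ) = - a σ`.
     `α1 := FreeGroup.lift (fun e => α (of e) * i (c e))`; by `key` `α1 (mk (bd σ)) = 1` for `σ ∈ I2`, and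
     `π ∘ α1 = ρq`.
  4. `β := FreeGroup.lift (fun e => (θ0 (src e))⁻¹ * α1 (of (g.e e)) * θ0 (tgt e))` on `FreeGroup Y.E`.
     `π (β (of e)) = π (ρ (of e))`, so `ρ (of e) = β (of e) * i (δ e)` with `δ : Y.E → V`.
     Lemma (`gauge_walk` below) for `β`, `α1`, `θ0`: along a closed walk `bd τ` at `base τ`:
     `β (mk (bd τ)) = (θ0 (base τ))⁻¹ * α1 (mk (bd (g.f τ))) * θ0 (base τ)`.  For `τ ∈ M`, `g.f τ ∈ I2` so this is
     `1`; `key` gives `1 = ρ (mk (bd τ)) = i (vsum δ (bd τ))`, so `vsum δ (bd τ) = 0`.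
  5. `coh1` gives `b' : Y'.E → V`, `ϑ : Y.V → V` with `δ e = b' (g.e e) + ϑ (tgt e) - ϑ (src e)` and
     `vsum b' (bd σ) = 0` on `I2`.  Put `ρ' := FreeGroup.lift (fun e => α1 (of e) * i (b' e))`,
     `θ x := θ0 x * i (ϑ x)`.  `key` and centrality of the `i v` give the claim.
-/

noncomputable section

set_option linter.unusedVariables false

namespace Pool.Agent.H60.CI

/-- gauge relation along a walk -/
theorem gauge_walk {Y Y' : Cpx} (g : Cpx.Hom Y Y') {U : Type} [Group U]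
    (ρ : FreeGroup Y.E →* U) (ρ' : FreeGroup Y'.E →* U) (θ : Y.V → U)
    (h : ∀ e, ρ (FreeGroup.of e) =
      (θ (Y.src e))⁻¹ * ρ' (FreeGroup.of (g.e e)) * θ (Y.tgt e))
    {x y : Y.V} {w : List (Y.E × Bool)} (hw : Y.Walk x w y) :
    ρ (FreeGroup.mk w) =
      (θ x)⁻¹ * ρ' (FreeGroup.mk (w.map (Prod.map g.e id))) * θ y := by
  induction w generalizing x with
  | nil =>
    have hxy : x = y := hw
    subst hxy
    have h1 : (FreeGroup.mk [] : FreeGroup Y.E) = 1 := rfl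
    have h2 : (FreeGroup.mk (List.map (Prod.map g.e id) ([] : List (Y.E × Bool))) :
      FreeGroup Y'.E) = 1 := rfl
    rw [h1, h2, map_one, map_one, mul_one, inv_mul_cancel]
  | cons a w ih =>
    obtain ⟨e, b⟩ := a
    obtain ⟨h1, h2⟩ := hw
    have h3 := ih h2
    have h4 : (FreeGroup.mk ((e, b) :: w) : FreeGroup Y.E) =
        FreeGroup.mk [(e, b)] * FreeGroup.mk w := by
      rw [FreeGroup.mul_mk]
      rfl
    have h5 : (FreeGroup.mk (List.map (Prod.map g.e id) ((e, b) :: w)) : FreeGroup Y'.E) =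
        FreeGroup.mk [(g.e e, b)] * FreeGroup.mk (w.map (Prod.map g.e id)) := by
      rw [FreeGroup.mul_mk]
      rfl
    rw [h4, h5, map_mul, map_mul, h3]
    cases b
    · have h6 : (FreeGroup.mk [(e, false)] : FreeGroup Y.E) = (FreeGroup.of e)⁻¹ := rfl
      have h7 : (FreeGroup.mk [(g.e e, false)] : FreeGroup Y'.E) = (FreeGroup.of (g.e e))⁻¹ := rfl
      have h8 : Y.tgt e = x := h1
      have h9 : oT Y.src Y.tgt (e, false) = Y.src e := rfl
      rw [h6, h7, map_inv, map_inv, h e, ← h8, h9]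
      group
    · have h6 : (FreeGroup.mk [(e, true)] : FreeGroup Y.E) = FreeGroup.of e := rfl
      have h7 : (FreeGroup.mk [(g.e e, true)] : FreeGroup Y'.E) = FreeGroup.of (g.e e) := rfl
      have h8 : Y.src e = x := h1
      have h9 : oT Y.src Y.tgt (e, true) = Y.tgt e := rfl
      rw [h6, h7, h e, ← h8, h9]
      group

theorem UL_key {E U V : Type} [Group U] [AddCommGroup V] [Module ℚ V] (i : V → U)
    (h0 : i 0 = 1) (hadd : ∀ v v', i (v + v') = i v * i v') (hcen : ∀ v u, i v * u = u * i v)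
    (α β : FreeGroup E →* U) (c : E → V)
    (hc : ∀ e, β (FreeGroup.of e) = α (FreeGroup.of e) * i (c e)) (w : List (E × Bool)) :
    β (FreeGroup.mk w) = α (FreeGroup.mk w) * i (vsum c w) := by
  induction w with
  | nil =>
    have h1 : (FreeGroup.mk [] : FreeGroup E) = 1 := rfl
    rw [h1, map_one, map_one, vsum_nil, h0, mul_one]
  | cons a w ih =>
    obtain ⟨e, b⟩ := a
    have h4 : (FreeGroup.mk ((e, b) :: w) : FreeGroup E) =
        FreeGroup.mk [(e, b)] * FreeGroup.mk w := by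
      rw [FreeGroup.mul_mk]
      rfl
    have h5 : β (FreeGroup.mk [(e, b)]) = α (FreeGroup.mk [(e, b)]) * i (sgnb b • c e) := by
      cases b
      · have h6 : (FreeGroup.mk [(e, false)] : FreeGroup E) = (FreeGroup.of e)⁻¹ := rfl
        have h7 : i (sgnb false • c e) = (i (c e))⁻¹ := by
          have h8 : sgnb false • c e = - c e := by simp [sgnb]
          rw [h8, eq_inv_iff_mul_eq_one, ← hadd, neg_add_cancel, h0]
        rw [h6, map_inv, map_inv, hc, mul_inv_rev, h7, ← h7, hcen]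
      · have h6 : (FreeGroup.mk [(e, true)] : FreeGroup E) = FreeGroup.of e := rfl
        have h8 : sgnb true • c e = c e := by simp [sgnb]
        rw [h6, hc, h8]
    rw [h4, map_mul, map_mul, h5, ih, vsum_cons, hadd]
    calc α (FreeGroup.mk [(e, b)]) * i (sgnb b • c e) * (α (FreeGroup.mk w) * i (vsum c w))
        = α (FreeGroup.mk [(e, b)]) * (i (sgnb b • c e) * α (FreeGroup.mk w)) * i (vsum c w) := by
          simp only [mul_assoc]
      _ = α (FreeGroup.mk [(e, b)]) * (α (FreeGroup.mk w) * i (sgnb b • c e)) * i (vsum c w) := by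
          rw [hcen]
      _ = _ := by simp only [mul_assoc]

theorem gauge_ext {Y Y' : Cpx} (g : Cpx.Hom Y Y') (hY : Y.H1z) (hY' : Y'.H2z)
    (M : Set Y.F) (I2 : Set Y'.F) (hM : ∀ τ ∈ M, g.f τ ∈ I2)
    (hM' : ∀ τ, τ ∉ M → g.f τ ∉ I2 ∧ ∀ τ', g.f τ' = g.f τ → τ' = τ)
    (U : Type) [Group U] (hU : TFN U) (ρ : FreeGroup Y.E →* U)
    (hρ : ∀ τ ∈ M, ρ (FreeGroup.mk (Y.bd τ)) = 1) :
    ∃ (ρ' : FreeGroup Y'.E →* U) (θ : Y.V → U), (∀ σ ∈ I2, ρ' (FreeGroup.mk (Y'.bd σ)) = 1) ∧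
      ∀ e, ρ (FreeGroup.of e) =
        (θ (Y.src e))⁻¹ * ρ' (FreeGroup.of (g.e e)) * θ (Y.tgt e) := by
  classical
  induction hU with
  | triv U h =>
    exact ⟨1, fun _ => 1, fun σ _ => rfl, fun e => (h _).trans (h _).symm⟩
  | ext U Q π hπ W V φ h1 h2 h3 h4 h5 hQ ih =>
    -- the identification of the kernel
    have hinj : ∀ u u' : U, π u = 1 → π u' = 1 → φ u = φ u' → u = u' := by
      intro u u' hu hu' huu
      have e1 : π (u * u'⁻¹) = 1 := by rw [map_mul, map_inv, hu, hu', inv_one, mul_one]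
      have e2 := h3 (u * u'⁻¹) u' e1 hu'
      rw [inv_mul_cancel_right, huu] at e2
      have e3 : φ (u * u'⁻¹) = 0 := by
        have e4 : φ (u * u'⁻¹) + φ u' = 0 + φ u' := by rw [← e2, zero_add]
        exact add_right_cancel e4
      exact mul_inv_eq_one.1 (h4 _ e1 e3)
    have hφ1 : φ 1 = 0 := by
      have e1 := h3 1 1 (map_one π) (map_one π)
      rw [mul_one] at e1
      have e2 : φ 1 + φ 1 = φ 1 + 0 := by rw [← e1, add_zero]
      exact add_left_cancel e2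
    choose i hi1 hi2 using fun v : V => h2 v.1 v.2
    have hadd : ∀ v v', i (v + v') = i v * i v' := by
      intro v v'
      refine hinj _ _ (hi1 _) (by rw [map_mul, hi1, hi1, mul_one]) ?_
      rw [h3 _ _ (hi1 v) (hi1 v'), hi2, hi2, hi2]
      rfl
    have h0 : i 0 = 1 := by
      refine hinj _ _ (hi1 _) (map_one π) ?_
      rw [hi2, hφ1]
      rfl
    have hcen : ∀ v u, i v * u = u * i v := fun v u => h5 _ _ (hi1 v)
    have hker : ∀ u, π u = 1 → ∃ v, u = i v := by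
      intro u hu
      refine ⟨⟨φ u, h1 u hu⟩, hinj _ _ hu (hi1 _) ?_⟩
      rw [hi2]
    -- step 1
    obtain ⟨ρq, θq, hq1, hq2⟩ := ih (π.comp ρ) (fun τ hτ => by
      rw [MonoidHom.comp_apply, hρ τ hτ, map_one])
    -- step 2
    choose s hs using hπ
    obtain ⟨α, hα⟩ : ∃ α : FreeGroup Y'.E →* U, ∀ x, π (α x) = ρq x := by
      refine ⟨FreeGroup.lift (fun e => s (ρq (FreeGroup.of e))), fun x => ?_⟩
      have e1 : π.comp (FreeGroup.lift (fun e => s (ρq (FreeGroup.of e)))) = ρq := by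
        apply FreeGroup.ext_hom
        intro e
        rw [MonoidHom.comp_apply, FreeGroup.lift_apply_of, hs]
      exact DFunLike.congr_fun e1 x
    -- step 3
    have hσ : ∀ σ : Y'.F, ∃ v : V, σ ∈ I2 → α (FreeGroup.mk (Y'.bd σ)) = i v := by
      intro σ
      by_cases h : σ ∈ I2
      · obtain ⟨v, hv⟩ := hker (α (FreeGroup.mk (Y'.bd σ))) (by rw [hα, hq1 σ h])
        exact ⟨v, fun _ => hv⟩
      · exact ⟨0, fun h' => absurd h' h⟩
    choose a ha using hσ
    obtain ⟨c, hc⟩ := coh2 hY' (fun σ => - a σ)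
    obtain ⟨α1, hα1⟩ : ∃ α1 : FreeGroup Y'.E →* U, ∀ e, α1 (FreeGroup.of e) =
        α (FreeGroup.of e) * i (c e) :=
      ⟨FreeGroup.lift (fun e => α (FreeGroup.of e) * i (c e)), fun e => FreeGroup.lift_apply_of⟩
    have hα1σ : ∀ σ ∈ I2, α1 (FreeGroup.mk (Y'.bd σ)) = 1 := by
      intro σ hσ
      rw [UL_key i h0 hadd hcen α α1 c hα1, ha σ hσ, hc σ, ← hadd, add_neg_cancel, h0]
    have hπα1 : ∀ e, π (α1 (FreeGroup.of e)) = ρq (FreeGroup.of e) := by
      intro e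
      rw [hα1, map_mul, hi1, mul_one, hα]
    -- step 4
    obtain ⟨β, hβ⟩ : ∃ β : FreeGroup Y.E →* U, ∀ e, β (FreeGroup.of e) =
        (s (θq (Y.src e)))⁻¹ * α1 (FreeGroup.of (g.e e)) * s (θq (Y.tgt e)) :=
      ⟨FreeGroup.lift (fun e => (s (θq (Y.src e)))⁻¹ * α1 (FreeGroup.of (g.e e)) *
        s (θq (Y.tgt e))), fun e => FreeGroup.lift_apply_of⟩
    have hδ : ∀ e, ∃ v : V, ρ (FreeGroup.of e) = β (FreeGroup.of e) * i v := by
      intro e
      obtain ⟨v, hv⟩ := hker ((β (FreeGroup.of e))⁻¹ * ρ (FreeGroup.of e)) (by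
        have e1 : π (ρ (FreeGroup.of e)) = _ := hq2 e
        rw [map_mul, map_inv, e1, hβ, map_mul, map_mul, map_inv, hs, hs, hπα1, inv_mul_cancel])
      exact ⟨v, by rw [← hv, mul_inv_cancel_left]⟩
    choose δ hδ' using hδ
    have hδM : ∀ τ ∈ M, vsum δ (Y.bd τ) = 0 := by
      intro τ hτ
      have e1 := UL_key i h0 hadd hcen β ρ δ hδ' (Y.bd τ)
      have e2 := gauge_walk g β α1 (fun x => s (θq x)) hβ (Y.bd_walk τ)
      rw [← g.bd_e, hα1σ _ (hM τ hτ), mul_one, inv_mul_cancel] at e2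
      rw [hρ τ hτ, e2, one_mul] at e1
      have e3 := hi2 (vsum δ (Y.bd τ))
      rw [← e1, hφ1] at e3
      exact Subtype.ext e3.symm
    -- step 5
    obtain ⟨b', ϑ, hb1, hb2⟩ := coh1 g hY hY' M I2 hM hM' δ hδM
    obtain ⟨ρ', hρ'⟩ : ∃ ρ' : FreeGroup Y'.E →* U, ∀ e, ρ' (FreeGroup.of e) =
        α1 (FreeGroup.of e) * i (b' e) :=
      ⟨FreeGroup.lift (fun e => α1 (FreeGroup.of e) * i (b' e)), fun e => FreeGroup.lift_apply_of⟩
    refine ⟨ρ', fun x => s (θq x) * i (ϑ x), ?_, ?_⟩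
    · intro σ hσ
      rw [UL_key i h0 hadd hcen α1 ρ' b' hρ', hα1σ σ hσ, hb1 σ hσ, h0, mul_one]
    · intro e
      rw [hδ', hβ, hρ', hb2 e]
      change _ = (s (θq (Y.src e)) * i (ϑ (Y.src e)))⁻¹ * (α1 (FreeGroup.of (g.e e)) *
        i (b' (g.e e))) * (s (θq (Y.tgt e)) * i (ϑ (Y.tgt e)))
      have hneg : ∀ v, i (-v) = (i v)⁻¹ := by
        intro v
        rw [eq_inv_iff_mul_eq_one, ← hadd, neg_add_cancel, h0]
      have e1 : (s (θq (Y.src e)) * i (ϑ (Y.src e)))⁻¹ =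
          (s (θq (Y.src e)))⁻¹ * i (- ϑ (Y.src e)) := by
        rw [mul_inv_rev, ← hneg, hcen]
      rw [e1, sub_eq_add_neg, hadd, hadd]
      obtain ⟨A, hA⟩ : ∃ A, A = (s (θq (Y.src e)))⁻¹ := ⟨_, rfl⟩
      obtain ⟨B, hB⟩ : ∃ B, B = α1 (FreeGroup.of (g.e e)) := ⟨_, rfl⟩
      obtain ⟨C, hC⟩ : ∃ C, C = s (θq (Y.tgt e)) := ⟨_, rfl⟩
      rw [← hA, ← hB, ← hC]
      symm
      calc A * i (-ϑ (Y.src e)) * (B * i (b' (g.e e))) * (C * i (ϑ (Y.tgt e)))
          = A * (i (-ϑ (Y.src e)) * B) * (i (b' (g.e e)) * C) * i (ϑ (Y.tgt e)) := by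
            simp only [mul_assoc]
        _ = A * (B * i (-ϑ (Y.src e))) * (C * i (b' (g.e e))) * i (ϑ (Y.tgt e)) := by
            rw [hcen (-ϑ (Y.src e)) B, hcen (b' (g.e e)) C]
        _ = A * B * (i (-ϑ (Y.src e)) * C) * (i (b' (g.e e)) * i (ϑ (Y.tgt e))) := by
            simp only [mul_assoc]
        _ = A * B * (C * i (-ϑ (Y.src e))) * (i (b' (g.e e)) * i (ϑ (Y.tgt e))) := by
            rw [hcen (-ϑ (Y.src e)) C]
        _ = A * B * C * (i (-ϑ (Y.src e)) * (i (b' (g.e e)) * i (ϑ (Y.tgt e)))) := by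
            simp only [mul_assoc]
        _ = A * B * C * (i (b' (g.e e)) * i (ϑ (Y.tgt e)) * i (-ϑ (Y.src e))) := by
            rw [hcen (-ϑ (Y.src e)) (i (b' (g.e e)) * i (ϑ (Y.tgt e)))]

end Pool.Agent.H60.CI
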