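import Pool.Agent.H60.CI.MG
import Pool.Agent.H60.CI.UL

/-!
# Row Inj: lifting null-homotopies

Suppose `mk w` is not in the normal closure `N` of the boundary words of `M`.  `exists_res` gives `U`,
`ρ` with `ρ (mk (bd τ)) = 1` for `τ ∈ M`, `ρ (mk w) ≠ 1`.  `gauge_ext` gives `ρ'`, `θ`; by `gauge_walk`
`ρ (mk w) = (θ v)⁻¹ * ρ' (mk (w.map g)) * θ v`.  `ρ'` kills the boundary words of `I2`, hence their normal
closure (`Subgroup.normalClosure_le_normal` with `ρ'.ker`), so `ρ' (mk (w.map g)) = 1` and `ρ (mk w) = 1`,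
contradiction.
-/

noncomputable section

set_option linter.unusedVariables false

namespace Pool.Agent.H60.CI

theorem lift_null {Y Y' : Cpx} (g : Cpx.Hom Y Y') (hDR : Y.DR) (hY : Y.H1z) (hY' : Y'.H2z)
    (M : Set Y.F) (hfin : M.Finite) (I2 : Set Y'.F) (hM : ∀ τ ∈ M, g.f τ ∈ I2)
    (hM' : ∀ τ, τ ∉ M → g.f τ ∉ I2 ∧ ∀ τ', g.f τ' = g.f τ → τ' = τ)
    {v : Y.V} {w : List (Y.E × Bool)} (hw : Y.Walk v w v)
    (h : FreeGroup.mk (w.map (Prod.map g.e id)) ∈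
      Subgroup.normalClosure ((fun σ => FreeGroup.mk (Y'.bd σ)) '' I2)) :
    FreeGroup.mk w ∈ Subgroup.normalClosure ((fun τ => FreeGroup.mk (Y.bd τ)) '' M) := by
  by_contra hcon
  obtain ⟨U, instU, hU, ρ, hρ, hne⟩ := exists_res hDR M hfin (FreeGroup.mk w) hcon
  obtain ⟨ρ', θ, h1, h2⟩ := gauge_ext g hY hY' M I2 hM hM' U hU ρ hρ
  have h3 := gauge_walk g ρ ρ' θ h2 hw
  have h4 : Subgroup.normalClosure ((fun σ => FreeGroup.mk (Y'.bd σ)) '' I2) ≤ ρ'.ker := by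
    apply Subgroup.normalClosure_le_normal
    rintro x ⟨σ, hσ, rfl⟩
    exact h1 σ hσ
  have h5 : ρ' (FreeGroup.mk (w.map (Prod.map g.e id))) = 1 := h4 h
  apply hne
  rw [h3, h5, mul_one, inv_mul_cancel]

end Pool.Agent.H60.CI
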