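import Pool.Agent.H60.CI.Clo

/-!
# Row KcA: the space `KK` of the congruence generated by `G`

`KK (Cl G) ≤ span {y - x | G x y} ⊔ DD (Cl G)`.

Proof.  Let `S` be the right hand side and `R1 x y :⇔ single y 1 - single x 1 ∈ S`, an equivalence relation.
`Cl_min` with `R := R1`: `G ≤ R1`; if `adj x e y`, `adj x' e y'`, `ClR G x x'` and `x' - x ∈ S`, then
`y' - y = (x' - x) + ((y' - x') - (y - x))` and the last bracket is in `DD (Cl G)` (`DD_gen` with
`ClR G x' x`); similarly backwards.  So `ClR G x y → R1 x y`, i.e. all generators of `KK (Cl G)` are in `S`.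
-/

noncomputable section

set_option linter.unusedVariables false

namespace Pool.Agent.H60.CI

open Finsupp

variable {B : Cpx}

theorem PC.KK_Cl (D : PC B) (G : D.V → D.V → Prop) :
    D.KK (D.Cl G) ≤
      Submodule.span ℚ {z | ∃ x y, G x y ∧ z = single y 1 - single x 1} ⊔ D.DD (D.Cl G) := by
  obtain ⟨S, hS⟩ : ∃ S : Submodule ℚ (D.V →₀ ℚ),
      S = Submodule.span ℚ {z | ∃ x y, G x y ∧ z = single y 1 - single x 1} ⊔ D.DD (D.Cl G) := ⟨_, rfl⟩
  rw [← hS]
  have key : ∀ {x y : D.V}, D.ClR G x y → (single y 1 - single x 1 : D.V →₀ ℚ) ∈ S := by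
    intro x y h
    refine PC.Cl_min (D := D) (G := G) (R := fun x y => (single y 1 - single x 1 : D.V →₀ ℚ) ∈ S)
      ⟨?_, ?_, ?_⟩ ?_ ?_ ?_ h
    · intro x
      rw [sub_self]
      exact zero_mem _
    · intro x y h
      rw [← neg_sub]
      exact neg_mem h
    · intro x y z h h'
      have h1 := add_mem h h'
      convert h1 using 1
      abel
    · intro x y h
      rw [hS]
      exact Submodule.mem_sup_left (Submodule.subset_span ⟨x, y, h, rfl⟩)
    · intro x e y x' y' h h' h1 h2
      have h3 : (single y 1 - single x 1 : D.V →₀ ℚ) - (single y' 1 - single x' 1) ∈ S := by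
        rw [hS]
        exact Submodule.mem_sup_right (PC.DD_gen (R := D.Cl G) h h' h1)
      have h4 := sub_mem h2 h3
      convert h4 using 1
      abel
    · intro x e y x' y' h h' h1 h2
      have h0 : D.ClR G x x' := ClR.bwd h h' h1
      have h3 : (single y 1 - single x 1 : D.V →₀ ℚ) - (single y' 1 - single x' 1) ∈ S := by
        rw [hS]
        exact Submodule.mem_sup_right (PC.DD_gen (R := D.Cl G) h h' h0)
      have h4 := add_mem h2 h3
      convert h4 using 1
      abel
  rw [PC.KK, Submodule.span_le]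
  rintro z ⟨x, y, h, rfl⟩
  exact key h

end Pool.Agent.H60.CI
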