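import Pool.Agent.H60.CI.Sum
import Pool.Agent.H60.CI.KcA

/-!
# Row KcB: restriction to `D` of a congruence on `D ⊔ C` with `C` finite

`C` has finitely many edges (`hC`), `G` is a relation on `D ⊔ C` with finitely many related pairs,
`R := D.resl C (Cl G)`.  Then `KK R ≤ W ⊔ DD R` with `W` finite dimensional.

Proof.  Let `π : ((D ⊔ C).V →₀ ℚ) → (D.V →₀ ℚ)` be the linear map with `π (single (inl x) 1) = single x 1`,
`π (single (inr x) 1) = 0` (`Finsupp.linearCombination ℚ (Sum.elim (fun x => single x 1) (fun _ => 0))` or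
`Finsupp.lcomapDomain`).  For `R x y`: `y - x = π (inl y - inl x) ∈ π (span {..}) ⊔ π (DD (Cl G))` by
`KK_Cl`.  `W₁ := π (span {..})` is finite dimensional (`G` finite).
`π (DD (Cl G)) ≤ W₂ ⊔ DD R`: for every edge `κ = (x', e, y')` of `C` choose, if it exists, an edge
`(x₁, e, y₁)` of `D` over the same `e` with `Cl G (inl x₁) (inr x')`, and let `W₂` be the span of the
finitely many chosen `single y₁ 1 - single x₁ 1`.  A generator of `DD (Cl G)` comes from two edges of
`D ⊔ C` over the same `e` with related sources: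
* both in `D`: `π` of it is a generator of `DD R`;
* both in `C`: `π` of it is `0`;
* `(x, e, y)` in `D` and `κ = (x', e, y')` in `C`: `π` of it is `± (y - x)`, and `R x x₁`, so
  `y - x = (y₁ - x₁) + ((y - x) - (y₁ - x₁)) ∈ W₂ ⊔ DD R`.
-/

noncomputable section

set_option linter.unusedVariables false

namespace Pool.Agent.H60.CI

open Finsupp

variable {B : Cpx}

/-- the projection onto the coordinates of `D` -/
def KcB_pi (D C : PC B) : ((D.sum C).V →₀ ℚ) →ₗ[ℚ] (D.V →₀ ℚ) :=
  Finsupp.linearCombination ℚ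
    ((Sum.elim (fun x => single x 1) (fun _ => 0)) : D.V ⊕ C.V → (D.V →₀ ℚ))

/-- inclusion -/
def KcB_l (D C : PC B) (x : D.V) : (D.sum C).V := Sum.inl x

/-- inclusion -/
def KcB_r (D C : PC B) (x : C.V) : (D.sum C).V := Sum.inr x

theorem KcB_inl (D C : PC B) (z : (D.sum C).V) (x : D.V) (h : z = KcB_l D C x) :
    KcB_pi D C (single z 1) = single x 1 := by
  subst h
  unfold KcB_pi
  refine (Finsupp.linearCombination_single ℚ (1 : ℚ) (Sum.inl x : D.V ⊕ C.V)).trans ?_
  rw [one_smul]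
  rfl

theorem KcB_inr (D C : PC B) (z : (D.sum C).V) (x : C.V) (h : z = KcB_r D C x) :
    KcB_pi D C (single z 1) = 0 := by
  subst h
  unfold KcB_pi
  refine (Finsupp.linearCombination_single ℚ (1 : ℚ) (Sum.inr x : D.V ⊕ C.V)).trans ?_
  rw [one_smul]
  rfl

theorem PC.KK_resl (D C : PC B) (hC : Finite C.Edg)
    (G : (D.sum C).V → (D.sum C).V → Prop)
    (hG : {t : (D.sum C).V × (D.sum C).V | G t.1 t.2}.Finite) :
    ∃ W : Submodule ℚ (D.V →₀ ℚ), FiniteDimensional ℚ W ∧
      D.KK (D.resl C ((D.sum C).Cl G)) ≤ W ⊔ D.DD (D.resl C ((D.sum C).Cl G)) := by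
  classical
  set R := D.resl C ((D.sum C).Cl G) with hR
  set w : C.Edg → (D.V →₀ ℚ) := fun κ =>
    if h : ∃ q : D.V × D.V, D.adj q.1 (C.epr κ) q.2 ∧
        (D.sum C).Cl G (KcB_l D C q.1) (KcB_r D C (C.esrc κ)) then
      single (Classical.choose h).2 1 - single (Classical.choose h).1 1 else 0 with hw
  set W2 : Submodule ℚ (D.V →₀ ℚ) := Submodule.span ℚ (Set.range w) with hW2
  set S1 : Set ((D.sum C).V →₀ ℚ) := {z | ∃ x y, G x y ∧ z = single y 1 - single x 1} with hS1
  have hS1f : S1.Finite := by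
    have h1 := hG.image (fun t : (D.sum C).V × (D.sum C).V =>
      (single t.2 1 - single t.1 1 : (D.sum C).V →₀ ℚ))
    refine h1.subset ?_
    rintro z ⟨x, y, hxy, rfl⟩
    exact ⟨(x, y), hxy, rfl⟩
  set W1 : Submodule ℚ (D.V →₀ ℚ) := (Submodule.span ℚ S1).map (KcB_pi D C) with hW1
  have f1 : FiniteDimensional ℚ (Submodule.span ℚ S1) := FiniteDimensional.span_of_finite ℚ hS1f
  have f2 : FiniteDimensional ℚ W1 := inferInstance
  have f3 : FiniteDimensional ℚ W2 := FiniteDimensional.span_of_finite ℚ (Set.finite_range w)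
  have claim : ∀ (a b : D.V) (e : B.E) (a' b' : C.V), D.adj a e b → C.adj a' e b' →
      (D.sum C).Cl G (KcB_l D C a) (KcB_r D C a') →
      (single b 1 - single a 1 : D.V →₀ ℚ) ∈ W2 ⊔ D.DD R := by
    intro a b e a' b' h h' h3
    have hex : ∃ q : D.V × D.V, D.adj q.1 (C.epr (⟨(a', e, b'), h'⟩ : C.Edg)) q.2 ∧
        (D.sum C).Cl G (KcB_l D C q.1)
          (KcB_r D C (C.esrc (⟨(a', e, b'), h'⟩ : C.Edg))) := ⟨(a, b), h, h3⟩
    have hwk : w (⟨(a', e, b'), h'⟩ : C.Edg) =
        single (Classical.choose hex).2 1 - single (Classical.choose hex).1 1 := by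
      rw [hw]
      exact dif_pos hex
    obtain ⟨g1, g2⟩ := Classical.choose_spec hex
    have m1 : (single (Classical.choose hex).2 1 - single (Classical.choose hex).1 1 :
        D.V →₀ ℚ) ∈ W2 := by
      rw [← hwk]
      exact Submodule.subset_span ⟨_, rfl⟩
    have hRR : R a (Classical.choose hex).1 := by
      show (D.sum C).Cl G (KcB_l D C a) (KcB_l D C (Classical.choose hex).1)
      exact ((D.sum C).Cl G).trans h3 (((D.sum C).Cl G).symm g2)
    have m2 := PC.DD_gen h g1 hRR
    have m3 := add_mem (Submodule.mem_sup_left (T := D.DD R) m1)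
      (Submodule.mem_sup_right (S := W2) m2)
    have e1 : (single (Classical.choose hex).2 1 - single (Classical.choose hex).1 1 +
        (single b 1 - single a 1 - (single (Classical.choose hex).2 1 -
          single (Classical.choose hex).1 1)) : D.V →₀ ℚ) = single b 1 - single a 1 := by
      abel
    rw [e1] at m3
    exact m3
  have hDD : ((D.sum C).DD ((D.sum C).Cl G)).map (KcB_pi D C) ≤ W2 ⊔ D.DD R := by
    rw [Submodule.map_le_iff_le_comap]
    unfold PC.DD
    rw [Submodule.span_le]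
    rintro z ⟨x, y, x', y', e, h1, h2, h3, rfl⟩
    show KcB_pi D C _ ∈ W2 ⊔ D.DD R
    rw [map_sub, map_sub, map_sub]
    rcases h1 with ⟨a, b, hx, hy, h1⟩ | ⟨a, b, hx, hy, h1⟩
    · rcases h2 with ⟨a', b', hx', hy', h2⟩ | ⟨a', b', hx', hy', h2⟩
      · rw [KcB_inl D C y b hy, KcB_inl D C x a hx, KcB_inl D C y' b' hy', KcB_inl D C x' a' hx']
        refine Submodule.mem_sup_right (PC.DD_gen h1 h2 ?_)
        show (D.sum C).Cl G (KcB_l D C a) (KcB_l D C a')
        have hx1 : x = KcB_l D C a := hx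
        have hx2 : x' = KcB_l D C a' := hx'
        rw [← hx1, ← hx2]
        exact h3
      · rw [KcB_inl D C y b hy, KcB_inl D C x a hx, KcB_inr D C y' b' hy', KcB_inr D C x' a' hx',
          sub_self, sub_zero]
        refine claim a b e a' b' h1 h2 ?_
        have hx1 : x = KcB_l D C a := hx
        have hx2 : x' = KcB_r D C a' := hx'
        rw [← hx1, ← hx2]
        exact h3
    · rcases h2 with ⟨a', b', hx', hy', h2⟩ | ⟨a', b', hx', hy', h2⟩
      · rw [KcB_inr D C y b hy, KcB_inr D C x a hx, KcB_inl D C y' b' hy', KcB_inl D C x' a' hx',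
          sub_self, zero_sub]
        refine neg_mem (claim a' b' e a b h2 h1 ?_)
        have hx1 : x = KcB_r D C a := hx
        have hx2 : x' = KcB_l D C a' := hx'
        rw [← hx1, ← hx2]
        exact ((D.sum C).Cl G).symm h3
      · rw [KcB_inr D C y b hy, KcB_inr D C x a hx, KcB_inr D C y' b' hy', KcB_inr D C x' a' hx',
          sub_self]
        exact zero_mem _
  refine ⟨W1 ⊔ W2, inferInstance, ?_⟩
  have hk : D.KK R = Submodule.span ℚ {z | ∃ x y, R x y ∧ z = single y 1 - single x 1} := rfl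
  rw [hk, Submodule.span_le]
  rintro z ⟨x, y, hxy, rfl⟩
  have k1 : (single (KcB_l D C y) 1 - single (KcB_l D C x) 1 :
      (D.sum C).V →₀ ℚ) ∈ (D.sum C).KK ((D.sum C).Cl G) := PC.KK_gen hxy
  have k2 := PC.KK_Cl (D.sum C) G k1
  have k3 := Submodule.mem_map_of_mem (f := KcB_pi D C) k2
  rw [Submodule.map_sup, map_sub, KcB_inl D C _ y rfl, KcB_inl D C _ x rfl] at k3
  have k4 : (Submodule.span ℚ S1).map (KcB_pi D C) ⊔
      ((D.sum C).DD ((D.sum C).Cl G)).map (KcB_pi D C) ≤ W1 ⊔ W2 ⊔ D.DD R := by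
    rw [sup_assoc]
    exact sup_le_sup le_rfl hDD
  exact k4 k3

end Pool.Agent.H60.CI
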