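import Pool.Agent.H60.CI.ChA

/-!
# Row Lam: the map `Λ : (boundaries of 1-chains of Z) → C_1(Y)/∂C_2(Y)`, `Y = Z/R`

`Z : HIm B` with `H1z`, `R` an invariant congruence, `Y = Z.quo R hR hi`.
`lamS` is a linear section of `L1 : C_1(Z) → range L1`; `lam v = [mapDomain fe (lamS v)]`.

* `lam_L1`: `lam ⟨L1 c, _⟩ = [mapDomain fe c]`: `L1 (lamS (L1 c) - c) = 0`, so
  `lamS (L1 c) - c = L2 c'` (`H1z`), and `mapDomain fe (L2 c') = L2 (mapDomain fm c')` (`Hom.L2_map`).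
* `lam_eq_zero`: `lam v = 0 ↔ v ∈ DD R`: `lam v = 0` iff `mapDomain fe (lamS v) ∈ range L2` iff (`link1`,
  `link2`) `L1 (lamS v) = v ∈ DD R`.
* `lam_perm`: equivariance: `v = L1 c`, `perm h (L1 c) = L1 (perm h c)` and
  `mapDomain fe (perm h c) = perm h (mapDomain fe c)`.
* `diff_mem`: for a connected `Z` all `single y 1 - single x 1` are in `range L1` (`Cpx.L1_wch`).
* `L (x, y) = lam (y - x)`: `L_add`, `L_smul`, `L_zero`, `L_edge` follow.
-/

noncomputable section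

namespace Pool.Agent.H60.CI

open Finsupp

variable {H : Type} [Group H] {B : HCpx H}

namespace HIm

variable (Z : HIm B)

theorem exists_lamS : ∃ s : LinearMap.range Z.toHCpx.L1 →ₗ[ℚ] (Z.Edg →₀ ℚ),
    ∀ v, Z.toHCpx.L1 (s v) = v := by
  obtain ⟨s, hs⟩ := LinearMap.exists_rightInverse_of_surjective (Z.toHCpx.L1.rangeRestrict)
    (LinearMap.range_rangeRestrict _)
  refine ⟨s, fun v => ?_⟩
  have h := congrArg (fun f => f v) hs
  have h2 := congrArg Subtype.val h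
  exact h2

/-- a linear section of `L1` -/
def lamS : LinearMap.range Z.toHCpx.L1 →ₗ[ℚ] (Z.Edg →₀ ℚ) := Z.exists_lamS.choose

theorem L1_lamS (v : LinearMap.range Z.toHCpx.L1) : Z.toHCpx.L1 (Z.lamS v) = v :=
  Z.exists_lamS.choose_spec v

variable (R : Setoid Z.V) (hR : Z.Cong R) (hi : Z.Inv R)

/-- the map `Λ` -/
def lam : LinearMap.range Z.toHCpx.L1 →ₗ[ℚ] EE (Z.quo R hR hi).toHCpx :=
  (LinearMap.range (Z.quo R hR hi).toHCpx.L2).mkQ ∘ₗ
    (Finsupp.lmapDomain ℚ ℚ (Z.quoMor R hR hi).fe) ∘ₗ Z.lamS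

theorem Lam_key (hH : Z.toHCpx.H1z) (c c' : Z.Edg →₀ ℚ)
    (h : Z.toHCpx.L1 c = Z.toHCpx.L1 c') :
    (Submodule.Quotient.mk (c.mapDomain (Z.quoMor R hR hi).fe) : EE (Z.quo R hR hi).toHCpx)
      = Submodule.Quotient.mk (c'.mapDomain (Z.quoMor R hR hi).fe) := by
  rw [Submodule.Quotient.eq]
  obtain ⟨d, hd⟩ := hH (c - c') (by rw [map_sub, h, sub_self])
  refine ⟨d.mapDomain (Z.quoMor R hR hi).fm, ?_⟩
  have h1 := (Z.quoMor R hR hi).hom.L2_map d
  have h2 : (Finsupp.mapDomain (Z.quoMor R hR hi).fe (c - c'))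
      = Finsupp.mapDomain (Z.quoMor R hR hi).fe c - Finsupp.mapDomain (Z.quoMor R hR hi).fe c' :=
    (Finsupp.lmapDomain ℚ ℚ (Z.quoMor R hR hi).fe).map_sub c c'
  rw [← h2, ← hd]
  exact h1

theorem Lam_apply (v : LinearMap.range Z.toHCpx.L1) :
    Z.lam R hR hi v
      = Submodule.Quotient.mk ((Z.lamS v).mapDomain (Z.quoMor R hR hi).fe) := rfl

theorem lam_L1 (hH : Z.toHCpx.H1z) (c : Z.Edg →₀ ℚ) :
    Z.lam R hR hi ⟨Z.toHCpx.L1 c, ⟨c, rfl⟩⟩
      = Submodule.Quotient.mk (c.mapDomain (Z.quoMor R hR hi).fe) := by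
  rw [Lam_apply]
  exact Z.Lam_key R hR hi hH _ _ (Z.L1_lamS ⟨Z.toHCpx.L1 c, ⟨c, rfl⟩⟩)

theorem lam_eq_zero (hH : Z.toHCpx.H1z) (v : LinearMap.range Z.toHCpx.L1) :
    Z.lam R hR hi v = 0 ↔ (v : Z.V →₀ ℚ) ∈ Z.toPC.DD R := by
  rw [Lam_apply, Submodule.Quotient.mk_eq_zero]
  constructor
  · rintro ⟨c, hc⟩
    have := Z.toIm.link2 R hR (Z.lamS v) c hc
    have h2 : Z.toIm.toCpx.L1 (Z.lamS v) = v := Z.L1_lamS v
    rwa [h2] at this
  · intro hv
    have h2 : Z.toIm.toCpx.L1 (Z.lamS v) = v := Z.L1_lamS v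
    rw [← h2] at hv
    obtain ⟨c, hc⟩ := Z.toIm.link1 R hR hH (Z.lamS v) hv
    exact ⟨c, hc⟩

theorem Lam_L1perm (h : H) (c : Z.Edg →₀ ℚ) :
    Z.toHCpx.L1 (perm H Z.Edg h c) = perm H Z.V h (Z.toHCpx.L1 c) := by
  induction c using Finsupp.induction_linear with
  | zero => simp
  | add f g hf hg => simp only [map_add, hf, hg]
  | single σ r =>
    rw [perm_single]
    simp only [Cpx.L1, Finsupp.linearCombination_single, map_smul]
    congr 1
    exact Z.toHCpx.d1_smul h σ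

theorem perm_range (h : H) (v : LinearMap.range Z.toHCpx.L1) :
    perm H Z.V h (v : Z.V →₀ ℚ) ∈ LinearMap.range Z.toHCpx.L1 := by
  obtain ⟨v, c, rfl⟩ := v
  exact ⟨perm H Z.Edg h c, Z.Lam_L1perm h c⟩

theorem Lam_mapperm (h : H) (c : Z.Edg →₀ ℚ) :
    (perm H Z.Edg h c).mapDomain (Z.quoMor R hR hi).fe
      = perm H (Z.quo R hR hi).Edg h (c.mapDomain (Z.quoMor R hR hi).fe) := by
  induction c using Finsupp.induction_linear with
  | zero => simp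
  | add f g hf hg => simp only [map_add, Finsupp.mapDomain_add, hf, hg]
  | single σ r =>
    rw [perm_single, Finsupp.mapDomain_single, Finsupp.mapDomain_single, perm_single]
    rfl

theorem lam_perm (hH : Z.toHCpx.H1z) (h : H) (v : LinearMap.range Z.toHCpx.L1) :
    Z.lam R hR hi ⟨perm H Z.V h (v : Z.V →₀ ℚ), Z.perm_range h v⟩
      = qE (Z.quo R hR hi).toHCpx h (Z.lam R hR hi v) := by
  obtain ⟨v, c, rfl⟩ := v
  rw [lam_L1 Z R hR hi hH c, qE_mk, Lam_apply]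
  have h1 := Z.Lam_mapperm R hR hi h c
  have h3 : (Submodule.Quotient.mk (perm H (Z.quo R hR hi).Edg h
      (c.mapDomain (Z.quoMor R hR hi).fe)) : EE (Z.quo R hR hi).toHCpx)
      = Submodule.Quotient.mk ((perm H Z.Edg h c).mapDomain (Z.quoMor R hR hi).fe) := by
    rw [h1]
  refine Eq.trans ?_ h3.symm
  refine Z.Lam_key R hR hi hH _ _ ?_
  rw [Lam_L1perm]
  exact Z.L1_lamS _

theorem diff_mem (hC : Z.toHCpx.Conn) (x y : Z.V) :
    (single y 1 - single x 1 : Z.V →₀ ℚ) ∈ LinearMap.range Z.toHCpx.L1 := by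
  obtain ⟨w, hw⟩ := hC.2 x y
  exact ⟨wch w, Z.toHCpx.L1_wch hw⟩

/-- the class of a path from `x` to `y` -/
def Ll (hC : Z.toHCpx.Conn) (x y : Z.V) : EE (Z.quo R hR hi).toHCpx :=
  Z.lam R hR hi ⟨single y 1 - single x 1, Z.diff_mem hC x y⟩

theorem Ll_add (hC : Z.toHCpx.Conn) (x y z : Z.V) :
    Z.Ll R hR hi hC x y + Z.Ll R hR hi hC y z = Z.Ll R hR hi hC x z := by
  unfold Ll
  rw [← map_add]
  congr 1
  refine Subtype.ext ?_
  show (single y 1 - single x 1 : Z.V →₀ ℚ) + (single z 1 - single y 1) = single z 1 - single x 1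
  abel

theorem Ll_smul (hC : Z.toHCpx.Conn) (hH : Z.toHCpx.H1z) (h : H) (x y : Z.V) :
    Z.Ll R hR hi hC (h • x) (h • y) = qE (Z.quo R hR hi).toHCpx h (Z.Ll R hR hi hC x y) := by
  unfold Ll
  rw [← lam_perm Z R hR hi hH]
  congr 1
  refine Subtype.ext ?_
  show (single (h • y) 1 - single (h • x) 1 : Z.V →₀ ℚ)
    = perm H Z.V h (single y 1 - single x 1)
  rw [map_sub, perm_single, perm_single]

theorem Ll_eq_zero (hC : Z.toHCpx.Conn) (hH : Z.toHCpx.H1z) (x y : Z.V) :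
    Z.Ll R hR hi hC x y = 0 ↔ (single y 1 - single x 1 : Z.V →₀ ℚ) ∈ Z.toPC.DD R := by
  unfold Ll
  rw [lam_eq_zero Z R hR hi hH]

theorem Ll_edge (hC : Z.toHCpx.Conn) (hH : Z.toHCpx.H1z) (ε : Z.Edg) :
    Z.Ll R hR hi hC (Z.esrc ε) (Z.etgt ε)
      = Submodule.Quotient.mk (single ((Z.quoMor R hR hi).fe ε) 1) := by
  unfold Ll
  have h1 : Z.toHCpx.L1 (single ε 1) = single (Z.etgt ε) 1 - single (Z.esrc ε) 1 := by
    simp only [Cpx.L1, Finsupp.linearCombination_single, one_smul]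
    rfl
  have h2 := Z.lam_L1 R hR hi hH (single ε 1)
  rw [Finsupp.mapDomain_single] at h2
  rw [← h2]
  congr 1
  exact Subtype.ext h1.symm

end HIm

end Pool.Agent.H60.CI
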