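import Pool.Agent.H60.CI.Sum
import Pool.Agent.H50.CI.TD

/-!
# Attaching lollipops to an immersed complex

`I : Im B`, `v0` a vertex, `Lp` a list of lollipops (path, 2-cell, sign) with paths starting at `I.p v0`.
`C` = tree of all prefixes of the words `path ++ bd σ`, with marks at the ends of the paths;
`B' = (I ⊔ C) / Cl G`, where `G` identifies `v0` with the root and the begin and the end of `bd σ` at
every mark of `C`.
-/

noncomputable section

set_option linter.unusedVariables false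

namespace Pool.Agent.H60.CI

/-- the data -/
structure Lol (B : Cpx) where
  I : Im B
  v0 : I.V
  Lp : List (List (B.E × Bool) × B.F × Bool)
  hLp : ∀ t ∈ Lp, B.Walk (I.p v0) t.1 (B.base t.2.1)

namespace Lol

variable {B : Cpx} (L : Lol B)

/-- the tree -/
def T : Set (List (B.E × Bool)) := {u | u = [] ∨ ∃ t ∈ L.Lp, u <+: t.1 ++ B.bd t.2.1}

theorem walk_full {t} (ht : t ∈ L.Lp) :
    B.Walk (L.I.p L.v0) (t.1 ++ B.bd t.2.1) (B.base t.2.1) :=
  isWalk_append.2 ⟨_, L.hLp t ht, B.bd_walk _⟩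

theorem T_walk {u : List (B.E × Bool)} (hu : u ∈ L.T) :
    B.Walk (L.I.p L.v0) u (endW B.src B.tgt (L.I.p L.v0) u) := by
  rcases hu with rfl | ⟨t, ht, r, hr⟩
  · exact rfl
  · have h := L.walk_full ht
    rw [← hr] at h
    obtain ⟨y, hy, -⟩ := isWalk_append.1 h
    rw [endW_eq hy]
    exact hy

theorem T_nil : [] ∈ L.T := Or.inl rfl

theorem T_path {t} (ht : t ∈ L.Lp) : t.1 ∈ L.T := Or.inr ⟨t, ht, List.prefix_append _ _⟩

theorem T_full {t} (ht : t ∈ L.Lp) : t.1 ++ B.bd t.2.1 ∈ L.T := Or.inr ⟨t, ht, List.prefix_refl _⟩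

theorem T_finite : L.T.Finite := by
  have h : L.T ⊆ {[]} ∪ ⋃ t ∈ {t | t ∈ L.Lp}, {u | u ∈ (t.1 ++ B.bd t.2.1).inits} := by
    rintro u (rfl | ⟨t, ht, h⟩)
    · exact Or.inl rfl
    · refine Or.inr ?_
      simp only [Set.mem_iUnion]
      exact ⟨t, ht, (List.mem_inits _ _).2 h⟩
  refine Set.Finite.subset (Set.Finite.union (Set.finite_singleton _) ?_) h
  exact Set.Finite.biUnion (List.finite_toSet L.Lp) fun t _ => List.finite_toSet _

/-- the tree of lollipops as a precomplex -/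
def C : PC B where
  V := {u // u ∈ L.T}
  p := fun u => endW B.src B.tgt (L.I.p L.v0) u.1
  adj := fun u e u' => u'.1 = u.1 ++ [(e, true)] ∨ u.1 = u'.1 ++ [(e, false)]
  mark := fun u σ => ∃ t ∈ L.Lp, u.1 = t.1 ∧ σ = t.2.1
  adj_src := by
    rintro ⟨u, hu⟩ e ⟨u', hu'⟩ (h | h)
    · simp only at h
      subst h
      have h1 := L.T_walk hu'
      obtain ⟨z, hz, hz'⟩ := isWalk_append.1 h1
      show endW B.src B.tgt (L.I.p L.v0) u = B.src e
      rw [endW_eq hz]
      exact hz'.1.symm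
    · simp only at h
      subst h
      show endW B.src B.tgt (L.I.p L.v0) (u' ++ [(e, false)]) = B.src e
      rw [endW_append]
      rfl
  adj_tgt := by
    rintro ⟨u, hu⟩ e ⟨u', hu'⟩ (h | h)
    · simp only at h
      subst h
      show endW B.src B.tgt (L.I.p L.v0) (u ++ [(e, true)]) = B.tgt e
      rw [endW_append]
      rfl
    · simp only at h
      subst h
      have h1 := L.T_walk hu
      obtain ⟨z, hz, hz'⟩ := isWalk_append.1 h1
      show endW B.src B.tgt (L.I.p L.v0) u' = B.tgt e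
      rw [endW_eq hz]
      exact hz'.1.symm
  mark_base := by
    rintro ⟨u, hu⟩ σ ⟨t, ht, h1, rfl⟩
    simp only at h1
    subst h1
    exact endW_eq (L.hLp t ht)

/-- the disjoint union -/
def D : PC B := L.I.toPC.sum L.C

/-- the generating identifications -/
def G (a b : L.D.V) : Prop :=
  (a = Sum.inl L.v0 ∧ b = Sum.inr ⟨[], L.T_nil⟩) ∨
  ∃ t, ∃ ht : t ∈ L.Lp, a = Sum.inr ⟨t.1, L.T_path ht⟩ ∧
    b = Sum.inr ⟨t.1 ++ B.bd t.2.1, L.T_full ht⟩

theorem G_fib {a b : L.D.V} (h : L.G a b) : L.D.p a = L.D.p b := by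
  rcases h with ⟨rfl, rfl⟩ | ⟨t, ht, rfl, rfl⟩
  · rfl
  · show endW B.src B.tgt (L.I.p L.v0) t.1 = endW B.src B.tgt (L.I.p L.v0) (t.1 ++ B.bd t.2.1)
    rw [endW_eq (L.hLp t ht), endW_eq (L.walk_full ht)]

theorem R_cong : L.D.Cong (L.D.Cl L.G) := PC.Cl_cong L.G_fib

theorem T_of_append {u w : List (B.E × Bool)} (h : u ++ w ∈ L.T) : u ∈ L.T := by
  rcases h with h | ⟨t, ht, h⟩
  · left
    simp only [List.append_eq_nil_iff] at h
    exact h.1
  · exact Or.inr ⟨t, ht, (List.prefix_append _ _).trans h⟩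

/-- words of the tree lift to the tree -/
theorem C_path (u w : List (B.E × Bool)) (hu : u ∈ L.T) (h : u ++ w ∈ L.T) :
    L.C.W ⟨u, hu⟩ w ⟨u ++ w, h⟩ := by
  induction w generalizing u with
  | nil => exact Subtype.ext (by simp)
  | cons a w ih =>
    have h' : (u ++ [a]) ++ w ∈ L.T := by simpa using h
    have hu' : u ++ [a] ∈ L.T := L.T_of_append h'
    refine ⟨⟨u ++ [a], hu'⟩, ?_, ?_⟩
    · obtain ⟨e, b⟩ := a
      cases b
      · exact Or.inr rfl
      · exact Or.inl rfl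
    · have h1 := ih (u ++ [a]) hu' h'
      have h2 : (⟨u ++ [a] ++ w, h'⟩ : L.C.V) = ⟨u ++ a :: w, h⟩ := Subtype.ext (by simp)
      rw [h2] at h1
      exact h1

theorem closes {x : L.D.V} {σ : B.F} (h : L.D.mark x σ) :
    ∃ y, L.D.W x (B.bd σ) y ∧ L.D.Cl L.G x y := by
  rcases h with ⟨x, rfl, h⟩ | ⟨⟨u, hu⟩, rfl, t, ht, h1, rfl⟩
  · exact ⟨_, (L.I.toPC.inlM L.C).W (L.I.mark_walk h), PC.ClR.refl _⟩
  · simp only at h1
    subst h1
    exact ⟨_, (L.I.toPC.inrM L.C).W (L.C_path _ _ hu (L.T_full ht)),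
      PC.ClR.base (Or.inr ⟨t, ht, rfl, rfl⟩)⟩

/-- the quotient -/
def B' : Im B := L.D.quo (L.D.Cl L.G) L.R_cong L.closes

/-- the projection -/
def q : PC.Mor L.D L.B'.toPC := L.D.quoMor (L.D.Cl L.G) L.R_cong L.closes

/-- the map `I → B'` -/
def g : PC.Mor L.I.toPC L.B'.toPC := L.q.comp (L.I.toPC.inlM L.C)

/-- the map `C → B'` -/
def k : PC.Mor L.C L.B'.toPC := L.q.comp (L.I.toPC.inrM L.C)

theorem g_eq {x y : L.I.V} : L.g.f x = L.g.f y ↔ L.D.Cl L.G (Sum.inl x) (Sum.inl y) :=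
  ⟨fun h => Quotient.exact h, fun h => Quotient.sound h⟩

/-- the congruence on `I` -/
def R : Setoid L.I.V := L.I.toPC.resl L.C (L.D.Cl L.G)

theorem g_eq' {x y : L.I.V} : L.g.f x = L.g.f y ↔ L.R x y := L.g_eq

/-- the 2-cells of `B'` coming from the lollipops -/
def K : Set L.B'.Mks := Set.range L.k.fm

theorem C_edg_finite : Finite L.C.Edg := by
  haveI : Finite L.C.V := L.T_finite.to_subtype
  let f : L.C.Edg → L.C.V × L.C.V := fun ε => (ε.1.1, ε.1.2.2)
  refine Finite.of_injective f ?_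
  rintro ⟨⟨u, e, u'⟩, h⟩ ⟨⟨v, e', v'⟩, h'⟩ hf
  simp only [f, Prod.mk.injEq] at hf
  obtain ⟨rfl, rfl⟩ := hf
  have he : e = e' := by
    simp only at h h'
    rcases h with h | h <;> rcases h' with h' | h'
    · rw [h] at h'
      simpa using h'
    · rw [h] at h'
      have := congrArg List.length h'
      simp at this
    · rw [h] at h'
      have := congrArg List.length h'
      simp at this
    · rw [h] at h'
      simpa using h'
  subst he
  rfl

theorem C_mks_finite : Finite L.C.Mks := by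
  haveI : Finite L.C.V := L.T_finite.to_subtype
  haveI : Finite {t // t ∈ L.Lp} := (List.finite_toSet L.Lp).to_subtype
  let f : {t // t ∈ L.Lp} → L.C.Mks := fun t => ⟨(⟨t.1.1, L.T_path t.2⟩, t.1.2.1), t.1, t.2, rfl, rfl⟩
  refine Finite.of_surjective f ?_
  rintro ⟨⟨⟨u, hu⟩, σ⟩, t, ht, h1, h2⟩
  simp only at h1 h2
  subst h1 h2
  exact ⟨⟨t, ht⟩, rfl⟩

theorem K_finite : L.K.Finite := by
  haveI := L.C_mks_finite
  exact Set.finite_range _

theorem G_finite : {t : L.D.V × L.D.V | L.G t.1 t.2}.Finite := by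
  haveI : Finite {t // t ∈ L.Lp} := (List.finite_toSet L.Lp).to_subtype
  let f : Option {t // t ∈ L.Lp} → L.D.V × L.D.V := fun o => match o with
    | none => (Sum.inl L.v0, Sum.inr ⟨[], L.T_nil⟩)
    | some t => (Sum.inr ⟨t.1.1, L.T_path t.2⟩, Sum.inr ⟨t.1.1 ++ B.bd t.1.2.1, L.T_full t.2⟩)
  refine Set.Finite.subset (Set.finite_range f) ?_
  rintro ⟨a, b⟩ (⟨rfl, rfl⟩ | ⟨t, ht, rfl, rfl⟩)
  · exact ⟨none, rfl⟩
  · exact ⟨some ⟨t, ht⟩, rfl⟩

end Lol

end Pool.Agent.H60.CI
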