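import Pool.Agent.H60.CI.Lol

/-!
# Row LolM: the finite set of 2-cells which are identified or hit the lollipops

`M := {τ | ∃ τ' ≠ τ, g τ' = g τ} ∪ {τ | g τ ∈ K}` (`g = L.g.fm`), `I2 := K ∪ g '' M`.
* `M` finite: if `g τ' = g τ`, `τ' ≠ τ`, then `mpr τ' = mpr τ`, `L.R (mbase τ') (mbase τ)` (`g_eq'`) and
  `mbase τ' ≠ mbase τ` (`mks_ext`); so `mbase τ` lies in the finite set of the second components of the pairs
  in `hfin`, and each vertex has finitely many marks (`hmk`).  So `M₁ := {τ | ∃ τ' ≠ τ, g τ' = g τ}` is finite.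
  On `{τ | g τ ∈ K} \ M₁` the map `g` is injective with values in the finite set `K` (`K_finite`).
* `τ ∉ M`: `g τ ∉ K`; `g τ = g τ'` with `τ' ∈ M` gives `τ' ≠ τ`, so `τ ∈ M`, contradiction.
-/

noncomputable section

set_option linter.unusedVariables false

namespace Pool.Agent.H60.CI

variable {B : Cpx}

theorem LolM_fin1 (L : Lol B) (hmk : ∀ x : L.I.V, {σ | L.I.mark x σ}.Finite)
    (hfin : {t : L.I.V × L.I.V | L.R t.1 t.2 ∧ t.1 ≠ t.2}.Finite) :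
    {τ : L.I.Mks | ∃ τ', τ' ≠ τ ∧ L.g.fm τ' = L.g.fm τ}.Finite := by
  have hS : (Prod.snd '' {t : L.I.V × L.I.V | L.R t.1 t.2 ∧ t.1 ≠ t.2}).Finite := hfin.image _
  have hT : {t : L.I.V × B.F | t.1 ∈ (Prod.snd '' {t : L.I.V × L.I.V | L.R t.1 t.2 ∧ t.1 ≠ t.2}) ∧
      L.I.mark t.1 t.2}.Finite := by
    have h1 : {t : L.I.V × B.F | t.1 ∈ (Prod.snd '' {t : L.I.V × L.I.V | L.R t.1 t.2 ∧ t.1 ≠ t.2}) ∧
        L.I.mark t.1 t.2} ⊆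
        ⋃ x ∈ (Prod.snd '' {t : L.I.V × L.I.V | L.R t.1 t.2 ∧ t.1 ≠ t.2}),
          (fun σ => (x, σ)) '' {σ | L.I.mark x σ} := by
      rintro ⟨x, σ⟩ ⟨hx, hm⟩
      simp only [Set.mem_iUnion]
      exact ⟨x, hx, σ, hm, rfl⟩
    exact Set.Finite.subset (Set.Finite.biUnion hS fun x _ => (hmk x).image _) h1
  have h2 : Set.InjOn (fun τ : L.I.Mks => τ.1)
      {τ : L.I.Mks | ∃ τ', τ' ≠ τ ∧ L.g.fm τ' = L.g.fm τ} := fun a _ b _ h => Subtype.ext h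
  refine Set.Finite.of_finite_image (Set.Finite.subset hT ?_) h2
  rintro _ ⟨τ, ⟨τ', hne, he⟩, rfl⟩
  refine ⟨⟨(L.I.mbase τ', L.I.mbase τ), ⟨?_, ?_⟩, rfl⟩, τ.2⟩
  · rw [← L.g_eq']
    exact congrArg (fun t => t.1.1) he
  · intro hb
    exact hne (L.I.mks_ext hb (congrArg (fun t => t.1.2) he))

theorem Lol.exists_M (L : Lol B) (hmk : ∀ x : L.I.V, {σ | L.I.mark x σ}.Finite)
    (hfin : {t : L.I.V × L.I.V | L.R t.1 t.2 ∧ t.1 ≠ t.2}.Finite) :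
    ∃ (M : Set L.I.Mks) (I2 : Set L.B'.Mks), M.Finite ∧ L.K ⊆ I2 ∧
      (∀ τ ∈ M, L.g.fm τ ∈ I2) ∧
      ∀ τ, τ ∉ M → L.g.fm τ ∉ I2 ∧ ∀ τ', L.g.fm τ' = L.g.fm τ → τ' = τ := by
  have hM1 := LolM_fin1 L hmk hfin
  set M1 : Set L.I.Mks := {τ | ∃ τ', τ' ≠ τ ∧ L.g.fm τ' = L.g.fm τ} with hM1d
  have hM2 : ({τ : L.I.Mks | L.g.fm τ ∈ L.K} \ M1).Finite := by
    refine Set.Finite.of_finite_image (f := L.g.fm) (Set.Finite.subset L.K_finite ?_) ?_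
    · rintro _ ⟨τ, hτ, rfl⟩
      exact hτ.1
    · intro a ha b hb hab
      by_contra hne
      exact hb.2 ⟨a, hne, hab⟩
  refine ⟨M1 ∪ {τ : L.I.Mks | L.g.fm τ ∈ L.K}, L.K ∪ L.g.fm '' (M1 ∪ {τ : L.I.Mks | L.g.fm τ ∈ L.K}),
    ?_, Set.subset_union_left, fun τ hτ => Or.inr ⟨τ, hτ, rfl⟩, ?_⟩
  · rw [← Set.union_sdiff_self]
    exact hM1.union hM2
  · intro τ hτ
    have h1 : ∀ τ', L.g.fm τ' = L.g.fm τ → τ' = τ := by
      intro τ' h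
      by_contra hne
      exact hτ (Or.inl ⟨τ', hne, h⟩)
    refine ⟨?_, h1⟩
    rintro (h | ⟨τ', hτ', h⟩)
    · exact hτ (Or.inr h)
    · rw [h1 τ' h] at hτ'
      exact hτ hτ'

end Pool.Agent.H60.CI
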