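import Pool.Agent.H60.CI.Lol
import Pool.Agent.H50.CI.U2
import Pool.Agent.H50.CI.U4

/-!
# Row LolN: the closed path becomes null-homotopic in `B'`

Let `w` be a closed edge path of `I` at `v0` whose image in `B` is freely equal to the product of the
lollipops of `Lp`.  Then the image of `w` in `B'` is in the normal closure of the boundary words of the
2-cells of `K`.

Proof.  Write `o := L.g.f v0 = L.k.f ⟨[], _⟩` (equal by the first generator of `G`).  By induction on a list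
`l` with `l ⊆ L.Lp` show: there is a closed edge path `c` of `B'` at `o` with
`mk (c.map epr) = (l.map B.lolli).prod` and `mk c ∈ normalClosure ..`.
* `l = []`: `c = []`.
* `t :: l`: `C_path [] t.1` gives a path of `C` over `t.1` from the root to `⟨t.1, _⟩`, its image under `L.k`
  (`Mor.W`) and `exists_walk` give an edge path `P` of `B'` from `o` to `L.k.f ⟨t.1, _⟩` with
  `P.map epr = t.1`.  The mark `τ = ⟨(⟨t.1,_⟩, t.2.1), _⟩` of `C` gives `σ' = L.k.fm τ ∈ K` with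
  `mbase σ' = L.k.f ⟨t.1, _⟩`; `bdw σ'` is a closed edge path there over `bd t.2.1` (`bdw_walk`, `bdw_map`).
  New `c' := P ++ (bdw σ' or invRev (bdw σ')) ++ invRev P ++ c`; in the free group
  `mk c' = mk P * (mk (bdw σ'))^{±1} * (mk P)⁻¹ * mk c`.
Finally `w.map g.fe` and `c` are edge paths of `B'` from `o` whose images in `B` are freely equal
(`Hom.IsImm.mk_eq` for `L.B'.hom_isImm`; `(w.map g.fe).map epr = w.map epr`), so
`mk (w.map g.fe) = mk c`.
(`isWalk_map`, `isWalk_append`, `isWalk_invRev`, `FreeGroup.mul_mk`, `FreeGroup.inv_mk`,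
`FreeGroup.invRev` commutes with `List.map (Prod.map f id)`.)
-/

noncomputable section

set_option linter.unusedVariables false

namespace Pool.Agent.H60.CI

variable {B : Cpx}

theorem LolN_root (L : Lol B) : L.k.f ⟨[], L.T_nil⟩ = L.g.f L.v0 :=
  (Quotient.sound (PC.ClR.base (Or.inl ⟨rfl, rfl⟩))).symm

theorem LolN_pre (L : Lol B) (l : List (List (B.E × Bool) × B.F × Bool))
    (hl : ∀ t ∈ l, t ∈ L.Lp) :
    ∃ c : List (L.B'.Edg × Bool), L.B'.toCpx.Walk (L.g.f L.v0) c (L.g.f L.v0) ∧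
      FreeGroup.mk (c.map (Prod.map L.B'.hom.e id)) = (l.map B.lolli).prod ∧
      FreeGroup.mk c ∈
        Subgroup.normalClosure ((fun σ => FreeGroup.mk (L.B'.bdw σ)) '' L.K) := by
  induction l with
  | nil => exact ⟨[], rfl, rfl, one_mem _⟩
  | cons t l ih =>
    obtain ⟨c, hc, hcm, hcN⟩ := ih fun s hs => hl s (List.mem_cons_of_mem _ hs)
    have ht : t ∈ L.Lp := hl t List.mem_cons_self
    have hpath : L.C.W ⟨[], L.T_nil⟩ t.1 ⟨t.1, L.T_path ht⟩ :=
      L.C_path [] t.1 L.T_nil (L.T_path ht)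
    obtain ⟨P, hP, hPm⟩ := L.B'.toPC.exists_walk (L.k.W hpath)
    rw [LolN_root] at hP
    obtain ⟨τ, hτ⟩ : ∃ τ : L.C.Mks, τ = ⟨(⟨t.1, L.T_path ht⟩, t.2.1), t, ht, rfl, rfl⟩ := ⟨_, rfl⟩
    have hb : L.B'.toCpx.base (L.k.fm τ) = L.k.f ⟨t.1, L.T_path ht⟩ := by
      rw [hτ]
      rfl
    have hf : L.B'.hom.f (L.k.fm τ) = t.2.1 := by
      rw [hτ]
      rfl
    obtain ⟨W, hW, hWm, hWl⟩ := Pool.Agent.H50.CI.U4_piece L.B'.hom
      (show L.B'.toCpx.Walk (L.g.f L.v0) P (L.k.f ⟨t.1, L.T_path ht⟩) from hP) (L.k.fm τ) hb t.2.2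
    have hPm' : P.map (Prod.map L.B'.hom.e id) = t.1 := hPm
    have hmem : FreeGroup.mk (L.B'.bdw (L.k.fm τ)) ∈
        Subgroup.normalClosure ((fun σ => FreeGroup.mk (L.B'.bdw σ)) '' L.K) :=
      Subgroup.subset_normalClosure ⟨L.k.fm τ, ⟨τ, rfl⟩, rfl⟩
    refine ⟨W ++ c, isWalk_append.2 ⟨_, hW, hc⟩, ?_, ?_⟩
    · rw [List.map_append, ← FreeGroup.mul_mk, hWm, hcm, hPm', hf, List.map_cons, List.prod_cons]
    · rw [← FreeGroup.mul_mk, hWl]
      refine mul_mem ?_ hcN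
      unfold Cpx.lolli
      refine Subgroup.normalClosure_normal.conj_mem _ ?_ _
      show (if t.2.2 then FreeGroup.mk (L.B'.bdw (L.k.fm τ)) else
        (FreeGroup.mk (L.B'.bdw (L.k.fm τ)))⁻¹) ∈ _
      split_ifs
      · exact hmem
      · exact inv_mem hmem

theorem Lol.null (L : Lol B) {w : List (L.I.Edg × Bool)}
    (hw : IsWalk L.I.esrc L.I.etgt L.v0 w L.v0)
    (h : FreeGroup.mk (w.map (Prod.map L.I.epr id)) = (L.Lp.map B.lolli).prod) :
    FreeGroup.mk (w.map (Prod.map L.g.fe id)) ∈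
      Subgroup.normalClosure ((fun σ => FreeGroup.mk (L.B'.bdw σ)) '' L.K) := by
  obtain ⟨c, hc, hcm, hcN⟩ := LolN_pre L L.Lp fun t ht => ht
  have hw' : L.B'.toCpx.Walk (L.g.f L.v0) (w.map (Prod.map L.g.fe id)) (L.g.f L.v0) :=
    isWalk_map L.g.f L.g.fe (fun _ => rfl) (fun _ => rfl) hw
  have hmap : (w.map (Prod.map L.g.fe id)).map (Prod.map L.B'.hom.e id) =
      w.map (Prod.map L.I.epr id) := by
    rw [List.map_map]
    rfl
  have h1 := (L.B'.hom_isImm).mk_eq hw' hc (by rw [hmap, h, hcm])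
  rw [h1.1]
  exact hcN

end Pool.Agent.H60.CI
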