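import Pool.Agent.H60.CI.TnC
import Pool.Agent.H50.CI.U0

/-!
# Row MG: homomorphisms killing finitely many 2-cells of a diagrammatically reducible complex

Induction on the cardinality of `M` (`M.Finite`), for all `g`.
* `M = ∅`: the normal closure of the empty set is trivial, `g ≠ 1`, `freeGroup_res`.
* `M ≠ ∅`: `Y.DR` gives `σ ∈ M`, `bd σ = w₁ ++ a :: w₂`, the edge `e = a.1` does not occur in `w₁`, `w₂` and
  in `bd σ'` for `σ' ∈ M`, `σ' ≠ σ`.  Let `x := (mk w₁)⁻¹ * (mk w₂)⁻¹`, `ψ : FreeGroup E →* FreeGroup E` the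
  homomorphism with `ψ (of e) = x` if `a.2 = true`, `x⁻¹` if `a.2 = false`, and `ψ (of e') = of e'` for
  `e' ≠ e` (`FreeGroup.lift`, classical decidability).
  - `ψ (mk w) = mk w` if `e` does not occur in `w` (induction on `w`).
  - `ψ (mk (bd σ)) = mk w₁ * x * mk w₂ = 1`; `ψ (mk (bd σ')) = mk (bd σ')` for `σ' ∈ M' := M \ {σ}`.
  - `ψ h ≡ h` modulo `N := normalClosure {mk (bd τ) | τ ∈ M}` for all `h`: the composition of `ψ` with the
    quotient map by `N` agrees with the quotient map on the generators (for `e`: `mk w₁ * of e ^ (±1) * mk w₂`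
    `∈ N`; note that `N` is normal), `FreeGroup.ext_hom`.
  - so `ψ g ∉ normalClosure {mk (bd τ) | τ ∈ M'}` (else `ψ g ∈ N`, `g ∈ N`).
  - induction hypothesis for `M'` and `ψ g`: `ρ'`; take `ρ := ρ' ∘ ψ`.
-/

noncomputable section

set_option linter.unusedVariables false

namespace Pool.Agent.H60.CI

theorem MG_lift {E G : Type} [Group G] (f f' : E → G) (w : List (E × Bool))
    (h : ∀ c ∈ w, f c.1 = f' c.1) :
    FreeGroup.lift f (FreeGroup.mk w) = FreeGroup.lift f' (FreeGroup.mk w) := by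
  rw [FreeGroup.lift_mk, FreeGroup.lift_mk]
  congr 1
  refine List.map_congr_left fun c hc => ?_
  rw [h c hc]

theorem MG_cons {E : Type} (w₁ w₂ : List (E × Bool)) (a : E × Bool) :
    FreeGroup.mk (w₁ ++ a :: w₂) = FreeGroup.mk w₁ * FreeGroup.mk [a] * FreeGroup.mk w₂ := by
  rw [FreeGroup.mul_mk, FreeGroup.mul_mk]
  congr 1
  simp

theorem MG_empty {E : Type} (g : FreeGroup E)
    (hg : g ∉ Subgroup.normalClosure (∅ : Set (FreeGroup E))) :
    ∃ (U : Type) (_ : Group U), TFN U ∧ ∃ ρ : FreeGroup E →* U, ρ g ≠ 1 := by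
  refine freeGroup_res g fun h => hg ?_
  rw [h]
  exact one_mem _

theorem MG_aux {Y : Cpx} (hY : Y.DR) : ∀ (n : ℕ) (M : Set Y.F), M.Finite → M.ncard ≤ n →
    ∀ g : FreeGroup Y.E,
    g ∉ Subgroup.normalClosure ((fun τ => FreeGroup.mk (Y.bd τ)) '' M) →
    ∃ (U : Type) (_ : Group U), TFN U ∧ ∃ ρ : FreeGroup Y.E →* U,
      (∀ τ ∈ M, ρ (FreeGroup.mk (Y.bd τ)) = 1) ∧ ρ g ≠ 1 := by
  classical
  intro n
  induction n with
  | zero =>
    intro M hM hc g hg
    have h0 : M = ∅ := (Set.ncard_eq_zero hM).1 (by omega)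
    subst h0
    rw [Set.image_empty] at hg
    obtain ⟨U, hU, hT, ρ, hρ⟩ := MG_empty g hg
    exact ⟨U, hU, hT, ρ, fun τ hτ => absurd hτ (Set.notMem_empty τ), hρ⟩
  | succ n ih =>
    intro M hM hc g hg
    rcases M.eq_empty_or_nonempty with h0 | hne
    · subst h0
      rw [Set.image_empty] at hg
      obtain ⟨U, hU, hT, ρ, hρ⟩ := MG_empty g hg
      exact ⟨U, hU, hT, ρ, fun τ hτ => absurd hτ (Set.notMem_empty τ), hρ⟩
    obtain ⟨σ, hσ, w₁, a, w₂, hbd, hw, hother⟩ := hY M hM hne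
    obtain ⟨e, b⟩ := a
    obtain ⟨x, hx⟩ : ∃ x : FreeGroup Y.E, x = (FreeGroup.mk w₁)⁻¹ * (FreeGroup.mk w₂)⁻¹ := ⟨_, rfl⟩
    obtain ⟨f, hf⟩ : ∃ f : Y.E → FreeGroup Y.E,
        f = fun e' => if e' = e then (if b = true then x else x⁻¹) else FreeGroup.of e' := ⟨_, rfl⟩
    have hfe : f e = if b = true then x else x⁻¹ := by rw [hf]; exact if_pos rfl
    have hfn : ∀ e', e' ≠ e → f e' = FreeGroup.of e' := by
      intro e' he'
      rw [hf]
      exact if_neg he'
    have hid : ∀ h : FreeGroup Y.E, FreeGroup.lift FreeGroup.of h = h := by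
      intro h
      exact FreeGroup.lift_of_apply h
    have hψw : ∀ w : List (Y.E × Bool), (∀ c ∈ w, c.1 ≠ e) →
        FreeGroup.lift f (FreeGroup.mk w) = FreeGroup.mk w := by
      intro w hcw
      rw [MG_lift f FreeGroup.of w fun c hc => hfn _ (hcw c hc), hid]
    have hψa : FreeGroup.lift f (FreeGroup.mk [(e, b)]) = x := by
      rw [FreeGroup.lift_mk]
      cases b
      · simp [hfe]
      · simp [hfe]
    have hψσ : FreeGroup.lift f (FreeGroup.mk (Y.bd σ)) = 1 := by
      rw [hbd, MG_cons, map_mul, map_mul, hψa,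
        hψw w₁ fun c hc => hw c (List.mem_append_left _ hc),
        hψw w₂ fun c hc => hw c (List.mem_append_right _ hc), hx]
      group
    obtain ⟨N, hN⟩ : ∃ N : Subgroup (FreeGroup Y.E),
        N = Subgroup.normalClosure ((fun τ => FreeGroup.mk (Y.bd τ)) '' M) := ⟨_, rfl⟩
    have hNn : N.Normal := by rw [hN]; exact Subgroup.normalClosure_normal
    have hσN : FreeGroup.mk (Y.bd σ) ∈ N := by
      rw [hN]
      exact Subgroup.subset_normalClosure ⟨σ, hσ, rfl⟩
    have hq : (QuotientGroup.mk' N).comp (FreeGroup.lift f) = QuotientGroup.mk' N := by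
      have h1 : QuotientGroup.mk' N (FreeGroup.mk [(e, b)]) = QuotientGroup.mk' N x := by
        have h2 : QuotientGroup.mk' N (FreeGroup.mk (Y.bd σ)) = 1 :=
          (QuotientGroup.eq_one_iff _).2 hσN
        rw [hbd, MG_cons, map_mul, map_mul] at h2
        rw [hx, map_mul, map_inv, map_inv]
        have h3 := eq_inv_of_mul_eq_one_left h2
        rw [← h3]
        group
      refine FreeGroup.ext_hom _ _ fun e' => ?_
      rw [MonoidHom.comp_apply, FreeGroup.lift_apply_of]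
      by_cases he' : e' = e
      · rw [he', hfe]
        cases b
        · have h2 : (FreeGroup.mk [(e, false)] : FreeGroup Y.E) = (FreeGroup.of e)⁻¹ := rfl
          rw [h2, map_inv] at h1
          rw [if_neg (by decide), map_inv, ← h1, inv_inv]
        · have h2 : (FreeGroup.mk [(e, true)] : FreeGroup Y.E) = FreeGroup.of e := rfl
          rw [h2] at h1
          rw [if_pos rfl, h1]
      · rw [hfn e' he']
    have hqg : ∀ h : FreeGroup Y.E, FreeGroup.lift f h ∈ N → h ∈ N := by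
      intro h hh
      have h1 : QuotientGroup.mk' N (FreeGroup.lift f h) = 1 := (QuotientGroup.eq_one_iff _).2 hh
      have h2 := DFunLike.congr_fun hq h
      rw [MonoidHom.comp_apply, h1] at h2
      exact (QuotientGroup.eq_one_iff _).1 h2.symm
    have hsub : Subgroup.normalClosure ((fun τ => FreeGroup.mk (Y.bd τ)) '' (M \ {σ})) ≤ N := by
      rw [hN]
      exact Subgroup.normalClosure_mono (Set.image_mono Set.sdiff_subset)
    have hcard : (M \ {σ}).ncard ≤ n := by
      rw [Set.ncard_sdiff_singleton_of_mem hσ]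
      omega
    obtain ⟨U, hU, hT, ρ', hρ1, hρ2⟩ := ih (M \ {σ}) (hM.subset Set.sdiff_subset) hcard
      (FreeGroup.lift f g) (fun h => hg (by rw [← hN]; exact hqg g (hsub h)))
    refine ⟨U, hU, hT, ρ'.comp (FreeGroup.lift f), fun τ hτ => ?_, hρ2⟩
    rw [MonoidHom.comp_apply]
    by_cases hτσ : τ = σ
    · rw [hτσ, hψσ, map_one]
    · rw [hψw _ (hother τ hτ hτσ)]
      exact hρ1 τ ⟨hτ, hτσ⟩

theorem exists_res {Y : Cpx} (hY : Y.DR) (M : Set Y.F) (hM : M.Finite) (g : FreeGroup Y.E)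
    (hg : g ∉ Subgroup.normalClosure ((fun τ => FreeGroup.mk (Y.bd τ)) '' M)) :
    ∃ (U : Type) (_ : Group U), TFN U ∧ ∃ ρ : FreeGroup Y.E →* U,
      (∀ τ ∈ M, ρ (FreeGroup.mk (Y.bd τ)) = 1) ∧ ρ g ≠ 1 := by
  exact MG_aux hY _ M hM le_rfl g hg

end Pool.Agent.H60.CI
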