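import Pool.Agent.H60.CI.ChA
import Pool.Agent.H60.CI.Orb
import Pool.Agent.H60.CI.Good

/-!
# Row Min: for a minimal good complex the tower reaches the identity

`tow_stable` gives `n` with `tow (n+1) = tow n =: R`.  If `R x y` then `plus R x y`, so
`y - x ∈ DD R` (definition of `plus`).  `quo_H1z` (for `Z.toIm`), `quo_Conn`, `quo_HFin` show that
`Z.quo R .. ..` is `Good`.  By minimality `Z.orbs ≤ (Z.quo R ..).orbs`, and `eq_bot_of_orbs` gives
`R x y → x = y`.
-/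

noncomputable section

set_option linter.unusedVariables false

namespace Pool.Agent.H60.CI

open Finsupp

variable {H : Type} [Group H] {B : HCpx H}

theorem HIm.tow_eq_bot (Z : HIm B) (hG : Z.Good)
    (hmin : ∀ Z' : HIm B, Z'.Good → Z.orbs ≤ Z'.orbs) :
    ∃ m, ∀ x y, Z.tow m x y → x = y := by
  obtain ⟨n, hn⟩ := Z.tow_stable hG.fin
  refine ⟨n, fun x y hxy => ?_⟩
  have hD : ∀ x y, Z.tow n x y → (single y 1 - single x 1 : Z.V →₀ ℚ) ∈ Z.toPC.DD (Z.tow n) := by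
    intro x y h
    have h1 : Z.tow (n + 1) x y := by rw [hn]; exact h
    exact h1.2
  have hGood : (Z.quo (Z.tow n) (Z.tow_cong n) (Z.tow_inv n)).Good :=
    ⟨Z.toIm.quo_Conn (Z.tow n) (Z.tow_cong n) hG.conn,
      Z.quo_HFin hG.fin (Z.tow n) (Z.tow_cong n) (Z.tow_inv n),
      Z.toIm.quo_H1z (Z.tow n) (Z.tow_cong n) hG.h1 hD⟩
  exact Z.eq_bot_of_orbs hG.fin (Z.tow n) (Z.tow_cong n) (Z.tow_inv n) (hmin _ hGood) x y hxy

end Pool.Agent.H60.CI
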