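import Pool.Agent.H60.CI.MoDefs

/-!
# Row MoA: the expansion identity of the moment argument

Notation of `MoDefs`.

* `gg_expand`: `(u+k) ⊗ (ℓ ↦ ℓ(u+k)^n a) = Σ_{j ≤ n} opA n j k (gg j u a) + opB n j k (pw j u a)`:
  binomial theorem `ℓ(u+k)^n = (ℓ u + ℓ k)^n = Σ_j C(n,j) (ℓ u)^j (ℓ k)^(n-j)` (`add_pow`), so
  `pw n (u+k) a = Σ_j C(n,j) mulD (n-j) k (pw j u a)` and tensor with `u + k`.
* `offs_walk`: for a walk `w` of `Y'` starting at `x` with `u x = u0 + e0`, the image word has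
  `(nn n) (Σ ±sg a' n) = Σ_{(a,off) ∈ offs e0 (q w)} ±sg a (gg n (u0 + off) a)`: induction on `w`
  generalizing `x e0`; for the first oriented edge `(ε, true)`: `src ε = x`, `u (src ε) = u0 + e0`,
  the end is `tgt ε` with `u (tgt ε) = u (src ε) + κ (q ε)` (`u_edge`); for `(ε, false)`: `tgt ε = x`,
  `u (src ε) = u (tgt ε) - κ (q ε) = u0 + (e0 - κ)`, and the end is `src ε`.
* `nn_B2`: both sides are linear, check on `sg τ a` (`EqF.hom_ext`): use `B2_sg`, `offs_walk` with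
  `x = base τ`, `e0 = 0`, `u0 = u (base τ)`, `bd_e` (`Y.bd (q τ) = (Y'.bd τ).map (Prod.map q.e id)`),
  then `gg_expand` with `k = off`, and exchange the two finite sums.
* `Th_self`: `opA n n e = id` (`mulD 0 = id`, `C(n,n) = 1`), hence `Th n n = B2`
  (the first components of `offs e0 w` are the letters of `w`; `B2_sg`).
* `mm_zero`: `pw 0 e a` is the constant function `a`; so `mm 0 c = mapc const (push q.f c)`.
* `mm_succ`: with `kap : E_Y ⊗ DN → DN`, `e ⊗ φ ↦ (ℓ ↦ ℓ(e) φ(ℓ))`, `mm (n+1) c = mapc kap (tt n c)`.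
-/

noncomputable section

namespace Pool.Agent.H60.CI

open Finsupp TensorProduct

variable {H : Type} [Group H]

theorem MoA_pw (Y : HCpx H) {N : Type} [AddCommGroup N] [Module ℚ N] (n : ℕ) (u k : EE Y)
    (a : N) : pw Y N n (u + k) a
      = ∑ j ∈ Finset.range (n + 1), (n.choose j : ℚ) • mulD Y N (n - j) k (pw Y N j u a) := by
  funext ℓ
  rw [Finset.sum_apply]
  show (ℓ (u + k)) ^ n • a = _
  rw [map_add, add_pow, Finset.sum_smul]
  refine Finset.sum_congr rfl fun j _ => ?_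
  show _ = (n.choose j : ℚ) • ((ℓ k) ^ (n - j) • ((ℓ u) ^ j • a))
  rw [smul_smul, smul_smul]
  congr 1
  ring

theorem MoA_opA (Y : HCpx H) {N : Type} [AddCommGroup N] [Module ℚ N] (n j : ℕ) (k u : EE Y)
    (φ : DN Y N) : opA Y N n j k (u ⊗ₜ φ) = (n.choose j : ℚ) • (u ⊗ₜ mulD Y N (n - j) k φ) := rfl

theorem MoA_opB (Y : HCpx H) {N : Type} [AddCommGroup N] [Module ℚ N] (n j : ℕ) (k : EE Y)
    (φ : DN Y N) : opB Y N n j k φ = (n.choose j : ℚ) • (k ⊗ₜ mulD Y N (n - j) k φ) := rfl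

theorem gg_expand (Y : HCpx H) {N : Type} [AddCommGroup N] [Module ℚ N] (n : ℕ) (u k : EE Y)
    (a : N) : gg Y N n (u + k) a
      = ∑ j ∈ Finset.range (n + 1), (opA Y N n j k (gg Y N j u a) + opB Y N n j k (pw Y N j u a)) := by
  show (u + k) ⊗ₜ pw Y N n (u + k) a = _
  rw [MoA_pw, TensorProduct.tmul_sum]
  refine Finset.sum_congr rfl fun j _ => ?_
  rw [show gg Y N j u a = u ⊗ₜ pw Y N j u a from rfl, MoA_opA, MoA_opB, TensorProduct.tmul_smul,
    TensorProduct.add_tmul, smul_add]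

namespace MomData

variable {Y' Y : HCpx H} (d : MomData Y' Y)
variable {N : Type} [AddCommGroup N] [Module ℚ N] (ρ : Representation ℚ H N)

theorem offs_walk (n : ℕ) (u0 : EE Y) (a : N) (w : List (Y'.E × Bool)) (x y : Y'.V)
    (hw : Y'.Walk x w y) (e0 : EE Y) (hx : d.u x = u0 + e0) :
    (w.map fun b => sgnb b.2 • d.nn ρ n (EqF.sg ρ b.1 a)).sum
      = ((d.offs e0 (w.map (Prod.map d.q.e id))).map fun p =>
          sgnb p.1.2 • EqF.sg (rT Y ρ) p.1.1 (gg Y N n (u0 + p.2) a)).sum := by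
  induction w generalizing x e0 with
  | nil => rfl
  | cons b w ih =>
    obtain ⟨ε, b⟩ := b
    obtain ⟨h1, h2⟩ := hw
    have hn : d.nn ρ n (EqF.sg ρ ε a) = EqF.sg (rT Y ρ) (d.q.e ε) (gg Y N n (d.u (Y'.src ε)) a) := by
      rw [MomData.nn, EqF.lift_sg]
      rfl
    have hu := d.u_edge ε
    cases b
    · have h1' : Y'.tgt ε = x := h1
      have hx2 : d.u (Y'.src ε) = u0 + (e0 + sgnb false • d.κ (d.q.e ε)) := by
        rw [← hu, h1', hx]
        have h3 : sgnb false = -1 := rfl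
        rw [h3, neg_one_smul]
        abel
      have h3 := ih (Y'.src ε) h2 (e0 + sgnb false • d.κ (d.q.e ε)) hx2
      simp only [List.map_cons, List.sum_cons, Prod.map_apply, id_eq, MomData.offs,
        Bool.false_eq_true, if_false]
      rw [h3, hn]
      congr 4
      rw [hx2]
      have h3 : sgnb false = -1 := rfl
      rw [h3, neg_one_smul, sub_eq_add_neg]
    · have h1' : Y'.src ε = x := h1
      have hx2 : d.u (Y'.tgt ε) = u0 + (e0 + sgnb true • d.κ (d.q.e ε)) := by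
        rw [← hu, h1', hx]
        have h3 : sgnb true = 1 := rfl
        rw [h3, one_smul]
        abel
      have h3 := ih (Y'.tgt ε) h2 (e0 + sgnb true • d.κ (d.q.e ε)) hx2
      simp only [List.map_cons, List.sum_cons, Prod.map_apply, id_eq, MomData.offs, if_true]
      rw [h3, hn, h1', hx]

theorem nn_B2 (n : ℕ) (c : EqF ρ Y'.F) :
    d.nn ρ n (Y'.B2 ρ c)
      = ∑ j ∈ Finset.range (n + 1), (d.Th ρ n j (d.tt ρ j c) + d.Xi ρ n j (d.mm ρ j c)) := by
  have key : (d.nn ρ n) ∘ₗ (Y'.B2 ρ) = ∑ j ∈ Finset.range (n + 1),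
      ((d.Th ρ n j) ∘ₗ (d.tt ρ j) + (d.Xi ρ n j) ∘ₗ (d.mm ρ j)) := by
    refine EqF.hom_ext ρ fun τ a => ?_
    have hbd : d.offs 0 ((Y'.bd τ).map (Prod.map d.q.e id)) = d.offs 0 (Y.bd (d.q.f τ)) := by
      rw [d.q.bd_e]
    have h1 := d.offs_walk ρ n (d.u (Y'.base τ)) a (Y'.bd τ) (Y'.base τ) (Y'.base τ)
      (Y'.bd_walk τ) 0 (by rw [add_zero])
    rw [hbd] at h1
    have h2 : d.nn ρ n (Y'.B2 ρ (EqF.sg ρ τ a)) =
        ((Y'.bd τ).map fun b => sgnb b.2 • d.nn ρ n (EqF.sg ρ b.1 a)).sum := by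
      rw [HCpx.B2_sg, map_list_sum, List.map_map]
      congr 1
      refine List.map_congr_left fun b _ => ?_
      rw [Function.comp_apply, map_smul]
    rw [LinearMap.comp_apply, h2, h1, LinearMap.sum_apply]
    have h3 : ∀ j, ((d.Th ρ n j) ∘ₗ (d.tt ρ j) + (d.Xi ρ n j) ∘ₗ (d.mm ρ j)) (EqF.sg ρ τ a) =
        (((d.offs 0 (Y.bd (d.q.f τ))).map fun p =>
          sgnb p.1.2 • (EqF.sg (rT Y ρ) p.1.1 ∘ₗ opA Y N n j p.2)).sum)
            (gg Y N j (d.u (Y'.base τ)) a) +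
        (((d.offs 0 (Y.bd (d.q.f τ))).map fun p =>
          sgnb p.1.2 • (EqF.sg (rT Y ρ) p.1.1 ∘ₗ opB Y N n j p.2)).sum)
            (pw Y N j (d.u (Y'.base τ)) a) := by
      intro j
      rw [LinearMap.add_apply, LinearMap.comp_apply, LinearMap.comp_apply, MomData.tt,
        EqF.lift_sg, MomData.mm, EqF.lift_sg, LinearMap.comp_apply, LinearMap.comp_apply,
        MomData.Th, EqF.lift_sg, MomData.Xi, EqF.lift_sg]
    rw [Finset.sum_congr rfl fun j _ => h3 j]
    generalize d.offs 0 (Y.bd (d.q.f τ)) = L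
    generalize d.u (Y'.base τ) = u
    induction L with
    | nil => simp
    | cons p L ih =>
      simp only [List.map_cons, List.sum_cons, LinearMap.add_apply, ih]
      rw [gg_expand, map_sum, Finset.smul_sum, ← Finset.sum_add_distrib]
      refine Finset.sum_congr rfl fun j _ => ?_
      simp only [LinearMap.smul_apply, LinearMap.comp_apply, map_add, smul_add]
      abel
  have h := LinearMap.congr_fun key c
  rw [LinearMap.comp_apply, LinearMap.sum_apply] at h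
  exact h

theorem Th_self (n : ℕ) (c : EqF (rT Y ρ) Y.F) : d.Th ρ n n c = Y.B2 (rT Y ρ) c := by
  have hA : ∀ e : EE Y, opA Y N n n e = LinearMap.id := by
    intro e
    have h0 : mulD Y N (n - n) e = LinearMap.id := by
      refine LinearMap.ext fun φ => funext fun ℓ => ?_
      show (ℓ e) ^ (n - n) • φ ℓ = φ ℓ
      rw [Nat.sub_self, pow_zero, one_smul]
    rw [opA, h0, Nat.choose_self, Nat.cast_one, one_smul, LinearMap.lTensor_id]
  have key : d.Th ρ n n = Y.B2 (rT Y ρ) := by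
    refine EqF.hom_ext (rT Y ρ) fun σ m => ?_
    rw [MomData.Th, EqF.lift_sg, HCpx.B2_sg]
    have h : ∀ (w : List (Y.E × Bool)) (e0 : EE Y), (((d.offs e0 w).map fun p =>
        sgnb p.1.2 • (EqF.sg (rT Y ρ) p.1.1 ∘ₗ opA Y N n n p.2)).sum) m =
        (w.map fun b => sgnb b.2 • EqF.sg (rT Y ρ) b.1 m).sum := by
      intro w
      induction w with
      | nil => intro e0; rfl
      | cons b w ih =>
        intro e0
        simp only [MomData.offs, List.map_cons, List.sum_cons, LinearMap.add_apply, ih,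
          LinearMap.smul_apply, LinearMap.comp_apply]
        rw [hA, LinearMap.id_apply]
    exact h _ _
  rw [key]

/-- constant functions on the dual -/
def cst (Y : HCpx H) (N : Type) [AddCommGroup N] [Module ℚ N] : N →ₗ[ℚ] DN Y N where
  toFun a := fun _ => a
  map_add' _ _ := rfl
  map_smul' _ _ := rfl

theorem mm_zero (c : EqF ρ Y'.F) :
    d.mm ρ 0 c = EqF.mapc ρ (rD Y ρ) (cst Y N) (fun _ _ => rfl) (EqF.push ρ d.q.f d.q.f_smul c) := by
  have key : d.mm ρ 0 = (EqF.mapc ρ (rD Y ρ) (cst Y N) (fun _ _ => rfl)) ∘ₗ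
      (EqF.push ρ d.q.f d.q.f_smul) := by
    refine EqF.hom_ext ρ fun τ a => ?_
    rw [LinearMap.comp_apply, EqF.push_sg, EqF.mapc_sg, MomData.mm, EqF.lift_sg,
      LinearMap.comp_apply]
    congr 1
    funext ℓ
    show (ℓ (d.u (Y'.base τ))) ^ 0 • a = a
    rw [pow_zero, one_smul]
  rw [key]
  rfl

/-- `e ⊗ φ ↦ (ℓ ↦ ℓ(e) φ(ℓ))` -/
def kap (Y : HCpx H) (N : Type) [AddCommGroup N] [Module ℚ N] :
    (EE Y) ⊗[ℚ] (DN Y N) →ₗ[ℚ] DN Y N :=
  TensorProduct.lift
    { toFun := fun e => mulD Y N 1 e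
      map_add' := fun e e' => by
        ext φ ℓ
        simp [mulD, add_smul]
      map_smul' := fun r e => by
        ext φ ℓ
        simp [mulD, mul_smul] }

theorem kap_tmul (Y : HCpx H) (N : Type) [AddCommGroup N] [Module ℚ N] (e : EE Y) (φ : DN Y N) :
    kap Y N (e ⊗ₜ φ) = mulD Y N 1 e φ := by
  simp [kap]

theorem kap_equiv (h : H) (z : (EE Y) ⊗[ℚ] (DN Y N)) :
    kap Y N (rT Y ρ h z) = rD Y ρ h (kap Y N z) := by
  induction z using TensorProduct.induction_on with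
  | zero => simp
  | add x y hx hy => simp only [map_add, hx, hy]
  | tmul e φ =>
    rw [Representation.tprod_apply, TensorProduct.map_tmul, kap_tmul, kap_tmul, mulD_equiv]

theorem mm_succ (n : ℕ) (c : EqF ρ Y'.F) :
    d.mm ρ (n + 1) c = EqF.mapc (rT Y ρ) (rD Y ρ) (kap Y N) (kap_equiv ρ) (d.tt ρ n c) := by
  have key : d.mm ρ (n + 1) = (EqF.mapc (rT Y ρ) (rD Y ρ) (kap Y N) (kap_equiv ρ)) ∘ₗ
      (d.tt ρ n) := by
    refine EqF.hom_ext ρ fun τ a => ?_
    rw [LinearMap.comp_apply, MomData.mm, EqF.lift_sg, MomData.tt, EqF.lift_sg,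
      LinearMap.comp_apply, LinearMap.comp_apply, EqF.mapc_sg]
    congr 1
    show _ = kap Y N (d.u (Y'.base τ) ⊗ₜ pw Y N n (d.u (Y'.base τ)) a)
    rw [kap_tmul]
    funext ℓ
    show (ℓ (d.u (Y'.base τ))) ^ (n + 1) • a = (ℓ (d.u (Y'.base τ))) ^ 1 • ((ℓ (d.u (Y'.base τ))) ^ n • a)
    rw [smul_smul, pow_one, pow_succ']
  rw [key]
  rfl

/-- `push` commutes with the boundary operators -/
theorem push_B2 (c : EqF ρ Y'.F) :
    Y.B2 ρ (EqF.push ρ d.q.f d.q.f_smul c) = EqF.push ρ d.q.e d.q.e_smul (Y'.B2 ρ c) := by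
  have key : (Y.B2 ρ) ∘ₗ (EqF.push ρ d.q.f d.q.f_smul) =
      (EqF.push ρ d.q.e d.q.e_smul) ∘ₗ (Y'.B2 ρ) := by
    refine EqF.hom_ext ρ fun τ a => ?_
    rw [LinearMap.comp_apply, LinearMap.comp_apply, EqF.push_sg, HCpx.B2_sg, HCpx.B2_sg,
      d.q.bd_e, map_list_sum, List.map_map, List.map_map]
    congr 1
    refine List.map_congr_left fun b _ => ?_
    rw [Function.comp_apply, Function.comp_apply, map_smul, EqF.push_sg]
    rfl
  exact LinearMap.congr_fun key c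

end MomData

end Pool.Agent.H60.CI
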