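import Mathlib

/-!
# Row Sep: separation by moments (pure linear algebra)

Let `e i` (`i ∈ I`, finite) be distinct vectors of a `ℚ`-vector space `E`, `c i` vectors of `N`, and
`Σ_i ℓ(e i)^n c i = 0` for all linear forms `ℓ` and all `n`.  Then all `c i = 0`.

Proof.
* `exists_sep`: there is a linear form `ℓ` with `ℓ (e i) ≠ ℓ (e j)` for all `i ≠ j` in `I`.  By
  induction on the finite set `D` of non-zero vectors (`D` = all differences `e i - e j`, `i ≠ j`):
  for every finite set `D` of non-zero vectors there is `ℓ` with `ℓ v ≠ 0` for `v ∈ D`: if `ℓ` works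
  for `D` and `ℓ v = 0` for the new `v`, take `ℓ'` with `ℓ' v ≠ 0`
  (`Module.exists_dual_forall_apply_ne_zero` or `Module.forall_dual_apply_eq_zero_iff`) and
  `ℓ + r • ℓ'` with `r : ℚ` non-zero and outside the finite set `{- ℓ v' / ℓ' v'}`.
  (Mathlib may have it: `Module.Dual.exists_forall_mem_ne_zero_of_forall_exists` or
  `Module.exists_dual_forall_apply_ne_zero`.)
* For a polynomial `P : Polynomial ℚ`: `Σ_i P(ℓ (e i)) • c i = 0` by linearity.  Lagrange: for `i0 ∈ I`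
  take `P = ∏_{j ∈ I, j ≠ i0} (X - ℓ (e j))`, which vanishes at `ℓ (e j)`, `j ≠ i0`, and not at
  `ℓ (e i0)`.  So `P(ℓ (e i0)) • c i0 = 0` and `c i0 = 0`.
-/

namespace Pool.Agent.H60.CI

theorem exists_sep {ι E : Type} [AddCommGroup E] [Module ℚ E] (I : Finset ι) (e : ι → E)
    (hinj : ∀ i ∈ I, ∀ j ∈ I, e i = e j → i = j) :
    ∃ ℓ : Module.Dual ℚ E, ∀ i ∈ I, ∀ j ∈ I, ℓ (e i) = ℓ (e j) → i = j := by
  classical
  obtain ⟨ℓ, hℓ⟩ := Module.exists_dual_forall_apply_ne_zero (K := ℚ)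
    (fun q : {q : I × I // q.1 ≠ q.2} => e q.1.1 - e q.1.2) (by
      rintro ⟨⟨i, j⟩, hij⟩ h0
      apply hij
      exact Subtype.ext (hinj i i.2 j j.2 (sub_eq_zero.1 h0)))
  refine ⟨ℓ, fun i hi j hj h => ?_⟩
  by_contra hne
  refine hℓ ⟨(⟨i, hi⟩, ⟨j, hj⟩), fun h2 => hne (congrArg Subtype.val h2)⟩ ?_
  show ℓ (e i - e j) = 0
  rw [map_sub, h, sub_self]

theorem Sep_poly {ι E N : Type} [AddCommGroup E] [Module ℚ E] [AddCommGroup N] [Module ℚ N]
    (I : Finset ι) (e : ι → E) (c : ι → N) (ℓ : Module.Dual ℚ E)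
    (h : ∀ n : ℕ, ∑ i ∈ I, (ℓ (e i)) ^ n • c i = 0) (P : Polynomial ℚ) :
    ∑ i ∈ I, (P.eval (ℓ (e i))) • c i = 0 := by
  have h1 : ∀ i ∈ I, (P.eval (ℓ (e i))) • c i =
      ∑ n ∈ Finset.range (P.natDegree + 1), P.coeff n • ((ℓ (e i)) ^ n • c i) := by
    intro i _
    rw [Polynomial.eval_eq_sum_range, Finset.sum_smul]
    exact Finset.sum_congr rfl fun n _ => mul_smul _ _ _
  rw [Finset.sum_congr rfl h1, Finset.sum_comm]
  refine Finset.sum_eq_zero fun n _ => ?_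
  rw [← Finset.smul_sum, h n, smul_zero]

theorem moment_sep {ι E N : Type} [AddCommGroup E] [Module ℚ E] [AddCommGroup N] [Module ℚ N]
    (I : Finset ι) (e : ι → E) (c : ι → N) (hinj : ∀ i ∈ I, ∀ j ∈ I, e i = e j → i = j)
    (h : ∀ (ℓ : Module.Dual ℚ E) (n : ℕ), ∑ i ∈ I, (ℓ (e i)) ^ n • c i = 0) :
    ∀ i ∈ I, c i = 0 := by
  classical
  obtain ⟨ℓ, hℓ⟩ := exists_sep I e hinj
  intro i hi
  have h1 := Sep_poly I e c ℓ (h ℓ)
    (∏ j ∈ I.erase i, (Polynomial.X - Polynomial.C (ℓ (e j))))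
  rw [Finset.sum_eq_single i] at h1
  · refine (smul_eq_zero.1 h1).resolve_left ?_
    rw [Polynomial.eval_prod]
    refine Finset.prod_ne_zero_iff.2 ?_
    intro j hj
    rw [Polynomial.eval_sub, Polynomial.eval_X, Polynomial.eval_C, sub_ne_zero]
    intro h2
    exact (Finset.mem_erase.1 hj).1 (hℓ j (Finset.mem_erase.1 hj).2 i hi h2.symm)
  · intro j hj hji
    rw [Polynomial.eval_prod, Finset.prod_eq_zero (Finset.mem_erase.2 ⟨hji, hj⟩), zero_smul]
    rw [Polynomial.eval_sub, Polynomial.eval_X, Polynomial.eval_C, sub_self]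
  · intro h2
    exact absurd hi h2

end Pool.Agent.H60.CI
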