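import Pool.Agent.H60.CI.MoDefs
import Pool.Agent.H60.CI.EqA
import Pool.Agent.H60.CI.Sep

/-!
# Row MoB: an equivariant 2-chain whose moments all vanish is zero

Let `c : EqF ρ Y'.F` with `mm n c = 0` for all `n`.  Then `c = 0`.

Proof.  By `EqF.decomp`, `c = Σ_{τ ∈ S} sg τ (c_τ)` with `c_τ = ev τ c` and the elements of `S` in
different orbits.  By `EqF.ext` it suffices: `ev τ0 c = 0` for all `τ0 : Y'.F`.  Fix `τ0`, put
`σ = q τ0`.  Let `S' ⊆ S` be the set of `τ ∈ S` such that some `h_τ • q τ = σ` (`h_τ` is unique), and for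
`τ ∈ S'` put `τ' = h_τ • τ`; these are distinct 2-cells over `σ` (different orbits).  Then
`0 = ev σ (mm n c) = Σ_{τ ∈ S'} rD h_τ (pw n (u (base τ)) c_τ) = Σ_{τ ∈ S'} pw n (u (base τ')) (ρ h_τ c_τ)`
(`ev_sg`, `ev_sg_of_not`, `pw_equiv`, `u_smul`, `base_smul`), i.e.
`Σ_{τ ∈ S'} ℓ(u (base τ'))^n • (ρ h_τ c_τ) = 0` for all `ℓ`, `n`.  The vectors `u (base τ')` are distinct:
if `u (base τ') = u (base τ'')` then, as `q (base τ') = base (q τ') = base σ = q (base τ'')`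
(`base_v`), `base τ' = base τ''` by `u_inj` and `τ' = τ''` by `face_inj`.  So `moment_sep` gives
`ρ h_τ c_τ = 0`, `c_τ = 0` for all `τ ∈ S'`.  Finally `ev τ0 c = Σ_{τ ∈ S} ev τ0 (sg τ c_τ)`: if `τ` is in
the orbit of `τ0` then `τ ∈ S'` and `c_τ = 0`; otherwise the term is 0.
-/

noncomputable section

namespace Pool.Agent.H60.CI

open Finsupp TensorProduct

variable {H : Type} [Group H]

theorem MomData.eq_zero_of_mm {Y' Y : HCpx H} (d : MomData Y' Y)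
    {N : Type} [AddCommGroup N] [Module ℚ N] (ρ : Representation ℚ H N)
    (c : EqF ρ Y'.F) (hc : ∀ n, d.mm ρ n c = 0) : c = 0 := by
  classical
  apply EqF.ext
  intro τ0
  obtain ⟨S, hS, hcS⟩ := EqF.decomp ρ c
  obtain ⟨z, hz⟩ : ∃ z : Y'.F → N, z = fun τ => EqF.ev ρ τ c := ⟨_, rfl⟩
  have hcz : c = ∑ τ ∈ S, EqF.sg ρ τ (z τ) := by rw [hz]; exact hcS
  obtain ⟨σ, hσ⟩ : ∃ σ, σ = d.q.f τ0 := ⟨_, rfl⟩
  have hh : ∀ τ : Y'.F, ∃ h : H, (∃ h' : H, h' • d.q.f τ = σ) → h • d.q.f τ = σ := by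
    intro τ
    by_cases h : ∃ h' : H, h' • d.q.f τ = σ
    · obtain ⟨h', h1⟩ := h
      exact ⟨h', fun _ => h1⟩
    · exact ⟨1, fun h2 => absurd h2 h⟩
  choose hf hhf using hh
  have key : ∀ (ℓ : Module.Dual ℚ (EE Y)) (n : ℕ),
      ∑ τ ∈ S.filter (fun τ => ∃ h' : H, h' • d.q.f τ = σ),
        (ℓ (d.u (Y'.base (hf τ • τ)))) ^ n • ρ (hf τ) (z τ) = 0 := by
    intro ℓ n
    have h1 : EqF.ev (rD Y ρ) σ (d.mm ρ n c) = 0 := by rw [hc, map_zero]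
    rw [hcz, map_sum, map_sum] at h1
    have h2 : ∀ τ ∈ S, EqF.ev (rD Y ρ) σ (d.mm ρ n (EqF.sg ρ τ (z τ))) =
        if (∃ h' : H, h' • d.q.f τ = σ) then
          pw Y N n (d.u (Y'.base (hf τ • τ))) (ρ (hf τ) (z τ)) else 0 := by
      intro τ _
      have h3 : d.mm ρ n (EqF.sg ρ τ (z τ)) =
          EqF.sg (rD Y ρ) (d.q.f τ) (pw Y N n (d.u (Y'.base τ)) (z τ)) := by
        rw [MomData.mm, EqF.lift_sg]
        rfl
      rw [h3]
      split_ifs with h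
      · rw [EqF.ev_sg (rD Y ρ) (hhf τ h), Y'.base_smul, d.u_smul, pw_equiv]
      · exact EqF.ev_sg_of_not (rD Y ρ) (fun g hg => h ⟨g, hg⟩) _
    rw [Finset.sum_congr rfl h2, ← Finset.sum_filter] at h1
    have h4 := congrFun h1 ℓ
    rw [Finset.sum_apply] at h4
    exact h4
  have hinj : ∀ τ ∈ S.filter (fun τ => ∃ h' : H, h' • d.q.f τ = σ),
      ∀ τ' ∈ S.filter (fun τ => ∃ h' : H, h' • d.q.f τ = σ),
      d.u (Y'.base (hf τ • τ)) = d.u (Y'.base (hf τ' • τ')) → τ = τ' := by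
    intro τ hτ τ' hτ' he
    rw [Finset.mem_filter] at hτ hτ'
    have h1 : ∀ τ : Y'.F, (∃ h' : H, h' • d.q.f τ = σ) → d.q.f (hf τ • τ) = σ := by
      intro τ h
      rw [d.q.f_smul]
      exact hhf τ h
    have h2 := d.u_inj _ _ (by
      rw [← d.q.base_v, ← d.q.base_v, h1 τ hτ.2, h1 τ' hτ'.2]) he
    have h3 := d.face_inj _ _ h2 (by rw [h1 τ hτ.2, h1 τ' hτ'.2])
    refine hS τ hτ.1 τ' hτ'.1 ⟨(hf τ')⁻¹ * hf τ, ?_⟩
    rw [mul_smul, h3, inv_smul_smul]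
  have h0 := moment_sep _ (fun τ => d.u (Y'.base (hf τ • τ))) (fun τ => ρ (hf τ) (z τ)) hinj key
  rw [hcz, map_sum]
  refine Finset.sum_eq_zero fun τ hτ => ?_
  by_cases hg : ∃ g : H, g • τ = τ0
  · obtain ⟨g, hg⟩ := hg
    have h1 : ∃ h' : H, h' • d.q.f τ = σ := ⟨g, by rw [← d.q.f_smul, hg, hσ]⟩
    have h2 : ρ (hf τ) (z τ) = 0 := h0 τ (Finset.mem_filter.2 ⟨hτ, h1⟩)
    have h3 : z τ = 0 := by
      have h4 : ρ (hf τ)⁻¹ (ρ (hf τ) (z τ)) = z τ := by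
        rw [← Module.End.mul_apply, ← map_mul, inv_mul_cancel, map_one]
        rfl
      rw [← h4, h2, map_zero]
    rw [h3, map_zero, map_zero]
  · exact EqF.ev_sg_of_not ρ (fun g h => hg ⟨g, h⟩) _

end Pool.Agent.H60.CI
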