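import Pool.Agent.H60.CI.MoA
import Pool.Agent.H60.CI.MoB
import Pool.Agent.H60.CI.CcB

/-!
# Row MoC: the induction step `SS B Y → SS B Y'`

Let `ρ` with `T2 B ρ` and `c : EqF ρ Y'.F` with `B2 c = 0`.
1. `push q c` is a cycle (`push_B2`), so `push q c = 0` by `SS B Y` (applied to `ρ`), so `mm 0 c = 0`
   (`mm_zero`).
2. Strong induction on `n`: `tt n c = 0`.  Suppose `tt j c = 0` for `j < n`.  Then `mm j c = 0` for all
   `j ≤ n` (`mm_zero` for `j = 0`, `mm_succ` for `j ≥ 1`).  By `nn_B2`,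
   `0 = nn n (B2 c) = Σ_{j ≤ n} (Th n j (tt j c) + Xi n j (mm j c)) = Th n n (tt n c) = B2 (tt n c)`
   (`Th_self`).  `T2 B (rT Y ρ)` holds by `claimC` (with `rD Y ρ` instead of `ρ`), so `tt n c = 0` by
   `SS B Y` applied to `rT Y ρ`.
3. So `mm n c = 0` for all `n` and `c = 0` by `eq_zero_of_mm`.
-/

noncomputable section

namespace Pool.Agent.H60.CI

open Finsupp TensorProduct

variable {H : Type} [Group H]

theorem MomData.SS_step {B Y' Y : HCpx H} (hB1 : B.H1z) (hB2 : B.H2z) (hY : Y.H2z)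
    (d : MomData Y' Y) (hS : SS B Y) : SS B Y' := by
  intro N _ _ ρ hT c hc
  have hp : EqF.push ρ d.q.f d.q.f_smul c = 0 := by
    apply hS N ρ hT
    rw [d.push_B2 ρ c, hc, map_zero]
  have hm0 : d.mm ρ 0 c = 0 := by rw [d.mm_zero, hp, map_zero]
  have ht : ∀ n, d.tt ρ n c = 0 := by
    intro n
    induction n using Nat.strong_induction_on with
    | _ n ih =>
      have hm : ∀ j, j ≤ n → d.mm ρ j c = 0 := by
        intro j hj
        cases j with
        | zero => exact hm0
        | succ j => rw [d.mm_succ, ih j (by omega), map_zero]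
      have h1 := d.nn_B2 ρ n c
      rw [hc, map_zero, Finset.sum_eq_single n] at h1
      · rw [hm n le_rfl, map_zero, add_zero, d.Th_self] at h1
        exact hS _ (rT Y ρ) (claimC B Y hB1 hB2 hY (rD Y ρ)) _ h1.symm
      · intro j hj hjn
        have hlt : j < n := by
          have := Finset.mem_range.1 hj
          omega
        rw [ih j hlt, hm j hlt.le, map_zero, map_zero, add_zero]
      · intro h
        exact absurd (Finset.mem_range.2 (Nat.lt_succ_self n)) h
  apply d.eq_zero_of_mm ρ c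
  intro n
  cases n with
  | zero => exact hm0
  | succ n => rw [d.mm_succ, ht n, map_zero]

theorem MoC_push_B2 {Y' Y : HCpx H} (q : EqHom Y' Y) {N : Type} [AddCommGroup N] [Module ℚ N]
    (ρ : Representation ℚ H N) (c : EqF ρ Y'.F) :
    Y.B2 ρ (EqF.push ρ q.f q.f_smul c) = EqF.push ρ q.e q.e_smul (Y'.B2 ρ c) := by
  have key : (Y.B2 ρ) ∘ₗ (EqF.push ρ q.f q.f_smul) =
      (EqF.push ρ q.e q.e_smul) ∘ₗ (Y'.B2 ρ) := by
    refine EqF.hom_ext ρ fun τ a => ?_
    rw [LinearMap.comp_apply, LinearMap.comp_apply, EqF.push_sg, HCpx.B2_sg, HCpx.B2_sg,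
      q.bd_e, map_list_sum, List.map_map, List.map_map]
    congr 1
    refine List.map_congr_left fun b _ => ?_
    simp
  exact LinearMap.congr_fun key c

/-- start of the induction: `Y → B` injective on 2-cells -/
theorem SS_of_injective {B Y : HCpx H} (f : EqHom Y B) (hf : Function.Injective f.f) : SS B Y := by
  intro N _ _ ρ hT c hc
  have hp : EqF.push ρ f.f f.f_smul c = 0 := by
    apply hT
    rw [MoC_push_B2 f ρ c, hc, map_zero]
  apply EqF.ext
  intro τ
  have key : (EqF.ev ρ (f.f τ)) ∘ₗ (EqF.push ρ f.f f.f_smul) = EqF.ev ρ τ := by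
    refine EqF.hom_ext ρ fun s a => ?_
    rw [LinearMap.comp_apply, EqF.push_sg]
    by_cases hg : ∃ g : H, g • s = τ
    · obtain ⟨g, hg⟩ := hg
      rw [EqF.ev_sg ρ hg, EqF.ev_sg ρ (g := g) (by rw [← f.f_smul, hg])]
    · rw [EqF.ev_sg_of_not ρ (fun g h => hg ⟨g, h⟩), EqF.ev_sg_of_not ρ (fun g h => hg ⟨g, hf (by
        rw [f.f_smul, h])⟩)]
  rw [← key, LinearMap.comp_apply, hp, map_zero]

end Pool.Agent.H60.CI
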