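import Pool.Agent.H60.CI.Hcx

/-!
# Moments of an equivariant 2-chain: definitions

`q : Y' → Y` an equivariant immersion, `u : V(Y') → E_Y = C_1(Y)/∂C_2(Y)` equivariant with
`u (tgt e) - u (src e) = κ (q e)` for all edges `e` of `Y'`, injective on the fibres of `q`.
-/

noncomputable section

namespace Pool.Agent.H60.CI

open Finsupp TensorProduct

variable {H : Type} [Group H]

/-- the data of the moment argument -/
structure MomData (Y' Y : HCpx H) where
  q : EqHom Y' Y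
  u : Y'.V → EE Y
  κ : Y.E → EE Y
  u_smul : ∀ (h : H) v, u (h • v) = qE Y h (u v)
  κ_smul : ∀ (h : H) ε, κ (h • ε) = qE Y h (κ ε)
  u_edge : ∀ e : Y'.E, u (Y'.tgt e) - u (Y'.src e) = κ (q.e e)
  face_inj : ∀ τ τ', Y'.base τ = Y'.base τ' → q.f τ = q.f τ' → τ = τ'
  u_inj : ∀ v v', q.v v = q.v v' → u v = u v' → v = v'

section

variable (Y : HCpx H) {N : Type} [AddCommGroup N] [Module ℚ N] (ρ : Representation ℚ H N)

/-- functions on the dual space of `E_Y` with values in `N` -/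
abbrev DN (N : Type) : Type := Module.Dual ℚ (EE Y) → N

/-- the action on `DN`: `(h • φ) ℓ = h • φ (ℓ ∘ h)` -/
def rD : Representation ℚ H (DN Y N) where
  toFun h :=
    { toFun := fun φ ℓ => ρ h (φ (ℓ ∘ₗ qE Y h))
      map_add' := fun _ _ => by ext; simp
      map_smul' := fun _ _ => by ext; simp }
  map_one' := by
    ext φ ℓ
    simp [Module.End.one_eq_id]
  map_mul' x y := by
    ext φ ℓ
    simp only [map_mul]
    rfl

theorem rD_apply (h : H) (φ : DN Y N) (ℓ : Module.Dual ℚ (EE Y)) :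
    rD Y ρ h φ ℓ = ρ h (φ (ℓ ∘ₗ qE Y h)) := rfl

variable (N)

/-- multiplication of a function on the dual by `ℓ ↦ (ℓ e)^k` -/
def mulD (k : ℕ) (e : EE Y) : DN Y N →ₗ[ℚ] DN Y N where
  toFun φ := fun ℓ => (ℓ e) ^ k • φ ℓ
  map_add' _ _ := by ext; simp
  map_smul' r φ := by
    ext ℓ
    simp only [Pi.smul_apply, RingHom.id_apply]
    rw [smul_comm]

/-- `a ↦ (ℓ ↦ (ℓ e)^n a)` -/
def pw (n : ℕ) (e : EE Y) : N →ₗ[ℚ] DN Y N where
  toFun a := fun ℓ => (ℓ e) ^ n • a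
  map_add' _ _ := by ext; simp
  map_smul' r φ := by
    ext ℓ
    simp only [Pi.smul_apply, RingHom.id_apply]
    rw [smul_comm]

/-- `a ↦ e ⊗ (ℓ ↦ (ℓ e)^n a)` -/
def gg (n : ℕ) (e : EE Y) : N →ₗ[ℚ] (EE Y) ⊗[ℚ] (DN Y N) :=
  (TensorProduct.mk ℚ (EE Y) (DN Y N) e) ∘ₗ pw Y N n e

/-- `C(n,j) (id ⊗ mulD (n-j) κ)` -/
def opA (n j : ℕ) (e : EE Y) : (EE Y) ⊗[ℚ] (DN Y N) →ₗ[ℚ] (EE Y) ⊗[ℚ] (DN Y N) :=
  (n.choose j : ℚ) • (mulD Y N (n - j) e).lTensor (EE Y)

/-- `φ ↦ C(n,j) e ⊗ mulD (n-j) e φ` -/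
def opB (n j : ℕ) (e : EE Y) : DN Y N →ₗ[ℚ] (EE Y) ⊗[ℚ] (DN Y N) :=
  (n.choose j : ℚ) • ((TensorProduct.mk ℚ (EE Y) (DN Y N) e) ∘ₗ mulD Y N (n - j) e)

variable {N}

/-- the coefficient representation `E_Y ⊗ DN` -/
abbrev rT : Representation ℚ H ((EE Y) ⊗[ℚ] (DN Y N)) := (qE Y).tprod (rD Y ρ)

theorem pw_equiv (n : ℕ) (h : H) (e : EE Y) (a : N) :
    pw Y N n (qE Y h e) (ρ h a) = rD Y ρ h (pw Y N n e a) := by
  ext ℓ
  simp [rD_apply, pw]

theorem gg_equiv (n : ℕ) (h : H) (e : EE Y) (a : N) :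
    gg Y N n (qE Y h e) (ρ h a) = rT Y ρ h (gg Y N n e a) := by
  simp [gg, pw_equiv]

theorem mulD_equiv (n : ℕ) (h : H) (e : EE Y) (φ : DN Y N) :
    mulD Y N n (qE Y h e) (rD Y ρ h φ) = rD Y ρ h (mulD Y N n e φ) := by
  ext ℓ
  simp [rD_apply, mulD]

theorem opA_equiv (n j : ℕ) (h : H) (e : EE Y) (z : (EE Y) ⊗[ℚ] (DN Y N)) :
    opA Y N n j (qE Y h e) (rT Y ρ h z) = rT Y ρ h (opA Y N n j e z) := by
  induction z using TensorProduct.induction_on with
  | zero => simp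
  | add x y hx hy => simp only [map_add, hx, hy]
  | tmul x φ =>
    simp only [opA, LinearMap.smul_apply, Representation.tprod_apply, TensorProduct.map_tmul,
      LinearMap.lTensor_tmul, mulD_equiv, map_smul]

theorem opB_equiv (n j : ℕ) (h : H) (e : EE Y) (φ : DN Y N) :
    opB Y N n j (qE Y h e) (rD Y ρ h φ) = rT Y ρ h (opB Y N n j e φ) := by
  simp only [opB, LinearMap.smul_apply, LinearMap.comp_apply, TensorProduct.mk_apply,
    Representation.tprod_apply, map_smul, TensorProduct.map_tmul, mulD_equiv]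

end

namespace MomData

variable {Y' Y : HCpx H} (d : MomData Y' Y)
variable {N : Type} [AddCommGroup N] [Module ℚ N] (ρ : Representation ℚ H N)

/-- the `n`-th moment with values in functions on the dual:
`sg τ a ↦ sg (q τ) (ℓ ↦ ℓ(u(base τ))^n a)` -/
def mm (n : ℕ) : EqF ρ Y'.F →ₗ[ℚ] EqF (rD Y ρ) Y.F :=
  EqF.lift ρ (fun τ => EqF.sg (rD Y ρ) (d.q.f τ) ∘ₗ pw Y N n (d.u (Y'.base τ)))
    (fun h τ a => by
      simp only [LinearMap.comp_apply, Y'.base_smul, d.u_smul, pw_equiv, d.q.f_smul,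
        EqF.sg_smul])

/-- `sg τ a ↦ sg (q τ) (u ⊗ (ℓ ↦ ℓ(u)^n a))`, `u = u(base τ)` -/
def tt (n : ℕ) : EqF ρ Y'.F →ₗ[ℚ] EqF (rT Y ρ) Y.F :=
  EqF.lift ρ (fun τ => EqF.sg (rT Y ρ) (d.q.f τ) ∘ₗ gg Y N n (d.u (Y'.base τ)))
    (fun h τ a => by
      simp only [LinearMap.comp_apply, Y'.base_smul, d.u_smul, gg_equiv, d.q.f_smul,
        EqF.sg_smul])

/-- `sg e a ↦ sg (q e) (u ⊗ (ℓ ↦ ℓ(u)^n a))`, `u = u(src e)` -/
def nn (n : ℕ) : EqF ρ Y'.E →ₗ[ℚ] EqF (rT Y ρ) Y.E :=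
  EqF.lift ρ (fun e => EqF.sg (rT Y ρ) (d.q.e e) ∘ₗ gg Y N n (d.u (Y'.src e)))
    (fun h τ a => by
      simp only [LinearMap.comp_apply, Y'.src_smul, d.u_smul, gg_equiv, d.q.e_smul,
        EqF.sg_smul])

/-- the oriented edges of a word together with the offset of the source of the edge:
if the word starts at a vertex with value `e0` of `u` then `off` is the value at the source -/
def offs (e0 : EE Y) : List (Y.E × Bool) → List ((Y.E × Bool) × EE Y)
  | [] => []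
  | a :: w => (a, if a.2 then e0 else e0 - d.κ a.1) :: offs (e0 + sgnb a.2 • d.κ a.1) w

theorem offs_equiv (h : H) (e0 : EE Y) (w : List (Y.E × Bool)) :
    d.offs (qE Y h e0) (w.map (Prod.map (h • ·) id))
      = (d.offs e0 w).map (Prod.map (Prod.map (h • ·) id) (qE Y h)) := by
  induction w generalizing e0 with
  | nil => rfl
  | cons a w ih =>
    rcases a with ⟨ε, b⟩
    have := ih (e0 + sgnb b • d.κ ε)
    simp only [map_add, map_smul] at this
    cases b <;> simp_all [offs, d.κ_smul]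

/-- `sg σ m ↦ Σ_{(a, off)} ±sg a (opA n j off m)` -/
def Th (n j : ℕ) : EqF (rT Y ρ) Y.F →ₗ[ℚ] EqF (rT Y ρ) Y.E :=
  EqF.lift (rT Y ρ)
    (fun σ => ((d.offs 0 (Y.bd σ)).map fun p =>
      sgnb p.1.2 • (EqF.sg (rT Y ρ) p.1.1 ∘ₗ opA Y N n j p.2)).sum)
    (fun h σ m => by
      have h0 : d.offs 0 (Y.bd (h • σ))
          = (d.offs 0 (Y.bd σ)).map (Prod.map (Prod.map (h • ·) id) (qE Y h)) := by
        rw [Y.bd_smul]; simpa using d.offs_equiv h 0 (Y.bd σ)
      rw [h0, List.map_map]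
      generalize d.offs 0 (Y.bd σ) = L
      induction L with
      | nil => simp
      | cons p L ih =>
        simp only [List.map_cons, List.sum_cons, LinearMap.add_apply, ih]
        congr 1
        simp only [Function.comp_apply, Prod.map_fst, Prod.map_snd, id_eq, LinearMap.smul_apply,
          LinearMap.comp_apply]
        rw [opA_equiv, EqF.sg_smul])

/-- `sg σ φ ↦ Σ_{(a, off)} ±sg a (opB n j off φ)` -/
def Xi (n j : ℕ) : EqF (rD Y ρ) Y.F →ₗ[ℚ] EqF (rT Y ρ) Y.E :=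
  EqF.lift (rD Y ρ)
    (fun σ => ((d.offs 0 (Y.bd σ)).map fun p =>
      sgnb p.1.2 • (EqF.sg (rT Y ρ) p.1.1 ∘ₗ opB Y N n j p.2)).sum)
    (fun h σ m => by
      have h0 : d.offs 0 (Y.bd (h • σ))
          = (d.offs 0 (Y.bd σ)).map (Prod.map (Prod.map (h • ·) id) (qE Y h)) := by
        rw [Y.bd_smul]; simpa using d.offs_equiv h 0 (Y.bd σ)
      rw [h0, List.map_map]
      generalize d.offs 0 (Y.bd σ) = L
      induction L with
      | nil => simp
      | cons p L ih =>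
        simp only [List.map_cons, List.sum_cons, LinearMap.add_apply, ih]
        congr 1
        simp only [Function.comp_apply, Prod.map_fst, Prod.map_snd, id_eq, LinearMap.smul_apply,
          LinearMap.comp_apply]
        rw [opB_equiv, EqF.sg_smul])

end MomData

end Pool.Agent.H60.CI
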