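import Pool.Agent.H60.CI.Clo

/-!
# Disjoint unions of precomplexes
-/

noncomputable section

set_option linter.unusedVariables false

namespace Pool.Agent.H60.CI

variable {B : Cpx}

/-- disjoint union of two precomplexes -/
def PC.sum (D C : PC B) : PC B where
  V := D.V ⊕ C.V
  p := Sum.elim D.p C.p
  adj := fun a e b => (∃ x y, a = Sum.inl x ∧ b = Sum.inl y ∧ D.adj x e y) ∨
    (∃ x y, a = Sum.inr x ∧ b = Sum.inr y ∧ C.adj x e y)
  mark := fun a σ => (∃ x, a = Sum.inl x ∧ D.mark x σ) ∨ (∃ x, a = Sum.inr x ∧ C.mark x σ)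
  adj_src := by
    rintro _ e _ (⟨x, y, rfl, rfl, h⟩ | ⟨x, y, rfl, rfl, h⟩)
    · exact D.adj_src h
    · exact C.adj_src h
  adj_tgt := by
    rintro _ e _ (⟨x, y, rfl, rfl, h⟩ | ⟨x, y, rfl, rfl, h⟩)
    · exact D.adj_tgt h
    · exact C.adj_tgt h
  mark_base := by
    rintro _ σ (⟨x, rfl, h⟩ | ⟨x, rfl, h⟩)
    · exact D.mark_base h
    · exact C.mark_base h

variable {D C : PC B}

/-- the first inclusion -/
def PC.inlM (D C : PC B) : PC.Mor D (D.sum C) where
  f := Sum.inl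
  p_f := fun _ => rfl
  adj_f := fun h => Or.inl ⟨_, _, rfl, rfl, h⟩
  mark_f := fun h => Or.inl ⟨_, rfl, h⟩

/-- the second inclusion -/
def PC.inrM (D C : PC B) : PC.Mor C (D.sum C) where
  f := Sum.inr
  p_f := fun _ => rfl
  adj_f := fun h => Or.inr ⟨_, _, rfl, rfl, h⟩
  mark_f := fun h => Or.inr ⟨_, rfl, h⟩

theorem PC.sum_adj_inl {x y : D.V} {e : B.E} :
    (D.sum C).adj (Sum.inl x) e (Sum.inl y) ↔ D.adj x e y := by
  constructor
  · rintro (⟨x', y', h1, h2, h⟩ | ⟨x', y', h1, h2, h⟩)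
    · cases h1; cases h2; exact h
    · cases h1
  · exact fun h => Or.inl ⟨_, _, rfl, rfl, h⟩

theorem PC.sum_adj_inr {x y : C.V} {e : B.E} :
    (D.sum C).adj (Sum.inr x) e (Sum.inr y) ↔ C.adj x e y := by
  constructor
  · rintro (⟨x', y', h1, h2, h⟩ | ⟨x', y', h1, h2, h⟩)
    · cases h1
    · cases h1; cases h2; exact h
  · exact fun h => Or.inr ⟨_, _, rfl, rfl, h⟩

/-- composition of morphisms -/
def PC.Mor.comp {D D' D'' : PC B} (m' : PC.Mor D' D'') (m : PC.Mor D D') : PC.Mor D D'' where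
  f := m'.f ∘ m.f
  p_f := fun x => (m'.p_f _).trans (m.p_f x)
  adj_f := fun h => m'.adj_f (m.adj_f h)
  mark_f := fun h => m'.mark_f (m.mark_f h)

/-- restriction of an equivalence relation on `D ⊔ C` to `D` -/
def PC.resl (D C : PC B) (R : Setoid (D.sum C).V) : Setoid D.V :=
  Setoid.comap (Sum.inl : D.V → (D.sum C).V) R

theorem PC.resl_iff (R : Setoid (D.sum C).V) (x y : D.V) :
    D.resl C R x y ↔ R (Sum.inl x) (Sum.inl y) := Iff.rfl

theorem PC.resl_cong {R : Setoid (D.sum C).V} (hR : (D.sum C).Cong R) : D.Cong (D.resl C R) where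
  fib := fun {x y} h => hR.fib (x := Sum.inl x) (y := Sum.inl y) h
  fwd := fun h h' hx => hR.fwd (PC.sum_adj_inl.2 h) (PC.sum_adj_inl.2 h') hx
  bwd := fun h h' hx => hR.bwd (PC.sum_adj_inl.2 h) (PC.sum_adj_inl.2 h') hx

end Pool.Agent.H60.CI
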