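import Pool.Agent.H60.CI.Hcx

/-!
# Row TfA: the coefficient module `ℚH / λ ℚH`

For `lam : MonoidAlgebra ℚ H` the vector space `NL lam = ℚH / lam ℚH` with the action
`h • [r] = [r h⁻¹]` is a representation `rL lam` of `H`.  For an `H`-set `T` the map
`hat : (T →₀ ℚ) → EqF (rL lam) T`, `single t 1 ↦ sg t [1]`, is surjective with kernel
`lam • (T →₀ ℚ)`.  The action of `ℚH` on `T →₀ ℚ` is `(perm H T).asAlgebraHom`.

Proofs.
* `rR`: `(r h'⁻¹) h⁻¹ = r (h h')⁻¹`.
* `hat_surj`: `sg t [r] = Σ_g r_g • sg t [g]` and `sg t [g] = sg (g • t) [1]` (apply `sg_smul` with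
  `h = g⁻¹` to `sg (g⁻¹ • (g • t)) (rL g⁻¹ [1])`).  In fact `sg t [r] = hat (r • single t 1)` (`hat_act`).
* `hat_lam`: `hat (lam • z) = 0`: for `z = single t 1`, `hat (lam • single t 1) = sg t [lam] = 0`.
* `hat_ker`: define `inv : EqF (rL lam) T → (T →₀ ℚ) / (lam • (T →₀ ℚ))` by `lift`,
  `inv (sg t [r]) = [r • single t 1]` (well defined: `[lam r'] ↦ [lam • (r' • single t 1)] = 0`,
  and `(h • t, [r h⁻¹]) ↦ [(r h⁻¹) • single (h • t) 1] = [r • single t 1]`); then `inv (hat z) = [z]`.
* `act_injective`: if `ℚH` has no zero divisors and `H` acts freely on `T` then `lam • z = 0` with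
  `lam ≠ 0` implies `z = 0`: suppose `z t0 ≠ 0`; let `r : MonoidAlgebra ℚ H`, `r_g = z (g • t0)`
  (finitely supported as the action is free); the coefficient of `lam • z` at `g • t0` is
  `Σ_h lam_h z (h⁻¹ g • t0) = (lam * r)_g`, so `lam * r = 0`, `r = 0`, `z t0 = r_1 = 0`.
-/

noncomputable section

namespace Pool.Agent.H60.CI

open Finsupp

variable {H : Type} [Group H]

/-- the action `h • r = r h⁻¹` on `ℚH` -/
def rR (H : Type) [Group H] : Representation ℚ H (MonoidAlgebra ℚ H) where
  toFun h := LinearMap.mulRight ℚ (MonoidAlgebra.single h⁻¹ (1 : ℚ))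
  map_one' := by
    ext x
    simp [MonoidAlgebra.one_def.symm]
  map_mul' x y := by
    ext z
    simp [mul_assoc]

theorem rR_apply (h : H) (r : MonoidAlgebra ℚ H) : rR H h r = r * MonoidAlgebra.single h⁻¹ 1 := rfl

/-- the right ideal `lam ℚH` as a subspace -/
def idL (lam : MonoidAlgebra ℚ H) : Submodule ℚ (MonoidAlgebra ℚ H) :=
  LinearMap.range (LinearMap.mulLeft ℚ lam)

theorem idL_inv (lam : MonoidAlgebra ℚ H) (h : H) : idL lam ≤ (idL lam).comap (rR H h) := by
  rintro _ ⟨r, rfl⟩
  refine ⟨r * MonoidAlgebra.single h⁻¹ 1, ?_⟩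
  simp [rR_apply, mul_assoc]

/-- `ℚH / lam ℚH` -/
abbrev NL (lam : MonoidAlgebra ℚ H) : Type := MonoidAlgebra ℚ H ⧸ idL lam

/-- the action of `H` on `ℚH / lam ℚH` -/
def rL (lam : MonoidAlgebra ℚ H) : Representation ℚ H (NL lam) :=
  (rR H).quotient (idL lam) (idL_inv lam)

/-- the action of `ℚH` on `T →₀ ℚ` -/
abbrev act (H : Type) [Group H] (T : Type) [MulAction H T] (lam : MonoidAlgebra ℚ H) :
    (T →₀ ℚ) →ₗ[ℚ] (T →₀ ℚ) := (perm H T).asAlgebraHom lam

/-- the map `single t 1 ↦ sg t [1]` -/
def hat (lam : MonoidAlgebra ℚ H) (T : Type) [MulAction H T] : (T →₀ ℚ) →ₗ[ℚ] EqF (rL lam) T :=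
  Finsupp.linearCombination ℚ fun t => EqF.sg (rL lam) t (Submodule.Quotient.mk 1)

theorem TfA_act_single (T : Type) [MulAction H T] (g : H) (q : ℚ) :
    act H T (MonoidAlgebra.single g q) = q • perm H T g :=
  Representation.asAlgebraHom_single _ _ _

theorem TfA_act_single_single (T : Type) [MulAction H T] (g : H) (q : ℚ) (t : T) (s : ℚ) :
    act H T (MonoidAlgebra.single g q) (single t s) = q • single (g • t) s := by
  rw [TfA_act_single, LinearMap.smul_apply, perm_single]

theorem TfA_act_add (T : Type) [MulAction H T] (a b : MonoidAlgebra ℚ H) :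
    act H T (a + b) = act H T a + act H T b := map_add _ _ _

theorem TfA_act_zero (T : Type) [MulAction H T] : act H T 0 = 0 := map_zero _

theorem TfA_act_one (T : Type) [MulAction H T] : act H T 1 = 1 := map_one _

theorem TfA_act_mul (T : Type) [MulAction H T] (a b : MonoidAlgebra ℚ H) (z : T →₀ ℚ) :
    act H T (a * b) z = act H T a (act H T b z) := by
  unfold act
  rw [map_mul]
  rfl

theorem hat_single (lam : MonoidAlgebra ℚ H) (T : Type) [MulAction H T] (t : T) (q : ℚ) :
    hat lam T (single t q) = q • EqF.sg (rL lam) t (Submodule.Quotient.mk 1) := by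
  unfold hat
  rw [Finsupp.linearCombination_single]

theorem TfA_rL_mk (lam : MonoidAlgebra ℚ H) (h : H) (r : MonoidAlgebra ℚ H) :
    rL lam h (Submodule.Quotient.mk r) = Submodule.Quotient.mk (r * MonoidAlgebra.single h⁻¹ 1) :=
  rfl

theorem hat_act (lam : MonoidAlgebra ℚ H) (T : Type) [MulAction H T] (t : T)
    (r : MonoidAlgebra ℚ H) :
    hat lam T (act H T r (single t 1)) = EqF.sg (rL lam) t (Submodule.Quotient.mk r) := by
  induction r using MonoidAlgebra.induction_linear with
  | zero => simp [TfA_act_zero]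
  | add f g hf hg => rw [TfA_act_add, LinearMap.add_apply, map_add, hf, hg, ← map_add]; rfl
  | single g q =>
    rw [TfA_act_single_single, map_smul, hat_single, one_smul]
    have h1 : (Submodule.Quotient.mk 1 : NL lam) =
        rL lam g (Submodule.Quotient.mk (MonoidAlgebra.single g 1)) := by
      rw [TfA_rL_mk, MonoidAlgebra.single_mul_single, mul_inv_cancel, one_mul]
      rfl
    rw [h1, EqF.sg_smul, ← map_smul]
    congr 1
    rw [← Submodule.Quotient.mk_smul, MonoidAlgebra.smul_single', mul_one]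

theorem hat_surj (lam : MonoidAlgebra ℚ H) (T : Type) [MulAction H T] :
    Function.Surjective (hat lam T) := by
  intro x
  obtain ⟨f, rfl⟩ := Submodule.Quotient.mk_surjective _ x
  induction f using Finsupp.induction_linear with
  | zero => exact ⟨0, by simp⟩
  | add f g hf hg =>
    obtain ⟨a, ha⟩ := hf
    obtain ⟨b, hb⟩ := hg
    refine ⟨a + b, ?_⟩
    rw [map_add, ha, hb]
    rfl
  | single t n =>
    obtain ⟨r, rfl⟩ := Submodule.Quotient.mk_surjective _ n
    exact ⟨act H T r (single t 1), hat_act lam T t r⟩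

theorem TfA_single_smul {T : Type} (t : T) (q : ℚ) : (single t q : T →₀ ℚ) = q • single t 1 := by
  simp

theorem hat_lam (lam : MonoidAlgebra ℚ H) (T : Type) [MulAction H T] (z : T →₀ ℚ) :
    hat lam T (act H T lam z) = 0 := by
  induction z using Finsupp.induction_linear with
  | zero => simp
  | add f g hf hg => rw [map_add, map_add, hf, hg, add_zero]
  | single t q =>
    rw [TfA_single_smul, map_smul, map_smul, hat_act]
    have h1 : (Submodule.Quotient.mk lam : NL lam) = 0 := by
      rw [Submodule.Quotient.mk_eq_zero]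
      exact ⟨1, by simp⟩
    rw [h1, map_zero, smul_zero]

/-- the map `[r] ↦ [r • single t 1]` -/
def TfA_L (lam : MonoidAlgebra ℚ H) (T : Type) [MulAction H T] (t : T) :
    NL lam →ₗ[ℚ] (T →₀ ℚ) ⧸ LinearMap.range (act H T lam) :=
  (idL lam).liftQ ((LinearMap.range (act H T lam)).mkQ ∘ₗ
    (LinearMap.applyₗ (single t 1)) ∘ₗ (perm H T).asAlgebraHom.toLinearMap) (by
      rintro _ ⟨r, rfl⟩
      rw [LinearMap.mem_ker]
      show Submodule.Quotient.mk (act H T (lam * r) (single t 1)) = 0
      rw [Submodule.Quotient.mk_eq_zero, TfA_act_mul]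
      exact ⟨_, rfl⟩)

theorem TfA_L_mk (lam : MonoidAlgebra ℚ H) (T : Type) [MulAction H T] (t : T)
    (r : MonoidAlgebra ℚ H) :
    TfA_L lam T t (Submodule.Quotient.mk r) = Submodule.Quotient.mk (act H T r (single t 1)) := rfl

theorem TfA_L_rel (lam : MonoidAlgebra ℚ H) (T : Type) [MulAction H T] (h : H) (t : T)
    (n : NL lam) : TfA_L lam T (h • t) (rL lam h n) = TfA_L lam T t n := by
  obtain ⟨r, rfl⟩ := Submodule.Quotient.mk_surjective _ n
  rw [TfA_rL_mk, TfA_L_mk, TfA_L_mk, TfA_act_mul, TfA_act_single_single, one_smul, inv_smul_smul]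

theorem hat_ker (lam : MonoidAlgebra ℚ H) (T : Type) [MulAction H T] (z : T →₀ ℚ)
    (hz : hat lam T z = 0) : ∃ z', act H T lam z' = z := by
  have key : ∀ w : T →₀ ℚ, EqF.lift (rL lam) (TfA_L lam T) (TfA_L_rel lam T) (hat lam T w) =
      Submodule.Quotient.mk w := by
    intro w
    induction w using Finsupp.induction_linear with
    | zero => simp
    | add f g hf hg => rw [map_add, map_add, hf, hg]; rfl
    | single t q =>
      rw [hat_single, map_smul, EqF.lift_sg, TfA_L_mk, TfA_act_one, Module.End.one_apply,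
        ← Submodule.Quotient.mk_smul, ← TfA_single_smul]
  have h1 := key z
  rw [hz, map_zero] at h1
  exact (Submodule.Quotient.mk_eq_zero _).mp h1.symm

/-- `hat` commutes with equivariant matrices -/
theorem hat_mat (lam : MonoidAlgebra ℚ H) {T T' : Type} [MulAction H T] [MulAction H T']
    (D : T → (T' →₀ ℚ)) (hD : ∀ (h : H) (t : T), D (h • t) = (D t).mapDomain (h • ·))
    (z : T →₀ ℚ) :
    EqF.mat (rL lam) D hD (hat lam T z) = hat lam T' (Finsupp.linearCombination ℚ D z) := by
  induction z using Finsupp.induction_linear with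
  | zero => simp
  | add f g hf hg => rw [map_add, map_add, hf, hg, map_add, map_add]
  | single t q =>
    rw [hat_single, map_smul, EqF.mat_sg, Finsupp.linearCombination_single, map_smul]
    rfl

/-- linear maps given by equivariant matrices commute with the action of `ℚH` -/
theorem act_lin (lam : MonoidAlgebra ℚ H) {T T' : Type} [MulAction H T] [MulAction H T']
    (D : T → (T' →₀ ℚ)) (hD : ∀ (h : H) (t : T), D (h • t) = (D t).mapDomain (h • ·))
    (z : T →₀ ℚ) :
    Finsupp.linearCombination ℚ D (act H T lam z)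
      = act H T' lam (Finsupp.linearCombination ℚ D z) := by
  induction z using Finsupp.induction_linear with
  | zero => simp
  | add f g hf hg => rw [map_add, map_add, hf, hg, map_add, map_add]
  | single t q =>
    rw [Finsupp.linearCombination_single, TfA_single_smul, map_smul, map_smul, map_smul]
    congr 1
    induction lam using MonoidAlgebra.induction_linear with
    | zero => simp [TfA_act_zero]
    | add f g hf hg =>
      rw [TfA_act_add, LinearMap.add_apply, map_add, hf, hg, TfA_act_add, LinearMap.add_apply]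
    | single g s =>
      rw [TfA_act_single_single, map_smul, Finsupp.linearCombination_single, one_smul, hD,
        TfA_act_single, LinearMap.smul_apply]
      rfl

theorem TfA_perm_apply (T : Type) [MulAction H T] (h : H) (z : T →₀ ℚ) (t : T) :
    perm H T h z t = z (h⁻¹ • t) := by
  have h1 : t = h • (h⁻¹ • t) := (smul_inv_smul h t).symm
  conv_lhs => rw [h1]
  exact Finsupp.mapDomain_apply (MulAction.injective h) z (h⁻¹ • t)

theorem TfA_inj (T : Type) [MulAction H T] [FreeAct H T] (t0 : T) :
    Function.Injective fun g : H => g • t0 := by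
  intro a b hab
  have h1 : (b⁻¹ * a) • t0 = t0 := by
    rw [mul_smul]
    show b⁻¹ • (fun g : H => g • t0) a = t0
    rw [hab]
    exact inv_smul_smul b t0
  exact (inv_mul_eq_one.mp (FreeAct.free _ _ h1)).symm

/-- restriction to an orbit -/
def TfA_P (T : Type) [MulAction H T] [FreeAct H T] (t0 : T) (z : T →₀ ℚ) : MonoidAlgebra ℚ H :=
  MonoidAlgebra.ofCoeff (Finsupp.comapDomain (fun g : H => g • t0) z (TfA_inj T t0).injOn)

theorem TfA_P_apply (T : Type) [MulAction H T] [FreeAct H T] (t0 : T) (z : T →₀ ℚ) (g : H) :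
    (TfA_P T t0 z).coeff g = z (g • t0) := rfl

theorem TfA_P_act (T : Type) [MulAction H T] [FreeAct H T] (t0 : T) (lam : MonoidAlgebra ℚ H)
    (z : T →₀ ℚ) : TfA_P T t0 (act H T lam z) = lam * TfA_P T t0 z := by
  induction lam using MonoidAlgebra.induction_linear with
  | zero =>
    ext g
    rw [TfA_P_apply, TfA_act_zero]
    simp
  | add a b ha hb =>
    rw [add_mul, ← ha, ← hb]
    ext g
    rw [MonoidAlgebra.coeff_add, Finsupp.add_apply, TfA_P_apply, TfA_P_apply, TfA_P_apply,
      TfA_act_add, LinearMap.add_apply, Finsupp.add_apply]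
  | single h q =>
    ext g
    rw [TfA_P_apply, MonoidAlgebra.coeff_single_mul_apply, TfA_P_apply, TfA_act_single,
      LinearMap.smul_apply, Finsupp.smul_apply, TfA_perm_apply, smul_eq_mul, mul_smul]

theorem act_injective [NoZeroDivisors (MonoidAlgebra ℚ H)] (T : Type) [MulAction H T]
    [FreeAct H T] {lam : MonoidAlgebra ℚ H} (hlam : lam ≠ 0) {z : T →₀ ℚ}
    (hz : act H T lam z = 0) : z = 0 := by
  ext t0
  have h1 := TfA_P_act T t0 lam z
  rw [hz] at h1
  have h2 : TfA_P T t0 (0 : T →₀ ℚ) = (0 : MonoidAlgebra ℚ H) := by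
    ext g
    rw [TfA_P_apply]
    simp
  rw [h2] at h1
  have h3 : TfA_P T t0 z = (0 : MonoidAlgebra ℚ H) := by
    rcases mul_eq_zero.mp h1.symm with h | h
    · exact absurd h hlam
    · exact h
  have h4 := TfA_P_apply T t0 z (1 : H)
  rw [h3, one_smul] at h4
  rw [← h4]
  simp

end Pool.Agent.H60.CI
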