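import Pool.Agent.H60.CI.Tfn

/-!
# Row TnA: units of a filtered ring

`A` a rational algebra with subspaces `J 0 ≥ J 1 ≥ ... ≥ J n = ⊥`, `1 ∈ J 0`, `J i * J j ⊆ J (i+j)`.
`U1` = group of units `u` with `u - 1, u⁻¹ - 1 ∈ J 1`.  Claim: `TFN U1`.

`S k : Subgroup U1` := `{u | u - 1 ∈ J (k+1) ∧ u⁻¹ - 1 ∈ J (k+1)}` (general form `Uk` below, `k = 0`: all of
`U1`).  Elements of `U1` and their inverses are in `J 0`.  `S k` is normal:
`g u g⁻¹ - 1 = g (u - 1) g⁻¹ ∈ J 0 * J (k+1) * J 0`.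
By induction on `k`: `TFN (U1 ⧸ S k)`.
* `k = 0`: `S 0 = ⊤`, the quotient is trivial.
* `k → k+1`: `TFN.ext` with `U = U1 ⧸ S (k+1)`, `Q = U1 ⧸ S k`, `π = QuotientGroup.map _ _ (MonoidHom.id _) _`,
  `W = A ⧸ J (k+2)`, `V = (J (k+1)).map (J (k+2)).mkQ`, `φ [u] = [u - 1]` (`Quotient.lift`; well defined:
  `u⁻¹ u' ∈ S (k+1)` gives `u' - u = u (u⁻¹ u' - 1) ∈ J 0 * J (k+2)`).
  `h1`: `π [u] = 1` gives `u ∈ S k`, `u - 1 ∈ J (k+1)`.
  `h2`: `v = [a]`, `a ∈ J (k+1)`: `a` is nilpotent (`a ^ m ∈ J (m (k+1))`, `J m = ⊥` for `m ≥ n`), the unit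
    `1 + a` has inverse `1 + Σ_{1 ≤ j < n} (-a)^j`, which is in `1 + J (k+1)` (e.g. `unit_of_J` below).
  `h3`: `u u' - 1 = (u - 1) + (u' - 1) + (u - 1)(u' - 1)`, the product is in `J (2k+2) ≤ J (k+2)`.
  `h4`: `φ [u] = 0`: `u - 1 ∈ J (k+2)` and `u⁻¹ - 1 = - u⁻¹ (u - 1) ∈ J 0 * J (k+2)`, so `u ∈ S (k+1)`.
  `h5`: `u ∈ S k`, `u' ∈ U1`: `(u' u)⁻¹ (u u') - 1 = (u' u)⁻¹ ((u - 1)(u' - 1) - (u' - 1)(u - 1)) ∈ J (k+2)`; its
    inverse minus 1 as in `h4`.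
Finally for `k` with `J (k+1) = ⊥` (`k = n`), `S k = ⊥` and `TFN.ext` with `π = QuotientGroup.mk'`, `W = ℚ`,
`V = ⊥`, `φ = 0` gives `TFN U1`.
-/

noncomputable section

set_option linter.unusedVariables false

namespace Pool.Agent.H60.CI

/-- filtered rational algebra -/
structure FA (A : Type) [Ring A] [Algebra ℚ A] (n : ℕ) where
  J : ℕ → Submodule ℚ A
  one_mem : 1 ∈ J 0
  anti : ∀ k, J (k + 1) ≤ J k
  mul_mem : ∀ i j a b, a ∈ J i → b ∈ J j → a * b ∈ J (i + j)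
  bot : J n = ⊥

variable {A : Type} [Ring A] [Algebra ℚ A] {n : ℕ}

theorem FA.mono (f : FA A n) {i j : ℕ} (h : i ≤ j) : f.J j ≤ f.J i := by
  induction h with
  | refl => exact le_rfl
  | step _ ih => exact (f.anti _).trans ih

/-- the group of units congruent to 1 modulo `J (k+1)` -/
def FA.Uk (f : FA A n) (k : ℕ) : Subgroup Aˣ where
  carrier := {u | (u : A) - 1 ∈ f.J (k + 1) ∧ ((u⁻¹ : Aˣ) : A) - 1 ∈ f.J (k + 1)}
  one_mem' := by simp
  mul_mem' := by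
    have key : ∀ a b : A, a - 1 ∈ f.J (k + 1) → b - 1 ∈ f.J (k + 1) → a * b - 1 ∈ f.J (k + 1) := by
      intro a b ha hb
      have h1 := f.mono (show k + 1 ≤ (k + 1) + (k + 1) by omega) (f.mul_mem _ _ _ _ ha hb)
      have h2 := add_mem (add_mem h1 ha) hb
      convert h2 using 1
      noncomm_ring
    rintro u v ⟨hu, hu'⟩ ⟨hv, hv'⟩
    refine ⟨?_, ?_⟩
    · rw [Units.val_mul]; exact key _ _ hu hv
    · rw [mul_inv_rev, Units.val_mul]; exact key _ _ hv' hu'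
  inv_mem' := by
    rintro u ⟨hu, hu'⟩
    exact ⟨hu', by rwa [inv_inv]⟩

theorem TnA_pow (f : FA A n) (k : ℕ) (a : A) (ha : a ∈ f.J (k + 1)) (m : ℕ) :
    a ^ m ∈ f.J (m * (k + 1)) := by
  induction m with
  | zero => simpa using f.one_mem
  | succ m ih =>
    rw [pow_succ]
    have h := f.mul_mem _ _ _ _ ih ha
    have e : m * (k + 1) + (k + 1) = (m + 1) * (k + 1) := by ring
    rwa [e] at h

theorem FA.unit_of_J (f : FA A n) (k : ℕ) (a : A) (ha : a ∈ f.J (k + 1)) :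
    ∃ u ∈ f.Uk k, (u : A) = 1 + a := by
  have hna : -a ∈ f.J (k + 1) := neg_mem ha
  have hpow : (-a) ^ n = 0 := by
    have h1 := TnA_pow f k (-a) hna n
    have h2 := f.mono (Nat.le_mul_of_pos_right n (Nat.succ_pos k)) h1
    rw [f.bot] at h2
    exact (Submodule.mem_bot ℚ).1 h2
  have hg0 : (∑ i ∈ Finset.range n, (-a) ^ i) ∈ f.J 0 := by
    refine Submodule.sum_mem _ fun i _ => ?_
    exact f.mono (Nat.zero_le _) (TnA_pow f k (-a) hna i)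
  have h1 : (1 + a) * (∑ i ∈ Finset.range n, (-a) ^ i) = 1 := by
    have := mul_neg_geom_sum (-a) n
    rw [hpow, sub_neg_eq_add, sub_zero] at this
    exact this
  have h2 : (∑ i ∈ Finset.range n, (-a) ^ i) * (1 + a) = 1 := by
    have := geom_sum_mul_neg (-a) n
    rw [hpow, sub_neg_eq_add, sub_zero] at this
    exact this
  refine ⟨⟨1 + a, ∑ i ∈ Finset.range n, (-a) ^ i, h1, h2⟩, ⟨?_, ?_⟩, rfl⟩
  · show 1 + a - 1 ∈ f.J (k + 1)
    rwa [add_sub_cancel_left]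
  · show (∑ i ∈ Finset.range n, (-a) ^ i) - 1 ∈ f.J (k + 1)
    have h3 : (∑ i ∈ Finset.range n, (-a) ^ i) - 1 =
        (-a) * (∑ i ∈ Finset.range n, (-a) ^ i) := by
      rw [add_mul, one_mul] at h1
      rw [neg_mul, eq_neg_iff_add_eq_zero, ← h1]
      abel
    rw [h3]
    have := f.mul_mem _ _ _ _ hna hg0
    simpa using this

/-- the value of an element of `U1` -/
def TnA_v (f : FA A n) (u : f.Uk 0) : A := ((u : Aˣ) : A)

theorem TnA_v_mul (f : FA A n) (u u' : f.Uk 0) : TnA_v f (u * u') = TnA_v f u * TnA_v f u' := rfl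

theorem TnA_v_one (f : FA A n) : TnA_v f 1 = 1 := rfl

theorem TnA_v_inv (f : FA A n) (u : f.Uk 0) : TnA_v f u * TnA_v f u⁻¹ = 1 := by
  rw [← TnA_v_mul, mul_inv_cancel, TnA_v_one]

theorem TnA_v_inv' (f : FA A n) (u : f.Uk 0) : TnA_v f u⁻¹ * TnA_v f u = 1 := by
  rw [← TnA_v_mul, inv_mul_cancel, TnA_v_one]

theorem TnA_v_inj (f : FA A n) {u : f.Uk 0} (h : TnA_v f u = 1) : u = 1 := by
  apply Subtype.ext
  apply Units.ext
  exact h

theorem TnA_v_sub (f : FA A n) (u : f.Uk 0) : TnA_v f u - 1 ∈ f.J 1 := u.2.1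

theorem TnA_v_mem (f : FA A n) (u : f.Uk 0) : TnA_v f u ∈ f.J 0 := by
  have h := add_mem (f.mono (Nat.zero_le 1) (TnA_v_sub f u)) f.one_mem
  rwa [sub_add_cancel] at h

theorem TnA_mul0 (f : FA A n) (u : f.Uk 0) {k : ℕ} {a : A} (ha : a ∈ f.J k) :
    TnA_v f u * a ∈ f.J k := by
  have := f.mul_mem _ _ _ _ (TnA_v_mem f u) ha
  rwa [zero_add] at this

theorem TnA_0mul (f : FA A n) (u : f.Uk 0) {k : ℕ} {a : A} (ha : a ∈ f.J k) :
    a * TnA_v f u ∈ f.J k := by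
  have := f.mul_mem _ _ _ _ ha (TnA_v_mem f u)
  rwa [add_zero] at this

/-- the filtration of `U1` -/
def TnA_S (f : FA A n) (k : ℕ) : Subgroup (f.Uk 0) where
  carrier := {u | TnA_v f u - 1 ∈ f.J (k + 1)}
  one_mem' := by
    show TnA_v f 1 - 1 ∈ f.J (k + 1)
    rw [TnA_v_one, sub_self]
    exact zero_mem _
  mul_mem' := by
    intro u u' (h : TnA_v f u - 1 ∈ f.J (k + 1)) (h' : TnA_v f u' - 1 ∈ f.J (k + 1))
    show TnA_v f (u * u') - 1 ∈ f.J (k + 1)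
    have h1 := add_mem (TnA_mul0 f u h') h
    convert h1 using 1
    rw [TnA_v_mul]
    noncomm_ring
  inv_mem' := by
    intro u (h : TnA_v f u - 1 ∈ f.J (k + 1))
    show TnA_v f u⁻¹ - 1 ∈ f.J (k + 1)
    have h1 := neg_mem (TnA_mul0 f u⁻¹ h)
    convert h1 using 1
    rw [mul_sub, TnA_v_inv']
    noncomm_ring

theorem TnA_mem (f : FA A n) (k : ℕ) (u : f.Uk 0) :
    u ∈ TnA_S f k ↔ TnA_v f u - 1 ∈ f.J (k + 1) := Iff.rfl

instance TnA_normal (f : FA A n) (k : ℕ) : (TnA_S f k).Normal := by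
  refine ⟨fun u hu g => ?_⟩
  rw [TnA_mem] at hu ⊢
  have h1 := TnA_0mul f g⁻¹ (TnA_mul0 f g hu)
  convert h1 using 1
  rw [TnA_v_mul, TnA_v_mul, mul_sub, sub_mul, mul_one, TnA_v_inv]

theorem TnA_le (f : FA A n) (k : ℕ) :
    TnA_S f (k + 1) ≤ (TnA_S f k).comap (MonoidHom.id (f.Uk 0)) := by
  intro u hu
  rw [Subgroup.mem_comap, MonoidHom.id_apply, TnA_mem]
  rw [TnA_mem] at hu
  exact f.anti _ hu

/-- projection of the quotients -/
def TnA_π (f : FA A n) (k : ℕ) : (f.Uk 0) ⧸ (TnA_S f (k + 1)) →* (f.Uk 0) ⧸ (TnA_S f k) :=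
  QuotientGroup.map _ _ (MonoidHom.id _) (TnA_le f k)

theorem TnA_π_mk (f : FA A n) (k : ℕ) (u : f.Uk 0) :
    TnA_π f k (u : (f.Uk 0) ⧸ (TnA_S f (k + 1))) = (u : (f.Uk 0) ⧸ (TnA_S f k)) := rfl

theorem TnA_wd (f : FA A n) (k : ℕ) (u u' : f.Uk 0)
    (h : (QuotientGroup.leftRel (TnA_S f (k + 1))) u u') :
    (f.J (k + 2)).mkQ (TnA_v f u - 1) = (f.J (k + 2)).mkQ (TnA_v f u' - 1) := by
  rw [QuotientGroup.leftRel_apply, TnA_mem] at h
  rw [eq_comm, ← sub_eq_zero, ← map_sub, Submodule.mkQ_apply, Submodule.Quotient.mk_eq_zero]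
  have h1 := TnA_mul0 f u h
  have h2 : TnA_v f u * (TnA_v f (u⁻¹ * u') - 1) = TnA_v f u' - 1 - (TnA_v f u - 1) := by
    rw [mul_sub, ← TnA_v_mul, mul_inv_cancel_left]
    noncomm_ring
  rwa [h2] at h1

/-- the coordinate -/
def TnA_φ (f : FA A n) (k : ℕ) : (f.Uk 0) ⧸ (TnA_S f (k + 1)) → A ⧸ f.J (k + 2) :=
  Quotient.lift (fun u => (f.J (k + 2)).mkQ (TnA_v f u - 1)) (TnA_wd f k)

theorem TnA_φ_mk (f : FA A n) (k : ℕ) (u : f.Uk 0) :
    TnA_φ f k (u : (f.Uk 0) ⧸ (TnA_S f (k + 1))) = (f.J (k + 2)).mkQ (TnA_v f u - 1) := rfl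

theorem TnA_tfn (f : FA A n) (k : ℕ) : TFN ((f.Uk 0) ⧸ (TnA_S f k)) := by
  induction k with
  | zero =>
    refine TFN.triv _ fun q => ?_
    obtain ⟨u, rfl⟩ := QuotientGroup.mk_surjective q
    rw [QuotientGroup.eq_one_iff, TnA_mem]
    exact TnA_v_sub f u
  | succ k ih =>
    refine TFN.ext _ _ (TnA_π f k) ?_ (A ⧸ f.J (k + 2)) ((f.J (k + 1)).map (f.J (k + 2)).mkQ)
      (TnA_φ f k) ?_ ?_ ?_ ?_ ?_ ih
    · intro q
      obtain ⟨u, rfl⟩ := QuotientGroup.mk_surjective q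
      exact ⟨(u : (f.Uk 0) ⧸ (TnA_S f (k + 1))), rfl⟩
    · intro q hq
      obtain ⟨u, rfl⟩ := QuotientGroup.mk_surjective q
      rw [TnA_π_mk, QuotientGroup.eq_one_iff, TnA_mem] at hq
      rw [TnA_φ_mk]
      exact Submodule.mem_map_of_mem hq
    · rintro _ ⟨a, ha, rfl⟩
      obtain ⟨u, hu, hua⟩ := f.unit_of_J k a ha
      have hu0 : u ∈ f.Uk 0 := ⟨f.mono (by omega) hu.1, f.mono (by omega) hu.2⟩
      have hv : TnA_v f ⟨u, hu0⟩ - 1 = a := by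
        show (u : A) - 1 = a
        rw [hua, add_sub_cancel_left]
      refine ⟨((⟨u, hu0⟩ : f.Uk 0) : (f.Uk 0) ⧸ (TnA_S f (k + 1))), ?_, ?_⟩
      · rw [TnA_π_mk, QuotientGroup.eq_one_iff, TnA_mem, hv]
        exact ha
      · rw [TnA_φ_mk, hv]
    · intro q q' hq hq'
      obtain ⟨u, rfl⟩ := QuotientGroup.mk_surjective q
      obtain ⟨u', rfl⟩ := QuotientGroup.mk_surjective q'
      rw [TnA_π_mk, QuotientGroup.eq_one_iff, TnA_mem] at hq hq'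
      rw [← QuotientGroup.mk_mul, TnA_φ_mk, TnA_φ_mk, TnA_φ_mk, ← map_add, ← sub_eq_zero,
        ← map_sub, Submodule.mkQ_apply, Submodule.Quotient.mk_eq_zero]
      have h1 := f.mono (show k + 2 ≤ (k + 1) + (k + 1) by omega) (f.mul_mem _ _ _ _ hq hq')
      convert h1 using 1
      rw [TnA_v_mul]
      noncomm_ring
    · intro q hq h0
      obtain ⟨u, rfl⟩ := QuotientGroup.mk_surjective q
      rw [TnA_φ_mk, Submodule.mkQ_apply, Submodule.Quotient.mk_eq_zero] at h0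
      rw [QuotientGroup.eq_one_iff, TnA_mem]
      exact h0
    · intro q q' hq
      obtain ⟨u, rfl⟩ := QuotientGroup.mk_surjective q
      obtain ⟨u', rfl⟩ := QuotientGroup.mk_surjective q'
      rw [TnA_π_mk, QuotientGroup.eq_one_iff, TnA_mem] at hq
      rw [← QuotientGroup.mk_mul, ← QuotientGroup.mk_mul, QuotientGroup.eq, TnA_mem]
      have h1 := f.mul_mem _ _ _ _ (TnA_v_sub f u') hq
      have h2 := f.mul_mem _ _ _ _ hq (TnA_v_sub f u')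
      rw [add_comm 1 (k + 1)] at h1
      have h3 := TnA_mul0 f (u * u')⁻¹ (sub_mem h1 h2)
      convert h3 using 1
      have e1 : (TnA_v f u' - 1) * (TnA_v f u - 1) - (TnA_v f u - 1) * (TnA_v f u' - 1) =
          TnA_v f (u' * u) - TnA_v f (u * u') := by
        rw [TnA_v_mul, TnA_v_mul]
        noncomm_ring
      rw [e1, mul_sub, ← TnA_v_mul, ← TnA_v_mul, inv_mul_cancel, TnA_v_one]

theorem FA.tfn (f : FA A n) : TFN (f.Uk 0) := by
  have hS : ∀ u : f.Uk 0, u ∈ TnA_S f n → u = 1 := by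
    intro u hu
    rw [TnA_mem] at hu
    have h1 := f.mono (Nat.le_succ n) hu
    rw [f.bot, Submodule.mem_bot, sub_eq_zero] at h1
    exact TnA_v_inj f h1
  have hk : ∀ u : f.Uk 0, QuotientGroup.mk' (TnA_S f n) u = 1 → u = 1 := by
    intro u hu
    exact hS u ((QuotientGroup.eq_one_iff u).1 hu)
  refine TFN.ext _ _ (QuotientGroup.mk' (TnA_S f n)) (QuotientGroup.mk'_surjective _) ℚ ⊥
    (fun _ => 0) ?_ ?_ ?_ ?_ ?_ (TnA_tfn f n)
  · intro u _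
    exact zero_mem _
  · intro v hv
    rw [Submodule.mem_bot] at hv
    exact ⟨1, map_one _, hv.symm⟩
  · intro u u' _ _
    simp
  · intro u hu _
    exact hk u hu
  · intro u u' hu
    rw [hk u hu, one_mul, mul_one]

end Pool.Agent.H60.CI
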