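import Mathlib

/-!
# Row TnS: syllables of an element of a free group

Every `g : FreeGroup S` is `x_1 ^ n_1 * ... * x_m ^ n_m` with all `n_j ≠ 0` and `x_j ≠ x_{j+1}`.

Proof: `g = FreeGroup.mk L` (`FreeGroup.mk_toWord` or `Quot.ind`), induction on `L`; `L = (x, b) :: L'`,
`mk L = (of x) ^ (±1) * mk L'`.  Let `l` be the list for `mk L'`.
* `l = []`: take `[(x, ±1)]`.
* `l = (y, n) :: l'`, `y ≠ x`: take `(x, ±1) :: l`.
* `l = (x, n) :: l'`: if `n ± 1 ≠ 0` take `(x, n ± 1) :: l'`, otherwise take `l'`.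
-/

set_option linter.unusedVariables false

namespace Pool.Agent.H60.CI

theorem TnS_step {S : Type} (x : S) (ε : ℤ) (hε : ε ≠ 0) (g : FreeGroup S) (l : List (S × ℤ))
    (h1 : (l.map fun t => (FreeGroup.of t.1) ^ t.2).prod = g) (h2 : ∀ t ∈ l, t.2 ≠ 0)
    (h3 : l.IsChain (fun s t => s.1 ≠ t.1)) :
    ∃ l' : List (S × ℤ), (l'.map fun t => (FreeGroup.of t.1) ^ t.2).prod = (FreeGroup.of x) ^ ε * g ∧
      (∀ t ∈ l', t.2 ≠ 0) ∧ l'.IsChain (fun s t => s.1 ≠ t.1) := by
  classical
  cases l with
  | nil =>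
    refine ⟨[(x, ε)], ?_, ?_, ?_⟩
    · simp only [List.map_nil, List.prod_nil] at h1
      simp [← h1]
    · intro t ht
      rw [List.mem_singleton] at ht
      subst ht
      exact hε
    · exact List.isChain_singleton _
  | cons a l =>
    obtain ⟨y, n⟩ := a
    rw [List.map_cons, List.prod_cons] at h1
    by_cases hy : y = x
    · subst hy
      by_cases hn : ε + n = 0
      · refine ⟨l, ?_, fun t ht => h2 t (List.mem_cons_of_mem _ ht), ?_⟩
        · rw [← h1, ← mul_assoc, ← zpow_add, hn, zpow_zero, one_mul]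
        · exact h3.tail
      · refine ⟨(y, ε + n) :: l, ?_, ?_, ?_⟩
        · rw [List.map_cons, List.prod_cons, ← h1, ← mul_assoc, ← zpow_add]
        · intro t ht
          rcases List.mem_cons.1 ht with rfl | ht
          · exact hn
          · exact h2 t (List.mem_cons_of_mem _ ht)
        · cases l with
          | nil => exact List.isChain_singleton _
          | cons b l =>
            rw [List.isChain_cons_cons] at h3 ⊢
            exact h3
    · refine ⟨(x, ε) :: (y, n) :: l, ?_, ?_, ?_⟩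
      · rw [List.map_cons, List.prod_cons, List.map_cons, List.prod_cons, ← h1]
      · intro t ht
        rcases List.mem_cons.1 ht with rfl | ht
        · exact hε
        · exact h2 t ht
      · rw [List.isChain_cons_cons]
        exact ⟨fun h => hy h.symm, h3⟩

theorem syllables {S : Type} (g : FreeGroup S) :
    ∃ l : List (S × ℤ), (l.map fun t => (FreeGroup.of t.1) ^ t.2).prod = g ∧
      (∀ t ∈ l, t.2 ≠ 0) ∧ l.IsChain (fun s t => s.1 ≠ t.1) := by
  classical
  obtain ⟨L, rfl⟩ : ∃ L, FreeGroup.mk L = g := ⟨g.toWord, FreeGroup.mk_toWord⟩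
  induction L with
  | nil => exact ⟨[], by simp [← FreeGroup.one_eq_mk], by simp, List.isChain_nil⟩
  | cons a L ih =>
    obtain ⟨l, h1, h2, h3⟩ := ih
    obtain ⟨x, b⟩ := a
    have h4 : (FreeGroup.mk ((x, b) :: L) : FreeGroup S)
        = (FreeGroup.of x) ^ (if b then (1 : ℤ) else -1) * FreeGroup.mk L := by
      cases b
      · simp only [Bool.false_eq_true, if_false, zpow_neg, zpow_one]
        rw [FreeGroup.of, FreeGroup.inv_mk, FreeGroup.mul_mk]
        rfl
      · simp only [if_true, zpow_one]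
        rw [FreeGroup.of, FreeGroup.mul_mk]
        rfl
    rw [h4]
    exact TnS_step x _ (by cases b <;> simp) _ l h1 h2 h3

end Pool.Agent.H60.CI
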