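import Pool.Agent.H60.CI.TnA
import Pool.Agent.H60.CI.TnS

/-!
# Row TnC: free groups are residually iterated central extensions

Let `g ≠ 1` and `l` its list of syllables (`syllables`), `m = l.length ≥ 1` (`l = []` gives `g = 1`).
`V = Fin (m+1) → ℚ`, `A = Module.End ℚ V` (or `Module.End ℚ` of another model of functions on `{0,...,m}`),
`F p = {f | ∀ r, m < r + p → f r = 0}`, `J k = {a | ∀ p, ∀ f ∈ F p, a f ∈ F (p + k)}`; this is an `FA A (m+1)`
(`F 0 = ⊤` as `r ≤ m`, `F (m+1) = ⊥`).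
For `x : S` let `T x ∈ A`: `(T x f) r = f (r+1)` if `r < m` and `(l[r]).1 = x`, and `0` otherwise.
`T x ∈ J 1`, `T x * T x = 0` (if `(l[r]).1 = x` then `(l[r+1]).1 ≠ x`, chain condition).
`1 + T x` is a unit with inverse `1 - T x`, in `f.Uk 0`; `ρ := FreeGroup.lift (fun x => 1 + T x)` into `Uk 0`.
`ρ ((of x) ^ n) = 1 + n • T x` for `n : ℤ`.
Let `δ ∈ V` be the function with `δ m = 1`, `δ r = 0` for `r < m`.  For `j ≤ m` let
`g_j := ρ (product of the syllables number j, ..., m-1) δ`, (syllables numbered from 0), `g_m = δ`.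
Claim: `g_j r = 0` for `r < j` and `g_j j = Π_{k ≥ j} n_k ≠ 0`.  Downward induction:
`g_j = g_{j+1} + n_j • T x_j g_{j+1}`; for `r < j` both terms vanish, for `r = j` the first term is 0 and
the second is `n_j * g_{j+1} (j+1)`.
So `(ρ g) δ 0 = g_0 0 ≠ 0` while `δ 0 = 0`: `ρ g ≠ 1`.
(A convenient form of the induction: for all `l₁ l₂` with `l = l₁ ++ l₂` the statement for `l₂`, by
induction on `l₂`.)
-/

noncomputable section

set_option linter.unusedVariables false

namespace Pool.Agent.H60.CI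

open Classical in
/-- the elementary nilpotent matrices -/
def TnC_N {α : Type} (n : ℕ) (a : ℕ → α) (x : α) : Matrix (Fin n) (Fin n) ℚ :=
  fun i j => if (j : ℕ) = i + 1 ∧ a i = x then 1 else 0

theorem TnC_N_sum {α : Type} (n : ℕ) (a : ℕ → α) (x : α) (i : Fin n) (hi : (i : ℕ) + 1 < n)
    (v : Fin n → ℚ) :
    ∑ j, TnC_N n a x i j * v j = open Classical in if a i = x then v ⟨i + 1, hi⟩ else 0 := by
  classical
  rw [Finset.sum_eq_single (⟨(i : ℕ) + 1, hi⟩ : Fin n)]
  · unfold TnC_N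
    split_ifs with h1 h2 h2
    · rw [one_mul]
    · exact absurd h1.2 h2
    · exact absurd ⟨rfl, h2⟩ h1
    · rw [zero_mul]
  · intro j _ hj
    unfold TnC_N
    rw [if_neg, zero_mul]
    rintro ⟨h1, -⟩
    exact hj (Fin.ext h1)
  · intro h
    exact absurd (Finset.mem_univ _) h

theorem TnC_N_sq {α : Type} (n : ℕ) (a : ℕ → α) (x : α)
    (ha : ∀ t, t + 2 < n → a t ≠ a (t + 1)) : TnC_N n a x * TnC_N n a x = 0 := by
  ext i j
  rw [Matrix.mul_apply, Matrix.zero_apply]
  refine Finset.sum_eq_zero fun k _ => ?_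
  by_cases h : ((k : ℕ) = i + 1 ∧ a i = x) ∧ ((j : ℕ) = k + 1 ∧ a k = x)
  · exfalso
    obtain ⟨⟨h1, h2⟩, h3, h4⟩ := h
    have h5 := j.2
    refine ha i (by omega) ?_
    rw [h2, ← h4, h1]
  · rw [not_and_or] at h
    unfold TnC_N
    rcases h with h | h
    · rw [if_neg h, zero_mul]
    · rw [if_neg h, mul_zero]

theorem TnC_zpow {n : ℕ} (U : (Matrix (Fin n) (Fin n) ℚ)ˣ) (N : Matrix (Fin n) (Fin n) ℚ)
    (hU : (U : Matrix (Fin n) (Fin n) ℚ) = 1 + N) (hN : N * N = 0) (k : ℤ) :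
    ((U ^ k : (Matrix (Fin n) (Fin n) ℚ)ˣ) : Matrix (Fin n) (Fin n) ℚ) = 1 + (k : ℚ) • N := by
  have hinv : ((U⁻¹ : (Matrix (Fin n) (Fin n) ℚ)ˣ) : Matrix (Fin n) (Fin n) ℚ) = 1 - N := by
    refine Units.inv_eq_of_mul_eq_one_right ?_
    rw [hU]
    have h1 : (1 + N) * (1 - N) = 1 - N * N := by noncomm_ring
    rw [h1, hN, sub_zero]
  induction k using Int.induction_on with
  | zero => simp
  | succ k ih =>
    rw [zpow_add_one, Units.val_mul, ih, hU]
    have h1 : (1 + ((k : ℤ) : ℚ) • N) * (1 + N) = 1 + N + ((k : ℤ) : ℚ) • N +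
        ((k : ℤ) : ℚ) • (N * N) := by
      rw [add_mul, one_mul, mul_add, mul_one, smul_mul_assoc]
      abel
    rw [h1, hN, smul_zero, add_zero]
    push_cast
    rw [add_smul, one_smul]
    abel
  | pred k ih =>
    rw [zpow_sub_one, Units.val_mul, ih, hinv]
    have h1 : (1 + ((-(k : ℤ) : ℤ) : ℚ) • N) * (1 - N) = 1 - N + ((-(k : ℤ) : ℤ) : ℚ) • N -
        ((-(k : ℤ) : ℤ) : ℚ) • (N * N) := by
      rw [add_mul, one_mul, mul_sub, mul_one, smul_mul_assoc]
      abel
    rw [h1, hN, smul_zero, sub_zero]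
    push_cast
    rw [sub_smul, one_smul]
    abel

/-- the corner entry -/
theorem TnC_corner {α : Type} (r : ℕ) (a : ℕ → α) (M : List (α × ℤ)) :
    ∀ s : ℕ, s + M.length = r → (∀ t (h : t < M.length), a (s + t) = (M[t]).1) →
      (∀ i : Fin (r + 1), (i : ℕ) < s →
        (M.map fun p => 1 + (p.2 : ℚ) • TnC_N (r + 1) a p.1).prod i (Fin.last r) = 0) ∧
      ∀ i : Fin (r + 1), (i : ℕ) = s →
        (M.map fun p => 1 + (p.2 : ℚ) • TnC_N (r + 1) a p.1).prod i (Fin.last r) =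
          (M.map fun p => (p.2 : ℚ)).prod := by
  induction M with
  | nil =>
    intro s hs _
    rw [List.length_nil, add_zero] at hs
    rw [List.map_nil, List.prod_nil, List.map_nil, List.prod_nil]
    refine ⟨fun i hi => Matrix.one_apply_ne ?_, fun i hi => ?_⟩
    · intro h
      rw [h, Fin.val_last] at hi
      omega
    · have h : i = Fin.last r := Fin.ext (by rw [Fin.val_last]; omega)
      rw [h, Matrix.one_apply_eq]
  | cons p M ih =>
    intro s hs ha
    rw [List.length_cons] at hs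
    obtain ⟨ih1, ih2⟩ := ih (s + 1) (by omega) (fun t h => by
      have h1 := ha (t + 1) (by rw [List.length_cons]; omega)
      rw [List.getElem_cons_succ] at h1
      rw [← h1]
      congr 1
      omega)
    have ha0 : a s = p.1 := ha 0 (by rw [List.length_cons]; omega)
    have key : ∀ i : Fin (r + 1), (i : ℕ) ≤ s → ∀ hi : (i : ℕ) + 1 < r + 1,
        ((p :: M).map fun p => 1 + (p.2 : ℚ) • TnC_N (r + 1) a p.1).prod i (Fin.last r) =
          (M.map fun p => 1 + (p.2 : ℚ) • TnC_N (r + 1) a p.1).prod i (Fin.last r) +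
            (p.2 : ℚ) * (open Classical in if a i = p.1 then
              (M.map fun p => 1 + (p.2 : ℚ) • TnC_N (r + 1) a p.1).prod ⟨i + 1, hi⟩
                (Fin.last r) else 0) := by
      intro i _ hi
      rw [List.map_cons, List.prod_cons, add_mul, one_mul, smul_mul_assoc, Matrix.add_apply,
        Matrix.smul_apply, Matrix.mul_apply, smul_eq_mul, TnC_N_sum _ _ _ i hi]
    refine ⟨fun i hi => ?_, fun i hi => ?_⟩
    · rw [key i (by omega) (by omega), ih1 i (by omega), zero_add]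
      split_ifs with h
      · rw [ih1 ⟨i + 1, _⟩ (by show (i : ℕ) + 1 < s + 1; omega), mul_zero]
      · rw [mul_zero]
    · rw [key i (by omega) (by omega), ih1 i (by omega), zero_add,
        if_pos (show a (i : ℕ) = p.1 by rw [hi]; exact ha0),
        ih2 ⟨i + 1, _⟩ (by show (i : ℕ) + 1 = s + 1; omega), List.map_cons, List.prod_cons]

/-- the filtered algebra of matrices -/
def TnC_FA (n : ℕ) : FA (Matrix (Fin n) (Fin n) ℚ) n where
  J k :=
    { carrier := {M | ∀ i j : Fin n, (j : ℕ) < i + k → M i j = 0}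
      add_mem' := fun {a b} ha hb i j h => by rw [Matrix.add_apply, ha i j h, hb i j h, add_zero]
      zero_mem' := fun i j _ => rfl
      smul_mem' := fun r a ha i j h => by rw [Matrix.smul_apply, ha i j h, smul_zero] }
  one_mem := fun i j h => Matrix.one_apply_ne (fun h1 => by rw [h1] at h; omega)
  anti := fun k M hM i j h => hM i j (by omega)
  mul_mem := by
    intro a b M N hM hN i j h
    rw [Matrix.mul_apply]
    refine Finset.sum_eq_zero fun k _ => ?_
    by_cases h1 : (k : ℕ) < i + a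
    · rw [hM i k h1, zero_mul]
    · rw [hN k j (by omega), mul_zero]
  bot := by
    rw [eq_bot_iff]
    intro M hM
    rw [Submodule.mem_bot]
    ext i j
    exact hM i j (by omega)

theorem freeGroup_res {S : Type} (g : FreeGroup S) (hg : g ≠ 1) :
    ∃ (U : Type) (_ : Group U), TFN U ∧ ∃ ρ : FreeGroup S →* U, ρ g ≠ 1 := by
  classical
  obtain ⟨L, h1, h2, h3⟩ := syllables g
  have hL : L ≠ [] := by
    rintro rfl
    exact hg h1.symm
  obtain ⟨r, hr⟩ : ∃ r, r = L.length := ⟨_, rfl⟩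
  have hr0 : 0 < r := by
    rw [hr]
    exact List.length_pos_iff.2 hL
  obtain ⟨a, ha⟩ : ∃ a : ℕ → S, ∀ t (h : t < L.length), a t = (L[t]).1 := by
    refine ⟨fun t => if h : t < L.length then (L[t]).1 else (L[0]'(by omega)).1, fun t h => ?_⟩
    exact dif_pos h
  have hsq : ∀ x, TnC_N (r + 1) a x * TnC_N (r + 1) a x = 0 := by
    intro x
    refine TnC_N_sq _ _ _ fun t ht => ?_
    rw [List.isChain_iff_getElem] at h3
    rw [ha t (by omega), ha (t + 1) (by omega)]
    exact h3 t (by omega)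
  have hJ : ∀ x, TnC_N (r + 1) a x ∈ (TnC_FA (r + 1)).J (0 + 1) := by
    intro x i j h
    unfold TnC_N
    rw [if_neg]
    rintro ⟨h1, -⟩
    omega
  choose u hu1 hu2 using fun x => (TnC_FA (r + 1)).unit_of_J 0 (TnC_N (r + 1) a x) (hJ x)
  refine ⟨(TnC_FA (r + 1)).Uk 0, inferInstance, FA.tfn _,
    FreeGroup.lift (fun x => (⟨u x, hu1 x⟩ : (TnC_FA (r + 1)).Uk 0)), fun hθ => ?_⟩
  obtain ⟨Ψ, hΨ⟩ : ∃ Ψ : FreeGroup S →* Matrix (Fin (r + 1)) (Fin (r + 1)) ℚ,
      ∀ g, Ψ g = ((FreeGroup.lift (fun x => (⟨u x, hu1 x⟩ : (TnC_FA (r + 1)).Uk 0)) g :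
        (Matrix (Fin (r + 1)) (Fin (r + 1)) ℚ)ˣ) : Matrix (Fin (r + 1)) (Fin (r + 1)) ℚ) :=
    ⟨((Units.coeHom _).comp ((TnC_FA (r + 1)).Uk 0).subtype).comp (FreeGroup.lift _),
      fun g => rfl⟩
  have hΨ2 : ∀ p : S × ℤ, Ψ (FreeGroup.of p.1 ^ p.2) =
      1 + (p.2 : ℚ) • TnC_N (r + 1) a p.1 := by
    intro p
    rw [hΨ, map_zpow, FreeGroup.lift_apply_of, Subgroup.coe_zpow]
    exact TnC_zpow _ _ (hu2 p.1) (hsq p.1) p.2
  have h4 : Ψ g = (L.map fun p => 1 + (p.2 : ℚ) • TnC_N (r + 1) a p.1).prod := by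
    rw [← h1, map_list_prod, List.map_map]
    congr 1
    exact List.map_congr_left fun p _ => hΨ2 p
  have h5 : Ψ g = 1 := by
    rw [hΨ, hθ]
    rfl
  obtain ⟨-, h6⟩ := TnC_corner r a L 0 (by omega) (fun t h => by rw [zero_add]; exact ha t h)
  have h7 := h6 0 rfl
  rw [← h4, h5, Matrix.one_apply_ne] at h7
  · have h8 : (L.map fun p => (p.2 : ℚ)).prod ≠ 0 := by
      rw [Ne, List.prod_eq_zero_iff, List.mem_map]
      rintro ⟨p, hp, hp2⟩
      exact h2 p hp (by exact_mod_cast hp2)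
    exact h8 h7.symm
  · intro h
    have h9 := congrArg Fin.val h
    rw [Fin.val_last] at h9
    change 0 = r at h9
    omega

end Pool.Agent.H60.CI
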