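import Pool.Agent.H60.CI.Clo

/-!
# Row TowA: an equivariant section of `Z → Z/R`

`exists_beta`: `H` acts freely on `Y.V`, `Y = Z.quo R hR hi` (`HCpx.free` type field / see `Hcx.lean`); choose a
representative `y_o` of each orbit `o` (`Quotient.out` of the orbit relation), `z_o : Z.V` over `y_o`
(`Quotient.out`), and for `y = h • y_o` (unique `h`, by freeness) put `β y = h • z_o`.
-/

noncomputable section

set_option linter.unusedVariables false

namespace Pool.Agent.H60.CI

variable {H : Type} [Group H] {B : HCpx H}

theorem TowA_free_section {Y T : Type} [MulAction H Y] [MulAction H T] (f : T → Y)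
    (hf : Function.Surjective f) (he : ∀ (h : H) t, f (h • t) = h • f t)
    (hfree : ∀ (h : H) (y : Y), h • y = y → h = 1) :
    ∃ β : Y → T, (∀ y, f (β y) = y) ∧ ∀ (h : H) y, β (h • y) = h • β y := by
  classical
  have h1 : ∀ y : Y, ∃ h : H, h • (Quotient.out (Quotient.mk (MulAction.orbitRel H Y) y)) = y := by
    intro y
    have h2 : (MulAction.orbitRel H Y) (Quotient.out (Quotient.mk (MulAction.orbitRel H Y) y)) y :=
      Quotient.mk_out (s := MulAction.orbitRel H Y) y
    have h3 := (MulAction.orbitRel H Y).symm h2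
    exact MulAction.orbitRel_apply.1 h3
  choose g hg using h1
  choose z hz using hf
  refine ⟨fun y => g y • z (Quotient.out (Quotient.mk (MulAction.orbitRel H Y) y)), ?_, ?_⟩
  · intro y
    rw [he, hz]
    exact hg y
  · intro h y
    have h4 : (Quotient.mk (MulAction.orbitRel H Y) (h • y))
        = (Quotient.mk (MulAction.orbitRel H Y) y) := by
      apply Quotient.sound
      exact MulAction.orbitRel_apply.2 ⟨h, rfl⟩
    have h5 : g (h • y) = h * g y := by
      have e1 := hg (h • y)
      have e2 := hg y
      rw [h4] at e1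
      have e3 : (g (h • y))⁻¹ • (h • y) = Quotient.out (Quotient.mk (MulAction.orbitRel H Y) y) := by
        rw [inv_smul_eq_iff]; exact e1.symm
      have e4 : (g y)⁻¹ • y = Quotient.out (Quotient.mk (MulAction.orbitRel H Y) y) := by
        rw [inv_smul_eq_iff]; exact e2.symm
      have e5 : (g y * ((g (h • y))⁻¹ * h)) • y = y := by
        rw [mul_smul, mul_smul, e3, ← e4, smul_inv_smul]
      have e6 := hfree _ _ e5
      have e7 : (g (h • y))⁻¹ * h = (g y)⁻¹ := by
        exact eq_inv_of_mul_eq_one_right e6
      have e8 : h = g (h • y) * (g y)⁻¹ := by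
        rw [← e7]; group
      conv_rhs => rw [e8]
      group
    show g (h • y) • z (Quotient.out (Quotient.mk (MulAction.orbitRel H Y) (h • y)))
      = h • g y • z (Quotient.out (Quotient.mk (MulAction.orbitRel H Y) y))
    rw [h4, h5, mul_smul]

theorem HIm.exists_beta (Z : HIm B) (R : Setoid Z.V) (hR : Z.Cong R) (hi : Z.Inv R) :
    ∃ β : (Z.quo R hR hi).V → Z.V, (∀ y, (Z.quoMor R hR hi).f (β y) = y) ∧
      ∀ (h : H) y, β (h • y) = h • β y := by
  exact TowA_free_section (Z.quoMor R hR hi).f (fun y => Quotient.exists_rep y)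
    (fun h t => Z.quoMor_smul R hR hi h t) (fun h y hy => (Z.quo R hR hi).free h y hy)

end Pool.Agent.H60.CI
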