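import Pool.Agent.H60.CI.Lam
import Pool.Agent.H60.CI.MoC
import Pool.Agent.H60.CI.TowA
import Pool.Agent.H60.CI.H2dr

/-!
# Row TowM: the moment data of one step of the tower

`Z : HIm B` connected with `H_1 = 0`; `R` an invariant congruence, `R' = plus R`; `Y = Z/R`, `Y' = Z/R'`,
`q : Y' → Y` the projection, `L(x,y) = Ll R .. x y ∈ E_Y` the class of a path from `x` to `y`.

* `exists_beta` (row TowA): there is an equivariant `β : Y.V → Z.V` with `⟦β y⟧ = y`.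
* `qmap`: the projection `q` as a morphism (`Quotient.map id`).
* `momData`: `u ⟦x⟧ = L(β(q ⟦x⟧), x)`: well defined since for `R' x x'` we have `R x x'` and
  `x' - x ∈ DD R`, so `L(x, x') = 0` (`Ll_eq_zero`) and `L(β, x') = L(β, x) + L(x, x')` (`Ll_add`).
  `κ ε = [single ε 1] - L(β(src ε), β(tgt ε))`.
  - `u_smul`, `κ_smul`: `Ll_smul`, equivariance of `β`.
  - `u_edge`: let `e` be an edge of `Y'`, choose an edge `ε̃` of `Z` over it, with source `x` and target `y`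
    (so `src e = ⟦x⟧`, `tgt e = ⟦y⟧`); `u ⟦y⟧ - u ⟦x⟧ = L(β(q⟦y⟧), y) - L(β(q⟦x⟧), x)
      = L(x, y) - L(β(q⟦x⟧), β(q⟦y⟧))` by `Ll_add`, and `L(x, y) = [single (fe ε̃) 1]` (`Ll_edge`),
    `fe ε̃ = q.e e`, `src (q.e e) = q⟦x⟧`, `tgt (q.e e) = q⟦y⟧`.
  - `face_inj`: `Mor.hom_isImm`.
  - `u_inj`: `q⟦x⟧ = q⟦x'⟧` gives `R x x'`; `L(β, x) = L(β, x')` gives `L(x, x') = 0`, so
    `x' - x ∈ DD R` and `R' x x'`.
-/

noncomputable section

set_option linter.unusedVariables false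

namespace Pool.Agent.H60.CI

open Finsupp

variable {H : Type} [Group H] {B : HCpx H}

namespace HIm

variable (Z : HIm B)

/-- the projection `Z / R⁺ → Z / R` -/
def qmap (R : Setoid Z.V) (hR : Z.Cong R) (hi : Z.Inv R) :
    PC.Mor (Z.quo (Z.toPC.plus R) (PC.plus_cong hR) (Z.plus_inv hi)).toPC
      (Z.quo R hR hi).toPC where
  f := Quotient.map id (fun _ _ h => h.1)
  p_f := by
    intro a
    induction a using Quotient.ind with
    | _ a => rfl
  adj_f := by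
    rintro a e b ⟨x, y, rfl, rfl, h⟩
    exact ⟨x, y, rfl, rfl, h⟩
  mark_f := by
    rintro a σ ⟨x, rfl, h⟩
    exact ⟨x, rfl, h⟩

theorem qmap_smul (R : Setoid Z.V) (hR : Z.Cong R) (hi : Z.Inv R) (h : H)
    (x : (Z.quo (Z.toPC.plus R) (PC.plus_cong hR) (Z.plus_inv hi)).V) :
    (Z.qmap R hR hi).f (h • x) = h • (Z.qmap R hR hi).f x := by
  induction x using Quotient.ind with
  | _ x => rfl

/-- the map `u` of the moment data -/
def TowM_u (R : Setoid Z.V) (hR : Z.Cong R) (hi : Z.Inv R)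
    (hC : Z.toHCpx.Conn) (hH : Z.toHCpx.H1z) (β : (Z.quo R hR hi).V → Z.V) :
    (Z.quo (Z.toPC.plus R) (PC.plus_cong hR) (Z.plus_inv hi)).V → EE (Z.quo R hR hi).toHCpx :=
  Quotient.lift (fun x => Z.Ll R hR hi hC (β (Quotient.mk R x)) x) (by
    intro x x' h
    have h1 : Quotient.mk R x = Quotient.mk R x' := Quotient.sound h.1
    have h2 : Z.Ll R hR hi hC x x' = 0 := (Z.Ll_eq_zero R hR hi hC hH x x').2 h.2
    show Z.Ll R hR hi hC (β (Quotient.mk R x)) x = Z.Ll R hR hi hC (β (Quotient.mk R x')) x'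
    rw [← h1, ← Z.Ll_add R hR hi hC (β (Quotient.mk R x)) x x', h2, add_zero])

/-- the map `κ` of the moment data -/
def TowM_k (R : Setoid Z.V) (hR : Z.Cong R) (hi : Z.Inv R)
    (hC : Z.toHCpx.Conn) (β : (Z.quo R hR hi).V → Z.V) (ε : (Z.quo R hR hi).Edg) :
    EE (Z.quo R hR hi).toHCpx :=
  Submodule.Quotient.mk (single ε 1) -
    Z.Ll R hR hi hC (β ((Z.quo R hR hi).esrc ε)) (β ((Z.quo R hR hi).etgt ε))

theorem TowM_u_smul (R : Setoid Z.V) (hR : Z.Cong R) (hi : Z.Inv R)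
    (hC : Z.toHCpx.Conn) (hH : Z.toHCpx.H1z) (β : (Z.quo R hR hi).V → Z.V)
    (hβs : ∀ (h : H) y, β (h • y) = h • β y) (h : H)
    (v : (Z.quo (Z.toPC.plus R) (PC.plus_cong hR) (Z.plus_inv hi)).V) :
    Z.TowM_u R hR hi hC hH β (h • v) =
      qE (Z.quo R hR hi).toHCpx h (Z.TowM_u R hR hi hC hH β v) := by
  induction v using Quotient.ind with
  | _ x =>
    have h1 : β (Quotient.mk R (h • x)) = h • β (Quotient.mk R x) := hβs h (Quotient.mk R x)
    show Z.Ll R hR hi hC (β (Quotient.mk R (h • x))) (h • x) =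
      qE (Z.quo R hR hi).toHCpx h (Z.Ll R hR hi hC (β (Quotient.mk R x)) x)
    rw [h1, Z.Ll_smul R hR hi hC hH]

theorem TowM_k_smul (R : Setoid Z.V) (hR : Z.Cong R) (hi : Z.Inv R)
    (hC : Z.toHCpx.Conn) (hH : Z.toHCpx.H1z) (β : (Z.quo R hR hi).V → Z.V)
    (hβs : ∀ (h : H) y, β (h • y) = h • β y) (h : H) (ε : (Z.quo R hR hi).Edg) :
    Z.TowM_k R hR hi hC β (h • ε) =
      qE (Z.quo R hR hi).toHCpx h (Z.TowM_k R hR hi hC β ε) := by
  unfold TowM_k
  rw [map_sub, qE_mk, perm_single, HIm.esrc_smul, HIm.etgt_smul, hβs, hβs,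
    Z.Ll_smul R hR hi hC hH]

theorem TowM_u_edge (R : Setoid Z.V) (hR : Z.Cong R) (hi : Z.Inv R)
    (hC : Z.toHCpx.Conn) (hH : Z.toHCpx.H1z) (β : (Z.quo R hR hi).V → Z.V)
    (e : (Z.quo (Z.toPC.plus R) (PC.plus_cong hR) (Z.plus_inv hi)).Edg) :
    Z.TowM_u R hR hi hC hH β
        ((Z.quo (Z.toPC.plus R) (PC.plus_cong hR) (Z.plus_inv hi)).etgt e) -
      Z.TowM_u R hR hi hC hH β
        ((Z.quo (Z.toPC.plus R) (PC.plus_cong hR) (Z.plus_inv hi)).esrc e) =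
      Z.TowM_k R hR hi hC β ((Z.qmap R hR hi).fe e) := by
  obtain ⟨⟨a, e0, b⟩, he⟩ := e
  obtain ⟨x, y, hx, hy, hadj⟩ := he
  change Quotient.mk (Z.toPC.plus R) x = a at hx
  change Quotient.mk (Z.toPC.plus R) y = b at hy
  subst hx
  subst hy
  have h1 := Z.Ll_edge R hR hi hC hH ⟨(x, e0, y), hadj⟩
  have h1' : Z.Ll R hR hi hC x y = Submodule.Quotient.mk
      (single ((Z.quoMor R hR hi).fe (⟨(x, e0, y), hadj⟩ : Z.Edg)) 1) := h1
  show Z.Ll R hR hi hC (β (Quotient.mk R y)) y - Z.Ll R hR hi hC (β (Quotient.mk R x)) x =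
    Submodule.Quotient.mk (single ((Z.quoMor R hR hi).fe (⟨(x, e0, y), hadj⟩ : Z.Edg)) 1) -
      Z.Ll R hR hi hC (β (Quotient.mk R x)) (β (Quotient.mk R y))
  rw [← h1']
  have h2 := Z.Ll_add R hR hi hC (β (Quotient.mk R x)) x y
  have h3 := Z.Ll_add R hR hi hC (β (Quotient.mk R x)) (β (Quotient.mk R y)) y
  rw [← h3] at h2
  rw [sub_eq_sub_iff_add_eq_add, add_comm, ← h2, add_comm]

theorem TowM_u_inj (R : Setoid Z.V) (hR : Z.Cong R) (hi : Z.Inv R)
    (hC : Z.toHCpx.Conn) (hH : Z.toHCpx.H1z) (β : (Z.quo R hR hi).V → Z.V)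
    (v v' : (Z.quo (Z.toPC.plus R) (PC.plus_cong hR) (Z.plus_inv hi)).V)
    (hq : (Z.qmap R hR hi).f v = (Z.qmap R hR hi).f v')
    (hu : Z.TowM_u R hR hi hC hH β v = Z.TowM_u R hR hi hC hH β v') : v = v' := by
  induction v using Quotient.ind with
  | _ x =>
    induction v' using Quotient.ind with
    | _ x' =>
      have h1 : Quotient.mk R x = Quotient.mk R x' := hq
      have h2 : Z.Ll R hR hi hC (β (Quotient.mk R x)) x =
        Z.Ll R hR hi hC (β (Quotient.mk R x')) x' := hu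
      rw [← h1, ← Z.Ll_add R hR hi hC (β (Quotient.mk R x)) x x'] at h2
      have h3 : Z.Ll R hR hi hC x x' = 0 := by
        have := h2.symm
        rwa [add_eq_left] at this
      exact Quotient.sound ⟨Quotient.exact h1, (Z.Ll_eq_zero R hR hi hC hH x x').1 h3⟩

theorem exists_momData (R : Setoid Z.V) (hR : Z.Cong R) (hi : Z.Inv R)
    (hC : Z.toHCpx.Conn) (hH : Z.toHCpx.H1z) :
    ∃ d : MomData (Z.quo (Z.toPC.plus R) (PC.plus_cong hR) (Z.plus_inv hi)).toHCpx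
        (Z.quo R hR hi).toHCpx,
      d.q = (Z.qmap R hR hi).eqHom (Z.qmap_smul R hR hi) := by
  obtain ⟨β, -, hβs⟩ := Z.exists_beta R hR hi
  exact ⟨{  q := (Z.qmap R hR hi).eqHom (Z.qmap_smul R hR hi)
            u := Z.TowM_u R hR hi hC hH β
            κ := Z.TowM_k R hR hi hC β
            u_smul := Z.TowM_u_smul R hR hi hC hH β hβs
            κ_smul := Z.TowM_k_smul R hR hi hC hH β hβs
            u_edge := Z.TowM_u_edge R hR hi hC hH β
            face_inj := (Z.qmap R hR hi).hom_isImm.face_inj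
            u_inj := Z.TowM_u_inj R hR hi hC hH β }, rfl⟩

end HIm

end Pool.Agent.H60.CI
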