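import Pool.Agent.H60.CI.TowM

/-!
# Row TowS: the statement `SS` for all levels of the tower

Induction on `n`.
* `n = 0`: `Y_0 = Z / ker p → B` is injective on 2-cells (a mark is determined by its base vertex, which is
  determined by its image under `p`, and its image): `SS_of_injective` with `(Z.Yn 0).eqHom`
  (see `MoC.lean` or `MoB.lean` for the name and form of `SS_of_injective`).
* `n + 1`: `MomData.SS_step` with the moment data of `exists_momData` for `R = Z.tow n`, whose `plus` is
  `Z.tow (n + 1)` by definition (`H2z` of `Y` from `H2z_of_DR (DR_im hDR _)`).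
-/

noncomputable section

set_option linter.unusedVariables false

namespace Pool.Agent.H60.CI

variable {H : Type} [Group H] {B : HCpx H}

theorem HIm.SS_Yn (Z : HIm B) (hB1 : B.H1z) (hDR : B.DR) (hC : Z.toHCpx.Conn)
    (hH : Z.toHCpx.H1z) (n : ℕ) : SS B (Z.Yn n).toHCpx := by
  have hB2 : B.H2z := H2z_of_DR hDR
  induction n with
  | zero =>
    refine SS_of_injective (Z.Yn 0).eqHom ?_
    intro τ τ' h
    have hp : Function.Injective (Z.Yn 0).p := by
      intro x y hxy
      induction x using Quotient.ind with
      | _ x =>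
        induction y using Quotient.ind with
        | _ y => exact Quotient.sound hxy
    refine (Z.Yn 0).mks_ext (hp ?_) h
    have h1 : (Z.Yn 0).p ((Z.Yn 0).mbase τ) = B.base ((Z.Yn 0).mpr τ) := (Z.Yn 0).mark_base τ.2
    have h2 : (Z.Yn 0).p ((Z.Yn 0).mbase τ') = B.base ((Z.Yn 0).mpr τ') := (Z.Yn 0).mark_base τ'.2
    rw [h1, h2]
    exact congrArg B.base h
  | succ n ih =>
    obtain ⟨d, -⟩ := Z.exists_momData (Z.tow n) (Z.tow_cong n) (Z.tow_inv n) hC hH
    exact MomData.SS_step hB1 hB2 (H2z_of_DR (DR_im hDR _)) d ih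

end Pool.Agent.H60.CI
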