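import Pool.Agent.H60.CI.Min
import Pool.Agent.H60.CI.FcC
import Pool.Agent.H60.CI.KcB
import Pool.Agent.H60.CI.LolN
import Pool.Agent.H60.CI.LolM
import Pool.Agent.H60.CI.Inj
import Pool.Agent.H60.CI.Hz

/-!
# A minimal good complex is weakly simply connected
-/

noncomputable section

set_option linter.unusedVariables false

namespace Pool.Agent.H60.CI

theorem weakSC_of_min {H : Type} [Group H] (B : HCpx H) (hC : B.Conn) (hSC : B.LolliSC)
    (hDR : B.DR) [NoZeroDivisors (MonoidAlgebra ℚ H)] (Z : HIm B) (hG : Z.Good)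
    (hmin : ∀ Z' : HIm B, Z'.Good → Z.orbs ≤ Z'.orbs) : Z.toHCpx.WeakSC := by
  intro v w hw
  have hB1 : B.H1z := H1z_of_LolliSC hC hSC
  obtain ⟨m, hm⟩ := Z.tow_eq_bot hG hmin
  have hw' : B.Walk (Z.p v) (w.map (Prod.map Z.epr id)) (Z.p v) :=
    isWalk_map Z.p Z.epr (fun ε => (Z.adj_src ε.2).symm) (fun ε => (Z.adj_tgt ε.2).symm) hw
  obtain ⟨Lp, hLp, hprod⟩ := hSC _ _ hw'
  let L : Lol B.toCpx := ⟨Z.toIm, v, Lp, hLp⟩
  obtain ⟨W, hWf, hW⟩ := PC.KK_resl L.I.toPC L.C L.C_edg_finite L.G L.G_finite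
  have hfin : {t : Z.V × Z.V | L.R t.1 t.2 ∧ t.1 ≠ t.2}.Finite :=
    Z.finite_closure hB1 hDR hG m hm L.R (PC.resl_cong L.R_cong) W hW
  obtain ⟨M, I2, hMf, hK, hM, hM'⟩ := L.exists_M hG.fin.mks hfin
  have hnull := L.null hw hprod
  have h := lift_null L.g.hom (DR_im hDR Z.toIm) hG.h1 (H2z_of_DR (DR_im hDR L.B')) M hMf I2 hM hM'
    hw (Subgroup.normalClosure_mono (Set.image_mono hK) hnull)
  refine Subgroup.normalClosure_mono ?_ h
  rintro _ ⟨τ, -, rfl⟩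
  exact ⟨τ, rfl⟩

end Pool.Agent.H60.CI
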